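import Mathlib

/-! Finite chain rings such as `ZMod (p ^ e)`: divisibility, self-injectivity, duality. -/

namespace Pool.Agent.P.MP_0b48ca_al.G

open Function

/-- a finite chain ring with uniformiser `ϖ` of nilpotency index `e + 1` -/
structure Chain (K : Type) [CommRing K] (ϖ : K) (e : ℕ) : Prop where
  unit_or : ∀ a, IsUnit a ∨ ϖ ∣ a
  nilp : ϖ ^ (e + 1) = 0
  ne : ϖ ^ e ≠ 0
  dual : ∀ (V : Type) [AddCommGroup V] [Module K V] [Finite V],
    Finite (V →ₗ[K] K) ∧ Nat.card (V →ₗ[K] K) ≤ Nat.card V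

theorem chain_zmod (p e : ℕ) [hp : Fact p.Prime] : Chain (ZMod (p ^ (e + 1))) p e where
  unit_or := by
    intro a
    obtain ⟨n, rfl⟩ := ZMod.natCast_zmod_surjective a
    by_cases h : p ∣ n
    · exact Or.inr (Nat.cast_dvd_cast h)
    · left
      rw [ZMod.isUnit_iff_coprime]
      exact Nat.Coprime.pow_right _ ((hp.out.coprime_iff_not_dvd).2 h).symm
  nilp := by
    rw [← Nat.cast_pow, ZMod.natCast_self]
  ne := by
    rw [← Nat.cast_pow, Ne, ZMod.natCast_eq_zero_iff, Nat.pow_dvd_pow_iff_le_right hp.out.one_lt]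
    omega
  dual := by
    intro V _ _ _
    have : Fintype V := Fintype.ofFinite V
    let F : (V →ₗ[ZMod (p ^ (e + 1))] ZMod (p ^ (e + 1))) → AddChar V ℂ := fun φ =>
      (ZMod.stdAddChar (N := p ^ (e + 1))).compAddMonoidHom φ.toAddMonoidHom
    have hF : Injective F := by
      intro φ ψ h
      ext v
      exact ZMod.injective_stdAddChar (DFunLike.congr_fun h v)
    refine ⟨Finite.of_injective F hF, (Nat.card_le_card_of_injective F hF).trans ?_⟩
    rw [Nat.card_eq_fintype_card, AddChar.card_eq, Nat.card_eq_fintype_card]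

namespace Chain
variable {K : Type} [CommRing K] {ϖ : K} {e : ℕ} (H : Chain K ϖ e)
include H

lemma nontrivial : Nontrivial K := ⟨_, _, H.ne⟩

lemma not_unit {a : K} (h : ϖ ∣ a) : ¬ IsUnit a := by
  intro ha
  apply H.ne
  have := H.nilp
  rw [pow_succ] at this
  exact (isUnit_of_dvd_unit h ha).mul_left_eq_zero.1 this

lemma dvd_of_not_unit {a : K} (h : ¬ IsUnit a) : ϖ ∣ a := (H.unit_or a).resolve_left h

lemma form (a : K) : ∃ j u, j ≤ e + 1 ∧ IsUnit u ∧ a = ϖ ^ j * u := by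
  have key : ∀ k, (∃ j u, j ≤ k ∧ IsUnit u ∧ a = ϖ ^ j * u) ∨ ϖ ^ k ∣ a := by
    intro k
    induction k with
    | zero => simp
    | succ k ih =>
      rcases ih with ⟨j, u, h1, h2⟩ | ⟨b, rfl⟩
      · exact Or.inl ⟨j, u, by omega, h2⟩
      · rcases H.unit_or b with h | ⟨c, rfl⟩
        · exact Or.inl ⟨k, b, by omega, h, rfl⟩
        · exact Or.inr ⟨c, by ring⟩
  rcases key (e + 1) with h | h
  · exact h
  · rw [H.nilp, zero_dvd_iff] at h
    exact ⟨e + 1, 1, le_rfl, isUnit_one, by rw [h, H.nilp, zero_mul]⟩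

lemma total (a b : K) : a ∣ b ∨ b ∣ a := by
  obtain ⟨i, u, -, hu, rfl⟩ := H.form a
  obtain ⟨j, v, -, hv, rfl⟩ := H.form b
  rw [hu.mul_right_dvd, hv.mul_right_dvd]
  rcases le_total i j with h | h
  · exact Or.inl ((pow_dvd_pow _ h).mul_right _)
  · exact Or.inr ((pow_dvd_pow _ h).mul_right _)

lemma ann {i j : ℕ} (hij : i + j = e + 1) {x : K} (h : ϖ ^ j * x = 0) : ϖ ^ i ∣ x := by
  obtain ⟨k, u, -, hu, rfl⟩ := H.form x
  rw [← mul_assoc, hu.mul_left_eq_zero, ← pow_add] at h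
  refine (pow_dvd_pow _ ?_).mul_right _
  by_contra hlt
  apply H.ne
  obtain ⟨l, hl⟩ : ∃ l, e = j + k + l := ⟨e - (j + k), by omega⟩
  rw [hl, pow_add, h, zero_mul]

lemma ann_one {x : K} (h : ϖ * x = 0) : ϖ ^ e ∣ x := H.ann (j := 1) rfl (by rwa [pow_one])

lemma ann_top {x : K} (h : ϖ ^ e * x = 0) : ϖ ∣ x := by
  simpa using H.ann (i := 1) (add_comm _ _) h

lemma top_mul {x : K} (h : ϖ ∣ x) : ϖ ^ e * x = 0 := by
  obtain ⟨y, rfl⟩ := h
  rw [← mul_assoc, ← pow_succ, H.nilp, zero_mul]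

lemma baer : Module.Baer K K := by
  intro I g
  classical
  have hex : ∃ j, ϖ ^ j ∈ I := ⟨e + 1, by rw [H.nilp]; exact I.zero_mem⟩
  have h1 := Nat.find_spec hex
  have h2 : Nat.find hex ≤ e + 1 := Nat.find_min' hex (by rw [H.nilp]; exact I.zero_mem)
  obtain ⟨y, hy⟩ : ϖ ^ Nat.find hex ∣ g ⟨_, h1⟩ := by
    apply H.ann (j := e + 1 - Nat.find hex) (by omega)
    rw [← smul_eq_mul, ← map_smul, ← map_zero g]
    congr 1
    apply Subtype.ext
    change ϖ ^ _ * ϖ ^ _ = 0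
    rw [← pow_add, show e + 1 - Nat.find hex + Nat.find hex = e + 1 by omega, H.nilp]
  refine ⟨LinearMap.mulRight K y, fun x hx => ?_⟩
  obtain ⟨k, u, -, hu, rfl⟩ := H.form x
  have h3 : Nat.find hex ≤ k := Nat.find_min' hex ((I.mul_unit_mem_iff_mem hu).1 hx)
  obtain ⟨l, hl⟩ := Nat.exists_eq_add_of_le h3
  have : (⟨ϖ ^ k * u, hx⟩ : I) = (ϖ ^ l * u) • ⟨_, h1⟩ := by
    apply Subtype.ext
    change ϖ ^ k * u = ϖ ^ l * u * ϖ ^ Nat.find hex
    conv_lhs => rw [hl]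
    ring
  rw [this, map_smul, hy, LinearMap.mulRight_apply, smul_eq_mul]
  conv_lhs => rw [hl]
  ring

lemma extend {U V : Type} [AddCommGroup U] [Module K U] [AddCommGroup V] [Module K V]
    (j : U →ₗ[K] V) (hj : Injective j) (φ : U →ₗ[K] K × K) :
    ∃ ψ : V →ₗ[K] K × K, ∀ u, ψ (j u) = φ u := by
  obtain ⟨a, ha⟩ := H.baer.extension_property j hj (LinearMap.fst K K K ∘ₗ φ)
  obtain ⟨b, hb⟩ := H.baer.extension_property j hj (LinearMap.snd K K K ∘ₗ φ)
  exact ⟨a.prod b, fun u => Prod.ext (LinearMap.congr_fun ha u) (LinearMap.congr_fun hb u)⟩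

lemma cogen {V : Type} [AddCommGroup V] [Module K V] {v : V} (hv : v ≠ 0) :
    ∃ φ : V →ₗ[K] K, φ v ≠ 0 := by
  let f := LinearPMap.mkSpanSingleton' (R := K) (σ := RingHom.id K) v (ϖ ^ e) (by
    intro c hc
    rw [smul_eq_mul, mul_comm, RingHom.id_apply]
    apply H.top_mul
    apply H.dvd_of_not_unit
    intro hu
    exact hv (hu.smul_eq_zero.1 hc))
  obtain ⟨φ, hφ⟩ := H.baer.extension_property f.domain.subtype Subtype.val_injective f.toFun
  refine ⟨φ, ?_⟩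
  have := LinearMap.congr_fun hφ ⟨v, Submodule.mem_span_singleton_self v⟩
  have h2 : f.toFun ⟨v, Submodule.mem_span_singleton_self v⟩ = ϖ ^ e :=
    LinearPMap.mkSpanSingleton'_apply_self _ _ _ _
  rw [h2] at this
  exact this ▸ H.ne

lemma separate {V : Type} [AddCommGroup V] [Module K V] (S : Submodule K V) {v : V}
    (hv : v ∉ S) : ∃ φ : V →ₗ[K] K, φ v ≠ 0 ∧ ∀ s ∈ S, φ s = 0 := by
  obtain ⟨φ, hφ⟩ := H.cogen (V := V ⧸ S) (v := S.mkQ v) (by simpa using hv)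
  refine ⟨φ ∘ₗ S.mkQ, hφ, fun s hs => ?_⟩
  rw [LinearMap.comp_apply, Submodule.mkQ_apply, (Submodule.Quotient.mk_eq_zero S).2 hs, map_zero]

lemma exists_dual {V : Type} [AddCommGroup V] [Module K V] [Finite V]
    (B : V →ₗ[K] V →ₗ[K] K) (hB : ∀ u, (∀ v, B u v = 0) → u = 0) :
    ∃ Φ : (V →ₗ[K] K) →ₗ[K] V, ∀ φ v, B (Φ φ) v = φ v := by
  have hi : Injective B := by
    rw [injective_iff_map_eq_zero]
    intro u hu
    exact hB u fun v => by rw [hu, LinearMap.zero_apply]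
  obtain ⟨_, h⟩ := H.dual V
  let E := LinearEquiv.ofBijective B (hi.bijective_of_nat_card_le h)
  refine ⟨E.symm.toLinearMap, fun φ v => ?_⟩
  change E (E.symm φ) v = φ v
  rw [LinearEquiv.apply_symm_apply]

lemma exists_socle {V : Type} [AddCommGroup V] [Module K V] {v : V} (hv : v ≠ 0) :
    ∃ j : ℕ, ϖ ^ j • v ≠ 0 ∧ ϖ • ϖ ^ j • v = 0 := by
  by_contra h
  push Not at h
  have : ∀ j : ℕ, ϖ ^ j • v ≠ 0 := by
    intro j
    induction j with
    | zero => simpa using hv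
    | succ j ih => rw [pow_succ', mul_smul]; exact h j ih
  exact this (e + 1) (by rw [H.nilp, zero_smul])

lemma nakayama {V : Type} [AddCommGroup V] [Module K V] (S : Submodule K V)
    (h : ∀ v, ∃ s ∈ S, ∃ w, v = s + ϖ • w) (v : V) : v ∈ S := by
  have : ∀ j : ℕ, ∃ s ∈ S, ∃ w, v = s + ϖ ^ j • w := by
    intro j
    induction j with
    | zero => exact ⟨0, S.zero_mem, v, by simp⟩
    | succ j ih =>
      obtain ⟨s, hs, w, rfl⟩ := ih
      obtain ⟨s', hs', w', rfl⟩ := h w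
      exact ⟨s + ϖ ^ j • s', S.add_mem hs (S.smul_mem _ hs'), w', by
        rw [smul_add, pow_succ, mul_smul, add_assoc]⟩
  obtain ⟨s, hs, w, rfl⟩ := this (e + 1)
  rwa [H.nilp, zero_smul, add_zero]

end Chain

end Pool.Agent.P.MP_0b48ca_al.G
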