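import Pool.Agent.P.MP_0b48ca_al.G.Ext2
import Pool.Agent.P.MP_0b48ca_al.G.Chain

/-! A group of rank two with only class-preserving automorphisms is special; coordinates on it. -/

namespace Pool.Agent.P.MP_0b48ca_al.G

open Function
open scoped commutatorElement

section
variable {G : Type} [Group G]

lemma cm_mem (x y : G) : ⁅x, y⁆ ∈ commutator G :=
  Subgroup.commutator_mem_commutator (Subgroup.mem_top x) (Subgroup.mem_top y)

lemma cm_central (hc : commutator G ≤ Subgroup.center G) (x y z : G) :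
    ⁅x, y⁆ * z = z * ⁅x, y⁆ := (Subgroup.mem_center_iff.1 (hc (cm_mem x y)) z).symm

lemma cm_mul_left (hc : commutator G ≤ Subgroup.center G) (x y z : G) :
    ⁅x * y, z⁆ = ⁅x, z⁆ * ⁅y, z⁆ := by
  rw [commutatorElement_mul_left_eq_conj_mul, ← cm_central hc y z x, mul_inv_cancel_right,
    cm_central hc]

lemma cm_mul_right (hc : commutator G ≤ Subgroup.center G) (x y z : G) :
    ⁅x, y * z⁆ = ⁅x, y⁆ * ⁅x, z⁆ := by
  rw [commutatorElement_mul_right_eq_mul_conj, mul_assoc, mul_assoc, cm_central hc x z,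
    mul_inv_cancel_left]

lemma cm_pow_left (hc : commutator G ≤ Subgroup.center G) (x z : G) (n : ℕ) :
    ⁅x ^ n, z⁆ = ⁅x, z⁆ ^ n := by
  induction n with
  | zero => simp
  | succ n ih => rw [pow_succ, cm_mul_left hc, ih, pow_succ]

lemma mul_pow_cm (hc : commutator G ≤ Subgroup.center G) (x y : G) (n : ℕ) :
    (x * y) ^ n = x ^ n * y ^ n * ⁅y, x⁆ ^ n.choose 2 := by
  induction n with
  | zero => simp
  | succ n ih =>
    have h1 : y ^ n * x = ⁅y, x⁆ ^ n * (x * y ^ n) := by
      rw [← cm_pow_left hc, commutatorElement_def]; group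
    have h2 : (n + 1).choose 2 = n.choose 2 + n := by
      rw [Nat.choose_succ_succ' n 1, Nat.choose_one_right, add_comm]
    rw [pow_succ, ih, h2, pow_add ⁅y, x⁆, pow_succ, pow_succ]
    have hz : ∀ k z, ⁅y, x⁆ ^ k * z = z * ⁅y, x⁆ ^ k := fun k z =>
      (Commute.pow_left (cm_central hc y x z) k)
    set a := ⁅y, x⁆ ^ n.choose 2
    set b := ⁅y, x⁆ ^ n
    have ha : ∀ x, a * x = x * a := hz _
    have hb : ∀ x, b * x = x * b := hz _
    calc x ^ n * y ^ n * a * (x * y) = x ^ n * (y ^ n * x) * y * a := by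
          rw [mul_assoc (x ^ n * y ^ n), ha]; simp only [mul_assoc]
      _ = x ^ n * x * (y ^ n * y) * (a * b) := by
          rw [h1, hb, ha b]; simp only [mul_assoc]
          rw [← mul_assoc b y a, hb y, mul_assoc]

/-- central automorphisms -/
lemma central_mem [Finite G] (hG : AllClassPreserving G) (ℓ : G → G)
    (hm : ∀ x y, ℓ (x * y) = ℓ x * ℓ y) (hz : ∀ x y, ℓ x * y = y * ℓ x)
    (hi : ∀ x, x * ℓ x = 1 → x = 1) (x : G) : ℓ x ∈ commutator G := by
  let φ : G →* G := MonoidHom.mk' (fun x => x * ℓ x) (by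
    intro x y
    rw [hm]
    simp only [mul_assoc]
    rw [← mul_assoc (ℓ x) y, hz x y, mul_assoc])
  have hφ : Injective φ := (injective_iff_map_eq_one φ).2 hi
  let α : MulAut G := MulEquiv.ofBijective φ (Finite.injective_iff_bijective.1 hφ)
  obtain ⟨c, hc⟩ := isConj_iff.1 (hG α x)
  have hc : c * x * c⁻¹ = x * ℓ x := hc
  have : ℓ x = ⁅x⁻¹, c⁆ := by
    rw [commutatorElement_def, inv_inv, mul_assoc, mul_assoc, ← mul_assoc c, hc,
      inv_mul_cancel_left]
  rw [this]
  exact cm_mem _ _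

lemma pow_mem_aux [Finite G] {p n : ℕ} [Fact p.Prime] (hp : IsPGroup p G)
    (hc : commutator G ≤ Subgroup.center G) (he : ∀ x ∈ commutator G, x ^ n = 1)
    (hG : AllClassPreserving G) (m : ℕ) (h0 : p ∣ m) (h1 : n ∣ m) (h2 : n ∣ m.choose 2) (x : G) :
    x ^ m ∈ commutator G := by
  apply central_mem hG (fun x => x ^ m)
  · intro x y
    obtain ⟨k, hk⟩ := h2
    rw [mul_pow_cm hc, hk, pow_mul, he _ (cm_mem _ _), one_pow, mul_one]
  · intro x y
    obtain ⟨k, rfl⟩ := h1
    rw [← commutatorElement_eq_one_iff_mul_comm, cm_pow_left hc, pow_mul, he _ (cm_mem _ _),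
      one_pow]
  · intro x hx
    rw [← pow_succ'] at hx
    obtain ⟨k, hk⟩ := hp x
    have : (m + 1).Coprime (p ^ k) := by
      apply Nat.Coprime.pow_right
      obtain ⟨j, rfl⟩ := h0
      simp
    have h3 := orderOf_dvd_of_pow_eq_one hx
    have h4 := orderOf_dvd_of_pow_eq_one hk
    exact orderOf_eq_one_iff.1 (Nat.eq_one_of_dvd_coprimes this h3 h4)

lemma dvd_choose_two {m : ℕ} (h : Odd m) : m ∣ m.choose 2 := by
  obtain ⟨k, rfl⟩ := h
  refine ⟨k, ?_⟩
  rw [Nat.choose_two_right, Nat.add_sub_cancel, mul_left_comm, Nat.mul_div_cancel_left _ two_pos]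

lemma pow_mem [Finite G] {p a : ℕ} [hpp : Fact p.Prime] (hp : IsPGroup p G)
    (hc : commutator G ≤ Subgroup.center G) (he : ∀ x ∈ commutator G, x ^ (p ^ (a + 1)) = 1)
    (hG : AllClassPreserving G) (x : G) : x ^ (p ^ (a + 1)) ∈ commutator G := by
  by_cases h2 : p = 2
  swap
  · exact pow_mem_aux hp hc he hG _ (dvd_pow_self _ (by omega)) dvd_rfl
      (dvd_choose_two (hpp.out.odd_of_ne_two h2).pow) x
  subst h2
  obtain ⟨m, hm⟩ : ∃ m, 2 ^ (a + 1) = m := ⟨_, rfl⟩
  have hm2 : m = 2 * 2 ^ a := by rw [← hm]; ring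
  rw [hm] at he ⊢
  have h4 : ∀ y : G, y ^ (2 * m) ∈ commutator G := pow_mem_aux hp hc he hG (2 * m)
    (dvd_mul_right _ _) (dvd_mul_left _ _) ⟨2 * m - 1, by
      rw [Nat.choose_two_right, mul_assoc, Nat.mul_div_cancel_left _ two_pos]⟩
  by_contra hx
  obtain ⟨ι, _, n, hn, ⟨e⟩⟩ := CommGroup.equiv_prod_multiplicative_zmod_of_finite
    (Abelianization G)
  have hx1 : e (Abelianization.of (x ^ m)) ≠ 1 := by
    rw [Ne, e.map_eq_one_iff, ← MonoidHom.mem_ker, Abelianization.ker_of]
    exact hx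
  obtain ⟨i, hi⟩ : ∃ i, e (Abelianization.of (x ^ m)) i ≠ 1 := by
    by_contra h
    push Not at h
    exact hx1 (funext h)
  let χ : G → ZMod (n i) := fun y => (e (Abelianization.of y) i).toAdd
  have χmul : ∀ a b, χ (a * b) = χ a + χ b := by
    intro a b; simp [χ]
  have χpow : ∀ a (k : ℕ), χ (a ^ k) = k * χ a := by
    intro a k; simp [χ]
  have hχ : (m : ZMod (n i)) * χ x ≠ 0 := by
    rw [← χpow]
    exact hi
  have hn4 : n i = 2 * m := by
    classical
    have hd : n i ∣ 2 * m := by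
      obtain ⟨y, hy⟩ : ∃ y, e (Abelianization.of y) = Pi.mulSingle i (Multiplicative.ofAdd 1) := by
        obtain ⟨y, hy⟩ := QuotientGroup.mk_surjective
          (e.symm (Pi.mulSingle i (Multiplicative.ofAdd 1)))
        refine ⟨y, ?_⟩
        rw [← MulEquiv.eq_symm_apply]
        exact hy
      have h5 : χ y = 1 := by simp [χ, hy]
      have h6 : χ (y ^ (2 * m)) = 0 := by
        have : Abelianization.of (y ^ (2 * m)) = 1 := by
          rw [← MonoidHom.mem_ker, Abelianization.ker_of]; exact h4 y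
        simp only [χ]
        rw [this]; simp
      rw [χpow, h5, mul_one] at h6
      exact (ZMod.natCast_eq_zero_iff _ _).1 h6
    rw [← hm, ← pow_succ'] at hd ⊢
    obtain ⟨j, hj, hj'⟩ := (Nat.dvd_prime_pow Nat.prime_two).1 hd
    rcases hj.eq_or_lt with rfl | hlt
    · exact hj'
    · exfalso
      apply hχ
      rw [(ZMod.natCast_eq_zero_iff m _).2 (by rw [hj', ← hm]; exact pow_dvd_pow _ (by omega)),
        zero_mul]
  clear_value χ
  revert χ
  rw [hn4]
  intro χ χmul χpow hχ
  have : NeZero (2 * m) := ⟨by rw [hm2]; positivity⟩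
  have h2m : (2 : ZMod (2 * m)) * m = 0 := by exact_mod_cast ZMod.natCast_self (2 * m)
  set u := x ^ m with hu
  have hu4 : u ^ 2 ∈ commutator G := by rw [hu, ← pow_mul, mul_comm]; exact h4 x
  have hu8 : u ^ (2 * m) = 1 := by
    rw [pow_mul]; exact he _ hu4
  have hcen : ∀ y, u * y = y * u := by
    intro y
    rw [← commutatorElement_eq_one_iff_mul_comm, hu, cm_pow_left hc, he _ (cm_mem _ _)]
  have hℓ := central_mem hG (fun y => u ^ (χ y).val) (by
      intro a b
      rw [χmul, ZMod.val_add, ← pow_add, ← pow_eq_pow_mod _ hu8])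
    (fun a b => Commute.pow_left (hcen b) _) (by
      intro y hy
      have h7 := congrArg χ hy
      have h0 : χ 1 = 0 := by simpa using χpow 1 0
      rw [χmul, χpow, hu, χpow, h0, ZMod.natCast_zmod_val] at h7
      have h9 : (m : ZMod (2 * m)) = 2 * 2 ^ a := by exact_mod_cast congrArg Nat.cast hm2
      have h8 : χ y = 0 := by
        linear_combination (1 + m * χ x) * h7 - (χ y * χ x + χ y * χ x ^ 2 * 2 ^ a) * h2m -
          χ y * m * χ x ^ 2 * h9
      rw [h8] at hy
      simpa using hy) x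
  obtain ⟨k, hk | hk⟩ := Nat.even_or_odd' (χ x).val
  · apply hχ
    rw [← ZMod.natCast_zmod_val (χ x), hk]
    push_cast
    linear_combination k * h2m
  · apply hx
    rw [hk, pow_succ, pow_mul] at hℓ
    exact (Subgroup.mul_mem_cancel_left _ (Subgroup.pow_mem _ hu4 _)).1 hℓ

end

lemma exists_bilin {p : ℕ} {V W : Type} [AddCommGroup V] [Module (ZMod p) V] [AddCommGroup W]
    [Module (ZMod p) W] (B : V → V → W) (h1 : ∀ a b c, B (a + b) c = B a c + B b c)
    (h2 : ∀ a b c, B a (b + c) = B a b + B a c) :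
    ∃ ω : V →ₗ[ZMod p] V →ₗ[ZMod p] W, ∀ u v, ω u v = B u v :=
  ⟨LinearMap.mk₂ (ZMod p) B h1
    (fun c a b => ZMod.map_smul (AddMonoidHom.mk' (fun a => B a b) (fun a a' => h1 a a' b)) c a) h2
    (fun c a b => ZMod.map_smul (AddMonoidHom.mk' (fun b => B a b) (fun b b' => h2 a b b')) c b),
    fun _ _ => rfl⟩

theorem exists_ext {p : ℕ} {G W : Type} [Group G] [Finite G] [AddCommGroup W]
    [Module (ZMod p) W] (hc : commutator G ≤ Subgroup.center G)
    (e : commutator G ≃* Multiplicative W) (he : ∀ x ∈ commutator G, x ^ p = 1)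
    (hpow : ∀ x : G, x ^ p ∈ commutator G) :
    ∃ (V : Type) (_ : AddCommGroup V) (_ : Module (ZMod p) V) (_ : Finite V)
      (ω : V →ₗ[ZMod p] V →ₗ[ZMod p] W) (q : V → W),
      (∀ S : AddSubgroup W, (∀ u v, ω u v ∈ S) → ∀ w, w ∈ S) ∧ Nonempty (Ext p G V W ω q) := by
  have hker : ∀ x, Abelianization.of x = 1 ↔ x ∈ commutator G := by
    intro x
    rw [← MonoidHom.mem_ker, Abelianization.ker_of]
  have hsurj : Surjective (Abelianization.of : G → Abelianization G) := QuotientGroup.mk_surjective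
  let : Module (ZMod p) (Additive (Abelianization G)) := AddCommGroup.zmodModule (by
    intro a
    obtain ⟨x, hx⟩ := hsurj a.toMul
    apply Additive.toMul.injective
    rw [toMul_nsmul, ← hx, ← map_pow, toMul_zero, hker]
    exact hpow x)
  let B0 : G → G →* Multiplicative W := fun x =>
    MonoidHom.mk' (fun y => e ⟨⁅x, y⁆, cm_mem x y⟩) (by
      intro y z
      rw [← map_mul]
      congr 1
      exact Subtype.ext (cm_mul_right hc x y z))
  let B1 : G →* (Abelianization G →* Multiplicative W) :=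
    MonoidHom.mk' (fun x => Abelianization.lift (B0 x)) (by
      intro x y
      apply MonoidHom.ext
      intro a
      obtain ⟨z, rfl⟩ := hsurj a
      simp only [MonoidHom.mul_apply, Abelianization.lift_apply_of, B0, MonoidHom.mk'_apply]
      rw [← map_mul]
      congr 1
      exact Subtype.ext (cm_mul_left hc x y z))
  let B2 := Abelianization.lift B1
  obtain ⟨ω, hω⟩ := exists_bilin (p := p) (V := Additive (Abelianization G))
    (fun a b => (B2 a.toMul b.toMul).toAdd) (by intro a b c; simp) (by intro a b c; simp)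
  choose s hs using id hsurj
  have hpow2 : ∀ x, s (Abelianization.of x) ^ p = x ^ p := by
    intro x
    have h1 : x⁻¹ * s (Abelianization.of x) ∈ commutator G := by
      rw [← hker, map_mul, hs]; simp
    have h2 : Commute x (x⁻¹ * s (Abelianization.of x)) :=
      Subgroup.mem_center_iff.1 (hc h1) x
    conv_lhs => rw [← mul_inv_cancel_left x (s _), h2.mul_pow, he _ h1, mul_one]
  let E : Ext p G (Additive (Abelianization G)) W ω
      (fun a => (e ⟨s a.toMul ^ p, hpow _⟩).toAdd) :=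
    { ν := fun x => Additive.ofMul (Abelianization.of x)
      ι := fun w => (e.symm (Multiplicative.ofAdd w) : commutator G)
      ν_mul := by intro x y; simp
      ι_add := by intro a b; simp [ofAdd_add]
      ν_surj := fun a => ⟨s a.toMul, by simp [hs]⟩
      ι_inj := by
        intro a b hab
        simpa using hab
      ker := by
        intro x
        rw [ofMul_eq_zero, hker]
        constructor
        · intro hx
          exact ⟨(e ⟨x, hx⟩).toAdd, by simp⟩
        · rintro ⟨w, rfl⟩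
          exact Subtype.property _
      central := fun w x => (Subgroup.mem_center_iff.1 (hc (Subtype.property _)) x).symm
      comm := by
        intro x y
        simp [hω, B2, B1, B0, commutatorElement_def]
      pow := by
        intro x
        simp [hpow2] }
  refine ⟨Additive (Abelianization G), inferInstance, inferInstance,
    Finite.of_surjective _ E.ν_surj, ω, _, fun S hS w => ?_, ⟨E⟩⟩
  have : commutator G ≤ (AddSubgroup.toSubgroup S).map E.ιh := by
    refine Subgroup.commutator_le.2 fun x _ y _ => ?_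
    refine ⟨Multiplicative.ofAdd _, hS (E.ν x) (E.ν y), ?_⟩
    change E.ι _ = x * y * x⁻¹ * y⁻¹
    rw [E.comm x y]
    group
    rfl
  obtain ⟨w', hw', h⟩ := this (x := E.ι w) (Subtype.property _)
  rw [← E.ι_inj h]
  exact hw'

lemma exp_of_equiv {p : ℕ} {G W : Type} [Group G] [AddCommGroup W] [Module (ZMod p) W]
    (e : commutator G ≃* Multiplicative W) : ∀ x ∈ commutator G, x ^ p = 1 := by
  intro x hx
  have : (⟨x, hx⟩ : commutator G) ^ p = 1 := by
    apply e.injective
    rw [map_pow, map_one]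
    apply Multiplicative.toAdd.injective
    rw [toAdd_pow, ← Nat.cast_smul_eq_nsmul (ZMod p), ZMod.natCast_self, zero_smul, toAdd_one]
  exact congrArg Subtype.val this

section top
variable {m : ℕ} {G V W : Type} [Group G] [AddCommGroup V] [Module (ZMod m) V]
  [AddCommGroup W] [Module (ZMod m) W] {ω : V →ₗ[ZMod m] V →ₗ[ZMod m] W} {q : V → W}

lemma Ext.q_nsmul (E : Ext m G V W ω q) (n : ℕ) (v : V) : q (n • v) = n • q v := by
  obtain ⟨x, rfl⟩ := E.ν_surj v
  apply E.ι_inj
  rw [← E.ν_pow, ← E.pow, E.ι_nsmul, ← E.pow, ← pow_mul, ← pow_mul, mul_comm]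

lemma Ext.q_smul [NeZero m] (E : Ext m G V W ω q) (a : ZMod m) (v : V) : q (a • v) = a • q v := by
  rw [← ZMod.natCast_zmod_val a, Nat.cast_smul_eq_nsmul, Nat.cast_smul_eq_nsmul, E.q_nsmul]

lemma Ext.skew (E : Ext m G V W ω q) (u v : V) : ω u v = -ω v u := by
  have := E.alt (u + v)
  simp only [map_add, LinearMap.add_apply, E.alt, zero_add, add_zero] at this
  exact eq_neg_of_add_eq_zero_right this

end top

lemma not_allCP_two {G V W : Type} [Group G]
    [AddCommGroup V] [Module (ZMod 2) V] [AddCommGroup W]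
    [Module (ZMod 2) W] {ω : V →ₗ[ZMod 2] V →ₗ[ZMod 2] W}
    {q : V → W} (E : Ext 2 G V W ω q) (l : W →ₗ[ZMod 2] ZMod 2) (z : W)
    (htop : ∀ w, w = l w • z) {x₀ y₀ : V} (h₀ : l (ω x₀ y₀) = 1) : ¬ AllClassPreserving G := by
  intro hG
  obtain ⟨x, y, hxy, hy⟩ : ∃ x y, l (ω x y) = 1 ∧ l (q y) = 1 := by
    have h1 : l (ω y₀ x₀) = 1 := by rw [E.skew, map_neg, h₀]; rfl
    have hb : ∀ t : ZMod 2, t = 0 ∨ t = 1 := by decide
    rcases hb (l (q y₀)) with h2 | h2
    · rcases hb (l (q x₀)) with h3 | h3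
      · refine ⟨x₀, x₀ + y₀, by rw [map_add, E.alt, zero_add, h₀], ?_⟩
        rw [E.q_add, map_add, map_add, h2, h3]
        simpa using h1
      · exact ⟨y₀, x₀, h1, h3⟩
    · exact ⟨x₀, y₀, h₀, h2⟩
  let N : V →ₗ[ZMod 2] V := (l ∘ₗ ω.flip y).smulRight y
  have hN : ∀ v, N v = l (ω v y) • y := fun v => rfl
  have hNN : ∀ v, N (N v) = 0 := by intro v; simp [hN, E.alt]
  let γ : V ≃ₗ[ZMod 2] V := LinearEquiv.ofLinearMap (LinearMap.id + N) (LinearMap.id - N)
    (by ext v; simp [hNN]) (by ext v; simp [hNN])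
  have hγ : ∀ v, γ v = v + l (ω v y) • y := fun v => rfl
  have := (E.stab_of_allCP inj_of_field hG γ (LinearEquiv.refl _ _) ⟨fun u v => ?_, fun v => ?_⟩).1 x
  · rw [hγ, hxy, one_smul, add_eq_left] at this
    rw [this] at hxy
    simp at hxy
  · simp only [hγ, map_add, map_smul, LinearMap.add_apply, LinearMap.smul_apply, E.alt, smul_zero,
      add_zero, LinearEquiv.refl_apply]
    rw [E.skew y v, htop (ω v y), htop (ω u y)]
    generalize l (ω v y) = s
    generalize l (ω u y) = t
    simp only [map_smul, smul_eq_mul]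
    module
  · rw [hγ, E.q_add, E.q_smul, map_smul, LinearMap.smul_apply, E.skew y v, htop (q y), hy,
      one_smul, LinearEquiv.refl_apply]
    conv_lhs => rw [htop (-ω v y), map_neg]
    generalize l (ω v y) = s
    have : s + s * s = 0 := by revert s; decide
    simp [smul_smul, add_assoc, ← add_smul, this]

/-- If the top layer of the commutator subgroup is cyclic there is a non-central automorphism. -/
theorem not_allCP_of_top {p a m : ℕ} [hp : Fact p.Prime] (hm : p ^ (a + 1) = m) {G V W : Type}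
    [Group G] [Finite G] [AddCommGroup V] [Module (ZMod m) V] [AddCommGroup W]
    [Module (ZMod m) W] {ω : V →ₗ[ZMod m] V →ₗ[ZMod m] W} {q : V → W} (E : Ext m G V W ω q)
    (hs : ∀ S : AddSubgroup W, (∀ u v, ω u v ∈ S) → ∀ w, w ∈ S)
    (l : W →ₗ[ZMod m] ZMod m) (z : W) (hz : l z = 1)
    (htop : ∀ w, l w = 0 → p ^ a • w = 0) : ¬ AllClassPreserving G := by
  intro hG
  have H : Chain (ZMod m) p a := hm ▸ chain_zmod p a
  have : NeZero m := ⟨hm ▸ pow_ne_zero _ hp.out.ne_zero⟩
  have htop' : ∀ w, p ^ a • w = (l w * p ^ a) • z := by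
    intro w
    have := htop (w - l w • z) (by simp [hz])
    rw [smul_sub, sub_eq_zero] at this
    rw [this, mul_comm, mul_smul, ← Nat.cast_pow, Nat.cast_smul_eq_nsmul]
  obtain ⟨x₀, y₀, h₀⟩ : ∃ x y, IsUnit (l (ω x y)) := by
    by_contra h
    push Not at h
    have := hs (Submodule.comap l (Ideal.span {(p : ZMod m)})).toAddSubgroup
      (fun u v => Ideal.mem_span_singleton.2 (H.dvd_of_not_unit (h u v))) z
    have : (p : ZMod m) ∣ l z := Ideal.mem_span_singleton.1 this
    exact H.not_unit this (hz ▸ isUnit_one)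
  by_cases h2 : m = 2
  · subst h2
    have ha : a = 0 := by
      by_contra ha
      have h1 := Nat.pow_le_pow_left hp.out.two_le (a + 1)
      have h3 : 2 ^ 2 ≤ 2 ^ (a + 1) := Nat.pow_le_pow_right two_pos (by omega)
      omega
    subst ha
    refine not_allCP_two E l z (fun w => by simpa using htop' w) (x₀ := x₀) (y₀ := y₀) ?_ hG
    revert h₀
    generalize l (ω x₀ y₀) = t
    revert t
    decide
  obtain ⟨s, hs2, hκ⟩ : ∃ s : ZMod m, 2 * s = -p ^ a ∧ (p : ZMod m) ∣ (m.choose 2 : ℕ) := by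
    by_cases hp2 : p = 2
    · subst hp2
      obtain ⟨a, rfl⟩ : ∃ a', a = a' + 1 := by
        rcases a with _ | a
        · exact absurd hm.symm h2
        · exact ⟨a, rfl⟩
      refine ⟨-2 ^ a, by push_cast; ring, Nat.cast_dvd_cast ?_⟩
      rw [Nat.choose_two_right, ← hm, pow_succ' 2 (a + 1), mul_assoc,
        Nat.mul_div_cancel_left _ two_pos]
      exact (dvd_pow_self 2 (by omega)).mul_right _
    · have hodd : Odd m := hm ▸ (hp.out.odd_of_ne_two hp2).pow
      obtain ⟨k, hk⟩ := hodd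
      have h1 : ((2 * k + 1 : ℕ) : ZMod m) = 0 := by rw [← hk, ZMod.natCast_self]
      push_cast at h1
      refine ⟨k * p ^ a, by linear_combination (p : ZMod m) ^ a * h1, Nat.cast_dvd_cast ?_⟩
      exact (hm ▸ dvd_pow_self p (by omega)).trans (dvd_choose_two ⟨k, hk⟩)
  obtain ⟨x, y, hxy, k, hk⟩ : ∃ x y, IsUnit (l (ω x y)) ∧ (p : ZMod m) ∣ l (q y) := by
    rcases H.unit_or (l (q y₀)) with h | h
    · obtain ⟨c, hc⟩ := h.exists_left_inv
      refine ⟨y₀, x₀ + (-(l (q x₀) * c)) • y₀, ?_, ?_⟩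
      · rw [map_add, map_smul, E.alt, smul_zero, add_zero, E.skew, map_neg]
        exact h₀.neg
      · rw [E.q_add, E.q_smul, map_add, map_add, map_smul, smul_eq_mul, neg_mul, mul_assoc, hc,
          mul_one, add_neg_cancel, zero_add, ← Nat.cast_smul_eq_nsmul (ZMod m),
          map_smul, smul_eq_mul]
        exact hκ.mul_right _
    · exact ⟨x₀, y₀, h₀, h⟩
  obtain ⟨y', rfl⟩ := E.ν_surj y
  obtain ⟨v, hv1, hv2⟩ : ∃ v : G, E.ν v = p ^ a • E.ν y' ∧ v ^ m = 1 := by
    refine ⟨y' ^ (p ^ a) * E.ι (-(k • z)), by rw [E.ν_mul, E.ν_ι, add_zero, E.ν_pow], ?_⟩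
    have hcomm : Commute (y' ^ (p ^ a)) (E.ι (-(k • z))) := (E.central _ _).symm
    have e1 : ∀ g : G, g ^ m = (g ^ p) ^ p ^ a := fun g => by rw [← pow_mul, ← pow_succ', hm]
    have e2 : (y' ^ p ^ a) ^ p = y' ^ m := by rw [← pow_mul, ← pow_succ, hm]
    rw [e1, hcomm.mul_pow, e2, E.pow, ← E.ι_nsmul, ← E.ι_add, ← E.ι_nsmul, htop, E.ι_zero]
    rw [map_add, map_nsmul, map_neg, map_smul, hz, hk]
    simp
  let β : G → ZMod m := fun g => l (ω (E.ν g) (E.ν y'))
  have βmul : ∀ g h, β (g * h) = β g + β h := by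
    intro g h; simp [β, E.ν_mul]
  let φ : G →* G := MonoidHom.mk' (fun g => g * v ^ (β g).val * E.ι ((s * β g ^ 2) • z)) (by
    intro g h
    have h1 : v ^ (β g).val * h = E.ι ((-(β g * β h * p ^ a)) • z) * (h * v ^ (β g).val) := by
      rw [E.comm, E.ν_pow, hv1, map_nsmul, map_nsmul, LinearMap.smul_apply, LinearMap.smul_apply,
        htop', E.skew, map_neg, ← Nat.cast_smul_eq_nsmul (ZMod m),
        ZMod.natCast_zmod_val, smul_smul]
      congr 3
      simp only [β]
      ring
    rw [βmul, ZMod.val_add, ← pow_eq_pow_mod _ hv2, pow_add]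
    have h3 : s * (β g + β h) ^ 2 = s * β g ^ 2 + (-(β g * β h * p ^ a) + s * β h ^ 2) := by
      linear_combination β g * β h * hs2
    rw [h3, add_smul, add_smul, E.ι_add, E.ι_add]
    simp only [mul_assoc]
    congr 1
    rw [E.central _ (h * _)]
    simp only [mul_assoc]
    rw [← mul_assoc (v ^ (β g).val) h, h1, E.central _ (h * _)]
    simp only [mul_assoc]
    congr 2
    rw [E.central _ (v ^ (β h).val * _)]
    simp only [mul_assoc]
    congr 1
    simp only [← E.ι_add]
    congr 1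
    abel)
  have hνφ : ∀ g, E.ν (φ g) = E.ν g + (β g).val • p ^ a • E.ν y' := by
    intro g
    change E.ν (g * v ^ (β g).val * E.ι _) = _
    rw [E.ν_mul, E.ν_mul, E.ν_ι, add_zero, E.ν_pow, hv1]
  have hφ : Injective φ := by
    rw [injective_iff_map_eq_one]
    intro g hg
    have h1 : β g = 0 := by
      have := hνφ g
      rw [hg, E.ν_one, eq_comm, add_eq_zero_iff_eq_neg] at this
      simp only [β]
      rw [this]
      simp [E.alt]
    have hg : g * v ^ (β g).val * E.ι ((s * β g ^ 2) • z) = 1 := hg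
    simpa [h1, E.ι_zero] using hg
  obtain ⟨x', rfl⟩ := E.ν_surj x
  obtain ⟨c, hc⟩ := isConj_iff.1
    (hG (MulEquiv.ofBijective φ (Finite.injective_iff_bijective.1 hφ)) x')
  have h1 := hνφ x'
  have hc : c * x' * c⁻¹ = φ x' := hc
  rw [← hc, E.ν_mul, E.ν_mul, E.ν_inv, add_comm (E.ν c), add_neg_cancel_right, left_eq_add] at h1
  have h3 := congrArg (fun t => l (ω (E.ν x') t)) h1
  simp only [map_nsmul, map_zero, nsmul_eq_mul, ZMod.natCast_zmod_val, Nat.cast_pow] at h3
  rw [hxy.mul_right_eq_zero, hxy.mul_left_eq_zero] at h3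
  exact H.ne h3

end Pool.Agent.P.MP_0b48ca_al.G
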