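import Mathlib

/-!
Definitions for the classification of the class-2 finite `p`-groups with two-generated commutator
subgroup all of whose automorphisms are class-preserving.
-/

namespace Pool.Agent.P.MP_0b48ca_al.G

open Polynomial

/-- Every automorphism of `G` sends each element into its own conjugacy class. -/
def AllClassPreserving (G : Type) [Group G] : Prop :=
  ∀ (α : MulAut G) (x : G), IsConj x (α x)

/-- `G` is a finite `p`-group whose commutator subgroup is central and isomorphic to
`C_(p^a) × C_(p^b)`. -/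
def RankTwo (p a b : ℕ) (G : Type) [Group G] : Prop :=
  Finite G ∧ IsPGroup p G ∧ commutator G ≤ Subgroup.center G ∧
    Nonempty (commutator G ≃* Multiplicative (ZMod (p ^ a) × ZMod (p ^ b)))

/-- `coef f g k` is the coefficient of `X ^ (n - 1)` in the remainder of `g * X ^ k` modulo the
monic polynomial `f` of degree `n`; equivalently `g / f = ∑ k, coef f g k * X ^ (-k-1)`. -/
noncomputable def coef {K : Type} [CommRing K] (f g : K[X]) (k : ℕ) : K :=
  ((g * X ^ k) %ₘ f).coeff (f.natDegree - 1)

/-- Generators `x i`, `y i` (`i < n`), `z`, `w`. -/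
inductive Gen (n : ℕ) : Type
  | x (i : Fin n) : Gen n
  | y (i : Fin n) : Gen n
  | z : Gen n
  | w : Gen n

/-- The group commutator `a b a⁻¹ b⁻¹`. -/
def cm {G : Type} [Group G] (a b : G) : G := a * b * a⁻¹ * b⁻¹

/-- The word `z ^ c k * w ^ c (k + 1)`, with `c k = coef f g k`. -/
noncomputable def zw {m : ℕ} (f g : (ZMod m)[X]) (k : ℕ) : FreeGroup (Gen f.natDegree) :=
  FreeGroup.of Gen.z ^ (coef f g k).val * FreeGroup.of Gen.w ^ (coef f g (k + 1)).val

/-- The relators of the group attached to `(f, g)` over `ZMod m`, with `c k = coef f g k` and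
`s k = z ^ c k * w ^ c (k + 1)`: `z`, `w` are central of order dividing `m`, the `x i` commute,
the `y i` commute, `[x i, y j] = s (i + j)`, and
`x i ^ m = w ^ c i * s (2 i) ^ (m choose 2)`, `y i ^ m = z ^ (- c i) * s (2 i) ^ (m choose 2)`
if `m ≠ 2`, while `x i ^ 2 = w ^ c i`, `y i ^ 2 = 1` if `m = 2`. -/
def rels {m : ℕ} (f g : (ZMod m)[X]) : Set (FreeGroup (Gen f.natDegree)) :=
  {r | (∃ a, r = cm (FreeGroup.of Gen.z) (FreeGroup.of a)) ∨
    (∃ a, r = cm (FreeGroup.of Gen.w) (FreeGroup.of a)) ∨
    r = FreeGroup.of Gen.z ^ m ∨ r = FreeGroup.of Gen.w ^ m ∨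
    (∃ i j, r = cm (FreeGroup.of (Gen.x i)) (FreeGroup.of (Gen.x j))) ∨
    (∃ i j, r = cm (FreeGroup.of (Gen.y i)) (FreeGroup.of (Gen.y j))) ∨
    (∃ i j : Fin f.natDegree,
      r = cm (FreeGroup.of (Gen.x i)) (FreeGroup.of (Gen.y j)) * (zw f g (i + j))⁻¹) ∨
    (∃ i : Fin f.natDegree, r = FreeGroup.of (Gen.x i) ^ m *
      (FreeGroup.of Gen.w ^ (coef f g i).val *
        zw f g (2 * i) ^ (if m = 2 then 0 else m.choose 2))⁻¹) ∨
    (∃ i : Fin f.natDegree, r = FreeGroup.of (Gen.y i) ^ m *
      (if m = 2 then 1 else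
        (FreeGroup.of Gen.z ^ (coef f g i).val)⁻¹ * zw f g (2 * i) ^ m.choose 2)⁻¹)}

/-- The group given by the generators `Gen n` and the relators `rels f g`. -/
abbrev Grp {m : ℕ} (f g : (ZMod m)[X]) : Type := PresentedGroup (rels f g)

/-- `G` is a quotient of `Grp f g` whose centre equals its commutator subgroup. -/
def Models {m : ℕ} (f g : (ZMod m)[X]) (G : Type) [Group G] : Prop :=
  (∃ φ : Grp f g →* G, Function.Surjective φ) ∧ Subgroup.center G = commutator G

/-- The ideal of the polynomials `r` for which `r * g / f` is a polynomial. -/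
def den {K : Type} [CommRing K] (f g : K[X]) : Ideal K[X] where
  carrier := {r | f ∣ r * g}
  add_mem' := fun ha hb => by
    simp only [Set.mem_ofPred_eq, add_mul] at *
    exact dvd_add ha hb
  zero_mem' := by simp
  smul_mem' := fun a b hb => by
    simp only [Set.mem_ofPred_eq, smul_eq_mul, mul_assoc] at *
    exact hb.mul_left a

/-- The substitution `(a + b X) ^ n * f ((c + d X) / (a + b X))`: the action of the matrix
with rows `(a, b)`, `(c, d)` on the binary form of degree `n` attached to `f`. -/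
noncomputable def mob {K : Type} [CommRing K] (a b c d : K) (n : ℕ) (f : K[X]) : K[X] :=
  ∑ i ∈ Finset.range (n + 1), C (f.coeff i) * (C c + C d * X) ^ i * (C a + C b * X) ^ (n - i)

/-- Admissible parameters over `ZMod m`: `f` monic with only unit values, `g` of smaller degree
with a unit coefficient; for `m = 2`, `f` is squarefree and `g = 1`. -/
def Admissible {m : ℕ} (f g : (ZMod m)[X]) : Prop :=
  f.Monic ∧ (∀ a, IsUnit (f.eval a)) ∧ g.degree < f.degree ∧ (∃ i, IsUnit (g.coeff i)) ∧
    (m = 2 → Squarefree f ∧ g = 1)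

/-- The matrix with rows `(a, b)`, `(c, d)` carries `(f', g')` to `(f, g)`: for `m ≠ 2` the degree
`-1` homogeneous rational functions `G' / F'` and `G / F` correspond; for `m = 2` the forms `F'`
and `F` correspond. -/
def Related {m : ℕ} (a b c d : ZMod m) (f g f' g' : (ZMod m)[X]) : Prop :=
  if m = 2 then mob a b c d f'.natDegree f' = f
  else mob a b c d (f'.natDegree - 1) g' * f = g * mob a b c d f'.natDegree f'

/-- The stabiliser of `(f, g)` in `GL₂(ZMod m)` is trivial. -/
def Rigid {m : ℕ} (f g : (ZMod m)[X]) : Prop :=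
  ∀ a b c d : ZMod m, IsUnit (a * d - b * c) → Related a b c d f g f g →
    a = 1 ∧ b = 0 ∧ c = 0 ∧ d = 1

end Pool.Agent.P.MP_0b48ca_al.G
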