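import Pool.Agent.P.MP_0b48ca_al.G.Odd2

/-! Pairs of quadratic forms over the field with two elements: the quadratic map `A`. -/

namespace Pool.Agent.P.MP_0b48ca_al.G

open Polynomial Function

theorem H2 : Chain (ZMod 2) ((2 : ℕ) : ZMod 2) 0 := chain_zmod 2 0

lemma two_poly : (2 : (ZMod 2)[X]) = 0 := CharTwo.two_eq_zero

lemma even_odd (h : (ZMod 2)[X]) : ∃ b₁ b₂ : (ZMod 2)[X], h = b₂ ^ 2 + X * b₁ ^ 2 := by
  induction h using Polynomial.induction_on' with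
  | add r s h1 h2 =>
    obtain ⟨a, b, rfl⟩ := h1
    obtain ⟨c, d, rfl⟩ := h2
    exact ⟨a + c, b + d, by linear_combination (-(b * d) - X * a * c) * two_poly⟩
  | monomial k a =>
    have ha : C a = C a ^ 2 := by
      rw [← map_pow]; congr 1; revert a; decide
    obtain ⟨j, rfl | rfl⟩ := Nat.even_or_odd' k
    · refine ⟨0, C a * X ^ j, ?_⟩
      rw [← C_mul_X_pow_eq_monomial, mul_pow, ← ha]; ring
    · refine ⟨C a * X ^ j, 0, ?_⟩
      rw [← C_mul_X_pow_eq_monomial, mul_pow, ← ha]; ring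

lemma coeff_of_cong {f : (ZMod 2)[X]} (hf : f.Monic) (h0 : 0 < f.natDegree)
    {h b₁ b₂ : (ZMod 2)[X]} (hd : f ^ 2 ∣ h * f - (b₂ ^ 2 + X * b₁ ^ 2)) :
    tp hf h = tp hf b₁ := by
  rw [tp, tp, tau_mk, tau_mk]
  have d0 := degree_modByMonic_lt h hf
  have d1 := degree_modByMonic_lt b₁ hf
  have d2 := degree_modByMonic_lt b₂ hf
  have e0 := modByMonic_add_div h f
  have e1 := modByMonic_add_div b₁ f
  have e2 := modByMonic_add_div b₂ f
  generalize h %ₘ f = ρ at *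
  generalize b₁ %ₘ f = ρ₁ at *
  generalize b₂ %ₘ f = ρ₂ at *
  generalize h /ₘ f = q at *
  generalize b₁ /ₘ f = q₁ at *
  generalize b₂ /ₘ f = q₂ at *
  have hd' : f ^ 2 ∣ ρ * f - (ρ₂ ^ 2 + X * ρ₁ ^ 2) := by
    obtain ⟨k, hk⟩ := hd
    refine ⟨k - q + q₂ ^ 2 + X * q₁ ^ 2, ?_⟩
    subst e0 e1 e2
    linear_combination hk + (ρ₂ * f * q₂ + X * ρ₁ * f * q₁) * two_poly
  obtain ⟨m, hm⟩ : ∃ m, f.natDegree = m + 1 := ⟨f.natDegree - 1, by omega⟩
  have nat : ∀ r : (ZMod 2)[X], r.degree < f.degree → r.natDegree ≤ m := by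
    intro r hr
    rcases eq_or_ne r 0 with rfl | h
    · simp
    · have := natDegree_lt_natDegree h hr
      omega
  have n0 := nat _ d0
  have n1 := nat _ d1
  have n2 := nat _ d2
  have hz : ρ * f - (ρ₂ ^ 2 + X * ρ₁ ^ 2) = 0 := by
    apply eq_zero_of_dvd_of_natDegree_lt hd'
    rw [hf.natDegree_pow, hm]
    have a1 : (ρ * f).natDegree ≤ m + (m + 1) := natDegree_mul_le.trans (by omega)
    have a2 : (ρ₂ ^ 2).natDegree ≤ 2 * m := natDegree_pow_le_of_le 2 n2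
    have a3 : (X * ρ₁ ^ 2).natDegree ≤ 1 + 2 * m :=
      natDegree_mul_le.trans (add_le_add natDegree_X_le (natDegree_pow_le_of_le 2 n1))
    have a4 := natDegree_add_le (ρ₂ ^ 2) (X * ρ₁ ^ 2)
    have a5 := natDegree_sub_le (ρ * f) (ρ₂ ^ 2 + X * ρ₁ ^ 2)
    omega
  have hc := congrArg (coeff · (m + (m + 1))) (sub_eq_zero.1 hz)
  rw [coeff_mul_add_eq_of_natDegree_le n0 hm.le, ← hm, hf.coeff_natDegree, mul_one, hm, coeff_add,
    coeff_eq_zero_of_natDegree_lt ((natDegree_pow_le_of_le 2 n2).trans_lt (by omega)), zero_add,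
    ← add_assoc, coeff_X_mul, sq, coeff_mul_add_eq_of_natDegree_le n1 n1] at hc
  rw [hm, Nat.add_sub_cancel, hc]
  generalize ρ₁.coeff m = a
  revert a
  decide

lemma cartier {f : (ZMod 2)[X]} (hf : f.Monic) (h0 : 0 < f.natDegree)
    {r b₁ b₂ : (ZMod 2)[X]} (hd : f ^ 2 ∣ r * f - (b₂ ^ 2 + X * b₁ ^ 2)) (s : (ZMod 2)[X]) :
    tp hf (r * s ^ 2) = tp hf (s * b₁) ∧ tp hf (X * (r * s ^ 2)) = tp hf (s * b₂) := by
  obtain ⟨k, hk⟩ := hd
  constructor
  · exact coeff_of_cong hf h0 (b₂ := s * b₂) ⟨s ^ 2 * k, by linear_combination s ^ 2 * hk⟩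
  · exact coeff_of_cong hf h0 (b₂ := X * s * b₁)
      ⟨X * s ^ 2 * k, by linear_combination X * s ^ 2 * hk⟩

lemma exists_sqrt {f : (ZMod 2)[X]} (hf : f ≠ 0) (hs : Squarefree f) (h : (ZMod 2)[X]) :
    ∃ s, f ∣ s ^ 2 - h := by
  have := (AdjoinRoot.powerBasis hf).finite
  have : Finite (AdjoinRoot f) := Module.finite_of_finite (ZMod 2)
  have hi : Injective (fun a : AdjoinRoot f => a ^ 2) := by
    intro a b hab
    obtain ⟨a, rfl⟩ := AdjoinRoot.mk_surjective a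
    obtain ⟨b, rfl⟩ := AdjoinRoot.mk_surjective b
    simp only [← map_pow] at hab
    rw [AdjoinRoot.mk_eq_mk] at *
    apply (hs.dvd_pow_iff_dvd two_ne_zero).1
    have : (a - b) ^ 2 = a ^ 2 - b ^ 2 := by linear_combination (b ^ 2 - a * b) * two_poly
    rwa [this]
  obtain ⟨s, hs⟩ := Finite.injective_iff_surjective.1 hi (AdjoinRoot.mk f h)
  obtain ⟨s, rfl⟩ := AdjoinRoot.mk_surjective s
  simp only [← map_pow] at hs
  exact ⟨s, AdjoinRoot.mk_eq_mk.1 hs⟩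

lemma dvd_of_primes {K : Type} [Field K] {f μ : K[X]} (hs : Squarefree f)
    (h : ∀ P : K[X], Prime P → P ∣ f → P ∣ μ) : f ∣ μ := by
  induction f using UniqueFactorizationMonoid.induction_on_prime with
  | h₁ => exact absurd hs not_squarefree_zero
  | h₂ x hx => exact hx.dvd
  | h₃ a P _ hP ih =>
    exact (IsRelPrime.of_squarefree_mul hs).mul_dvd (h P hP (dvd_mul_right _ _))
      (ih hs.of_mul_right fun Q hQ hQa => h Q hQ (hQa.mul_left _))

variable {V : Type} [AddCommGroup V] [Module (ZMod 2) V]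

/-- a pair of quadratic forms with nondegenerate first polar form -/
structure Quad (ω : V →ₗ[ZMod 2] V →ₗ[ZMod 2] ZMod 2 × ZMod 2) (T : Module.End (ZMod 2) V)
    (q : V → ZMod 2 × ZMod 2) (f : (ZMod 2)[X]) : Prop where
  pen : Pencil ω T
  add : ∀ u v, q (u + v) = q u + q v + ω v u
  monic : f.Monic
  pos : 0 < f.natDegree
  ann : aeval T f = 0
  min : ∀ r, aeval T r = 0 → f ∣ r

namespace Quad
variable {ω : V →ₗ[ZMod 2] V →ₗ[ZMod 2] ZMod 2 × ZMod 2} {T : Module.End (ZMod 2) V}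
  {q : V → ZMod 2 × ZMod 2} {f : (ZMod 2)[X]} (Q : Quad ω T q f)

/-- `o` represents the polynomial-valued pairing of `w` with `v` -/
def Om (v w : V) (o : (ZMod 2)[X]) : Prop :=
  ∀ s, (ω w (aeval T s v)).1 = tp Q.monic (s * o)

/-- `A` represents the value at `v` of the quadratic map to `K[X] / f ^ 2` -/
def HasA (v : V) (A : (ZMod 2)[X]) : Prop :=
  ∃ a₁ a₂ : (ZMod 2)[X], (∀ s, q (aeval T s v) = (tp Q.monic (s * a₁), tp Q.monic (s * a₂))) ∧
    f ^ 2 ∣ A - (a₂ ^ 2 + X * a₁ ^ 2)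

include Q

lemma ann' (v : V) : aeval T f v = 0 := by rw [Q.ann, LinearMap.zero_apply]

lemma q_zero : q 0 = 0 := by
  have := Q.add 0 0
  simpa using this

lemma iso2 (r s : (ZMod 2)[X]) (v : V) : ω (aeval T r v) (aeval T s v) = 0 := by
  apply Prod.ext (Q.pen.iso r s v)
  have := Q.pen.iso (X * r) s v
  rw [map_mul, aeval_X, Module.End.mul_apply, ← Q.pen.snd] at this
  exact this

lemma exists_om (v w : V) : ∃ o, Q.Om v w o := by
  obtain ⟨o, -, ho⟩ := exists_tp H2 Q.monic (LinearMap.fst _ _ _ ∘ₗ ω w ∘ₗ act T v Q.monic)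
  refine ⟨o, fun s => ?_⟩
  rw [← ho, ← act_mk Q.monic (Q.ann' v)]
  rfl

lemma exists_hasA (v : V) : ∃ A, Q.HasA v A := by
  let φ : AdjoinRoot f →+ ZMod 2 × ZMod 2 := AddMonoidHom.mk' (fun a => q (act T v Q.monic a)) (by
    intro a b
    obtain ⟨a, rfl⟩ := AdjoinRoot.mk_surjective a
    obtain ⟨b, rfl⟩ := AdjoinRoot.mk_surjective b
    simp only [map_add, act_mk Q.monic (Q.ann' v)]
    rw [Q.add, Q.iso2, add_zero])
  obtain ⟨a₁, -, h₁⟩ := exists_tp H2 Q.monic (LinearMap.fst _ _ _ ∘ₗ φ.toZModLinearMap 2)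
  obtain ⟨a₂, -, h₂⟩ := exists_tp H2 Q.monic (LinearMap.snd _ _ _ ∘ₗ φ.toZModLinearMap 2)
  refine ⟨_, a₁, a₂, fun s => ?_, by rw [sub_self]; exact dvd_zero _⟩
  rw [← h₁, ← h₂, ← act_mk Q.monic (Q.ann' v)]
  rfl

variable {Q}

lemma Om.symm {v w : V} {o : (ZMod 2)[X]} (h : Q.Om v w o) : Q.Om w v o := by
  intro s
  rw [← Q.pen.adj_aeval, Q.pen.skew, Prod.fst_neg, h, CharTwo.neg_eq]

lemma Om.smul {v w : V} {o : (ZMod 2)[X]} (h : Q.Om v w o) (r : (ZMod 2)[X]) :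
    Q.Om (aeval T r v) w (r * o) := by
  intro s
  rw [← Module.End.mul_apply, ← map_mul, h, mul_assoc]

lemma Om.add {v w : V} {o : (ZMod 2)[X]} (h : Q.Om v w o) (r : (ZMod 2)[X]) :
    Q.Om v (w + aeval T r v) o := by
  intro s
  rw [map_add, LinearMap.add_apply, Prod.fst_add, h, Q.pen.iso, add_zero]

lemma Om.pair {v w : V} {o : (ZMod 2)[X]} (h : Q.Om v w o) (r s : (ZMod 2)[X]) :
    ω (aeval T r w) (aeval T s v) = (tp Q.monic (r * s * o), tp Q.monic (X * (r * s * o))) := by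
  have key : ∀ r, (ω (aeval T r w) (aeval T s v)).1 = tp Q.monic (r * s * o) := by
    intro r
    rw [Q.pen.adj_aeval, ← Module.End.mul_apply, ← map_mul, h]
  apply Prod.ext (key r)
  have := key (X * r)
  rw [map_mul, aeval_X, Module.End.mul_apply, ← Q.pen.snd, mul_assoc, mul_assoc, ← mul_assoc r]
    at this
  exact this

lemma HasA.smul {v : V} {A : (ZMod 2)[X]} (h : Q.HasA v A) (r : (ZMod 2)[X]) :
    Q.HasA (aeval T r v) (r ^ 2 * A) := by
  obtain ⟨a₁, a₂, h1, k, hk⟩ := h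
  refine ⟨r * a₁, r * a₂, fun s => ?_, r ^ 2 * k, by linear_combination r ^ 2 * hk⟩
  rw [← Module.End.mul_apply, ← map_mul, h1, mul_assoc, mul_assoc]

lemma HasA.add {v w : V} {A B o : (ZMod 2)[X]} (h : Q.HasA v A) (h' : Q.HasA w B)
    (ho : Q.Om v w o) : Q.HasA (v + w) (A + B + o * f) := by
  obtain ⟨a₁, a₂, h1, k, hk⟩ := h
  obtain ⟨b₁, b₂, h2, l, hl⟩ := h'
  obtain ⟨c₁, c₂, hc⟩ := even_odd (o * f)
  refine ⟨a₁ + b₁ + c₁, a₂ + b₂ + c₂, fun s => ?_, k + l, ?_⟩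
  · obtain ⟨e1, e2⟩ := cartier Q.monic Q.pos (r := o) (b₁ := c₁) (b₂ := c₂)
      (by rw [hc, sub_self]; exact dvd_zero _) s
    rw [map_add, Q.add, h1, h2, ho.pair, mul_add, mul_add, mul_add, mul_add, tp_add, tp_add,
      tp_add, tp_add, ← e1, ← e2, ← sq, mul_comm o]
    rfl
  · linear_combination hk + hl + hc - (a₂ * b₂ + a₂ * c₂ + b₂ * c₂ +
      X * (a₁ * b₁ + a₁ * c₁ + b₁ * c₁)) * two_poly

lemma HasA.trans (hS : ∀ γ : V ≃ₗ[ZMod 2] V, Compat ω q ω q γ id → ∀ v, γ v = v)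
    {v : V} {A r : (ZMod 2)[X]} (h : Q.HasA v A) (hr : f ^ 2 ∣ r * f - r ^ 2 * A)
    {x : V} {o : (ZMod 2)[X]} (ho : Q.Om v x o) : aeval T (r * o) v = 0 := by
  obtain ⟨a₁, a₂, h1, k, hk⟩ := h
  obtain ⟨l, hl⟩ := hr
  obtain ⟨Ω, e1, e2, e3⟩ := Q.pen.exists_Om H2 Q.monic (Q.ann' v)
  obtain ⟨γ, e4, e5⟩ := Q.pen.transvection Q.monic (Q.ann' v) e1 e2 e3 (AdjoinRoot.mk f r)
  have e6 : ∀ x o, Q.Om v x o → γ x = x + aeval T (r * o) v := by
    intro x o ho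
    have : Ω x = AdjoinRoot.mk f o := tau_ext Q.monic fun s => by
      rw [e1, act_mk Q.monic (Q.ann' v), ho, tp, map_mul]
    rw [e4, this, ← map_mul, act_mk Q.monic (Q.ann' v)]
  have e7 := hS γ ⟨e5, fun y => ?_⟩ x
  · rwa [e6 x o ho, add_eq_left] at e7
  · obtain ⟨o', ho'⟩ := Q.exists_om v y
    obtain ⟨c1, c2⟩ := cartier Q.monic Q.pos (r := r) (b₁ := r * a₁) (b₂ := r * a₂)
      ⟨l + r ^ 2 * k, by linear_combination hl + r ^ 2 * hk⟩ o'
    have e8 := ho'.symm.pair (r * o') 1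
    rw [map_one, Module.End.one_apply, mul_one, mul_assoc, ← sq, c1, c2] at e8
    rw [e6 y o' ho', Q.add, h1, e8, id, add_assoc, add_eq_left, mul_comm r o', mul_assoc,
      mul_assoc]
    apply Prod.ext <;> exact CharTwo.add_self_eq_zero _

lemma HasA.val (hS : ∀ γ : V ≃ₗ[ZMod 2] V, Compat ω q ω q γ id → ∀ v, γ v = v)
    {P f₀ : (ZMod 2)[X]} {e : ℕ} (hP : Prime P) (hf : f = P ^ (e + 1) * f₀)
    {v : V} {A : (ZMod 2)[X]} (h : Q.HasA v A) (hv : aeval T (P ^ e * f₀) v ≠ 0) (hA : P ∣ A) :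
    P ^ (e + 2) ∣ A := by
  by_contra hn
  have hA0 : A ≠ 0 := by rintro rfl; exact hn (dvd_zero _)
  obtain ⟨d, A', h1, rfl⟩ := WfDvdMonoid.max_power_factor hA0 hP.irreducible
  obtain ⟨d, rfl⟩ : ∃ d', d = d' + 1 := by
    rcases d with _ | d
    · simp only [pow_zero, one_mul] at hA
      exact absurd hA h1
    · exact ⟨d, rfl⟩
  obtain ⟨j, rfl⟩ : ∃ j, e = d + j := by
    apply Nat.exists_eq_add_of_le
    by_contra hlt
    exact hn ((pow_dvd_pow P (by omega)).mul_right _)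
  obtain ⟨c, b, hb⟩ : IsCoprime (P ^ (d + 1)) A' :=
    IsCoprime.pow_left (hP.irreducible.coprime_iff_not_dvd.2 h1)
  obtain ⟨x, hx⟩ : ∃ x, (ω x (aeval T (P ^ (d + j) * f₀) v)).1 ≠ 0 := by
    by_contra h0
    push Not at h0
    exact hv (Q.pen.nondeg' _ h0)
  obtain ⟨o, ho⟩ := Q.exists_om v x
  have h2 := h.trans hS (r := P ^ j * f₀ * b) ⟨b * c, by
    rw [hf]
    linear_combination (-(P ^ (d + 1 + 2 * j) * f₀ ^ 2 * b)) * hb⟩ ho
  have h3 : ¬ P ∣ o := by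
    rintro ⟨o, rfl⟩
    apply hx
    rw [ho]
    apply tp_of_dvd
    exact ⟨o, by rw [hf]; ring⟩
  have h4 : ¬ P ∣ b := by
    rintro ⟨b, rfl⟩
    exact hP.not_dvd_one ⟨c * P ^ d + b * A', by linear_combination -hb⟩
  obtain ⟨u, w, huw⟩ : IsCoprime P (b * o) := hP.irreducible.coprime_iff_not_dvd.2
    (fun h => (hP.dvd_or_dvd h).elim h4 h3)
  apply hv
  have : P ^ (d + j) * f₀ = u * f + w * P ^ d * (P ^ j * f₀ * b * o) := by
    rw [hf]
    linear_combination (-(P ^ (d + j) * f₀)) * huw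
  rw [this, map_add, LinearMap.add_apply, map_mul, Module.End.mul_apply, Q.ann', map_mul,
    Module.End.mul_apply, h2]
  simp

lemma Om.ne_zero {P ε : (ZMod 2)[X]} (hf : f = P * ε) {v w : V} {o : (ZMod 2)[X]}
    (h : Q.Om v w o) (ho : ¬ P ∣ o) : aeval T ε v ≠ 0 := by
  intro h0
  apply ho
  have h1 : f ∣ ε * o := tp_nondeg Q.monic fun s => by
    rw [← mul_assoc, ← h, map_mul, Module.End.mul_apply, h0]
    simp
  have hε : ε ≠ 0 := by
    rintro rfl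
    exact Q.monic.ne_zero (by rw [hf, mul_zero])
  rw [hf, mul_comm P] at h1
  exact (mul_dvd_mul_iff_left hε).1 h1

lemma squarefree (hS : ∀ γ : V ≃ₗ[ZMod 2] V, Compat ω q ω q γ id → ∀ v, γ v = v) :
    Squarefree f := by
  intro x hx
  by_contra hxu
  have hf0 := Q.monic.ne_zero
  have hx0 : x ≠ 0 := by
    rintro rfl
    exact hf0 (by simpa using hx)
  obtain ⟨P, hP, hPx⟩ := WfDvdMonoid.exists_irreducible_factor hxu hx0
  have hP2 : P * P ∣ f := (mul_dvd_mul hPx hPx).trans hx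
  obtain ⟨e, f₀, h1, hf⟩ := WfDvdMonoid.max_power_factor hf0 hP
  have hP' := hP.prime
  obtain ⟨e, rfl⟩ : ∃ e', e = e' + 2 := by
    rcases e with _ | _ | e
    · rw [pow_zero, one_mul] at hf
      exact absurd ((dvd_mul_right P P).trans (hf ▸ hP2)) h1
    · rw [hf, zero_add, pow_one] at hP2
      exact absurd ((mul_dvd_mul_iff_left hP.ne_zero).1 hP2) h1
    · exact ⟨e, rfl⟩
  have hf' : f = P * (P ^ (e + 1) * f₀) := by rw [hf]; ring
  have main : ∀ v w o A B, Q.Om v w o → ¬ P ∣ o → Q.HasA v A → Q.HasA w B → P ∣ A := by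
    intro v w o A B ho hPo hA hB
    by_contra hn
    obtain ⟨u, a, hua⟩ := hP.coprime_iff_not_dvd.2 hn
    obtain ⟨s, k, hs⟩ := exists_sqrt hP.ne_zero hP.squarefree (a * B)
    have key : ∀ s : (ZMod 2)[X], P ∣ B + s ^ 2 * A → P ^ 3 ∣ B + s ^ 2 * A + s * o * f := by
      intro s hs
      have h2 := hB.add (hA.smul s) (ho.smul s).symm
      have h3 := h2.val hS (e := e + 1) hP' hf ((ho.add s).symm.ne_zero hf' hPo)
        (dvd_add hs (by rw [hf']; exact (dvd_mul_right _ _).mul_left _))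
      exact (pow_dvd_pow P (by omega)).trans h3
    obtain ⟨k1, h4⟩ := key s ⟨k * A + u * B, by
      linear_combination A * hs - B * hua + (a * A * B) * two_poly⟩
    obtain ⟨k2, h5⟩ := key (s + P) ⟨k * A + u * B + P * A, by
      linear_combination A * hs - B * hua + (a * A * B + s * P * A) * two_poly⟩
    apply hn
    have h6 : P ^ 2 * A = P ^ 2 * (P * (k2 - k1 - o * P ^ e * f₀)) := by
      rw [hf] at h4 h5
      linear_combination h5 - h4 - (s * P * A) * two_poly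
    exact ⟨_, mul_left_cancel₀ (pow_ne_zero 2 hP.ne_zero) h6⟩
  obtain ⟨v, hv⟩ : ∃ v, aeval T (P ^ (e + 1) * f₀) v ≠ 0 := by
    by_contra h0
    push Not at h0
    have h2 := Q.min _ (LinearMap.ext h0)
    have hε : P ^ (e + 1) * f₀ ≠ 0 := right_ne_zero_of_mul (hf' ▸ hf0)
    rw [hf', mul_comm P] at h2
    exact hP'.not_dvd_one ((mul_dvd_mul_iff_left hε).1 (by rwa [mul_one]))
  obtain ⟨w, hw⟩ : ∃ x, (ω x (aeval T (P ^ (e + 1) * f₀) v)).1 ≠ 0 := by
    by_contra h0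
    push Not at h0
    exact hv (Q.pen.nondeg' _ h0)
  obtain ⟨o, ho⟩ := Q.exists_om v w
  have hPo : ¬ P ∣ o := by
    rintro ⟨o, rfl⟩
    apply hw
    rw [ho]
    apply tp_of_dvd
    exact ⟨o, by rw [hf]; ring⟩
  obtain ⟨A, hA⟩ := Q.exists_hasA v
  obtain ⟨B, hB⟩ := Q.exists_hasA w
  have h2 := main v w o A B ho hPo hA hB
  have h3 := main w v o B A ho.symm hPo hB hA
  have h4 := hA.val hS (e := e + 1) hP' hf hv h2
  have h5 := hB.val hS (e := e + 1) hP' hf (ho.symm.ne_zero hf' hPo) h3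
  have h6 := (hA.add hB ho).val hS (e := e + 1) hP' hf (by
      have := (ho.add 1).symm.ne_zero hf' hPo
      rwa [map_one, Module.End.one_apply, add_comm w] at this)
    (dvd_add (dvd_add h2 h3) (by rw [hf']; exact (dvd_mul_right _ _).mul_left _))
  have h7 := (dvd_add_right (dvd_add h4 h5)).1 h6
  rw [hf, pow_succ, mul_left_comm, mul_dvd_mul_iff_left (pow_ne_zero _ hP.ne_zero)] at h7
  exact (hP'.dvd_or_dvd h7).elim hPo h1

end Quad

end Pool.Agent.P.MP_0b48ca_al.G
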