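import Pool.Agent.P.MP_0b48ca_al.G.Even
import Pool.Agent.P.MP_0b48ca_al.G.Model

/-! Normal form of the pairs of quadratic forms over the field with two elements that have no
nontrivial isometry. -/

namespace Pool.Agent.P.MP_0b48ca_al.G

open Polynomial Function

lemma qm_apply {K R : Type} [CommRing K] [CommRing R] [Algebra K R] (t : R) (c : R →ₗ[K] K)
    (v : R × R) : qt t c 0 1 v = (c (v.1 * v.2), c v.1 + c (t * (v.1 * v.2))) := by
  simp [qt, πm_apply, βe_apply]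

theorem even_normal_form {V : Type} [AddCommGroup V] [Module (ZMod 2) V] [Finite V]
    {ω : V →ₗ[ZMod 2] V →ₗ[ZMod 2] ZMod 2 × ZMod 2} (h1 : ∀ v, ω v v = 0) (h2 : Camina ω)
    {q : V → ZMod 2 × ZMod 2} (hq : ∀ u v, q (u + v) = q u + q v + ω v u)
    (hs : ∃ u v, IsUnit (ω u v).1)
    (hS : ∀ γ : V ≃ₗ[ZMod 2] V, Compat ω q ω q γ id → ∀ v, γ v = v) :
    ∃ (f : (ZMod 2)[X]) (h : Adm f 1), Squarefree f ∧
      ∃ Ψ : (((ZMod 2)[X] ⧸ den f 1) × ((ZMod 2)[X] ⧸ den f 1)) ≃ₗ[ZMod 2] V,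
        Compat (ωm (tq f 1) (cq h.monic 1)) (qt (tq f 1) (cq h.monic 1) 0 1) ω q Ψ id := by
  have : Nontrivial V := by
    by_contra hV
    rw [not_nontrivial_iff_subsingleton] at hV
    obtain ⟨u, v, huv⟩ := hs
    rw [Subsingleton.elim u v, h1] at huv
    exact not_isUnit_zero huv
  obtain ⟨T, pen⟩ := exists_pencil H2 h1 h2
  have hint : IsIntegral (ZMod 2) T := Algebra.IsIntegral.isIntegral T
  have hroot : ∀ a, IsUnit ((minpoly (ZMod 2) T).eval a) := by
    intro a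
    rw [isUnit_iff_ne_zero]
    intro h
    obtain ⟨v, hv⟩ := (Module.End.hasEigenvalue_of_isRoot h).exists_hasEigenvector
    exact hv.2 (pen.no_eigen H2 h2 a v hv.apply_eq_smul)
  have Q : Quad ω T q (minpoly (ZMod 2) T) := ⟨pen, hq, minpoly.monic hint,
    minpoly.natDegree_pos hint, minpoly.aeval _ T, fun r hr => minpoly.dvd _ T hr⟩
  generalize minpoly (ZMod 2) T = f at Q hroot
  have hsq := Q.squarefree hS
  have hf0 := Q.monic.ne_zero
  obtain ⟨θ, κ, hθ⟩ := exists_sqrt hf0 hsq X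
  have hθT : ∀ v, aeval T θ (aeval T θ v) = T v := by
    intro v
    have := congrArg (fun r => aeval T r v) hθ
    simp only [map_sub, map_mul, Q.ann, zero_mul, LinearMap.sub_apply, sq, aeval_X,
      Module.End.mul_apply, LinearMap.zero_apply] at this
    exact sub_eq_zero.1 this
  let ℓ : V →+ ZMod 2 := AddMonoidHom.mk' (fun v => (q v).2 - (q (aeval T θ v)).1) (by
    intro u v
    rw [map_add, hq, hq]
    simp only [Prod.fst_add, Prod.snd_add]
    rw [pen.snd, ← pen.adj_aeval, hθT]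
    ring)
  obtain ⟨e₂, he₂⟩ := pen.exists_vec H2 (ℓ.toZModLinearMap 2)
  have he₂ : ∀ v, (q v).2 = (q (aeval T θ v)).1 + (ω v e₂).1 := by
    intro v
    rw [← he₂]
    change _ = _ + ((q v).2 - (q (aeval T θ v)).1)
    ring
  have hK : ∀ v, Q.Om e₂ v 0 → ∀ s : (ZMod 2)[X], q (aeval T s v) = 0 := by
    intro v hv
    obtain ⟨_, a₁, a₂, ha, -⟩ := Q.exists_hasA v
    have hA : Q.HasA v (a₂ ^ 2 + X * a₁ ^ 2) := ⟨a₁, a₂, ha, by rw [sub_self]; exact dvd_zero _⟩
    obtain ⟨δ, hδ⟩ : f ∣ a₂ - θ * a₁ := by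
      apply tp_nondeg Q.monic
      intro s
      have h3 := he₂ (aeval T s v)
      rw [pen.adj_aeval, hv, mul_zero, tp_of_dvd _ (dvd_zero _), add_zero, ← Module.End.mul_apply,
        ← map_mul, ha, ha] at h3
      simp only at h3
      rw [mul_sub, sub_eq_add_neg, tp_add, tp_neg, h3, mul_comm θ s, mul_assoc, add_neg_cancel]
    have hAf : a₂ ^ 2 + X * a₁ ^ 2 = f * (κ * a₁ ^ 2 + f * δ ^ 2) := by
      linear_combination (a₂ + θ * a₁ + f * δ) * hδ + a₁ ^ 2 * hθ +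
        (θ * a₁ * f * δ + X * a₁ ^ 2) * two_poly
    have hμ : f ∣ κ * a₁ ^ 2 + f * δ ^ 2 := by
      apply dvd_of_primes hsq
      rintro P hP ⟨f₀, hf⟩
      have hn : ¬ P ∣ f₀ := by
        intro h
        exact hP.not_isUnit (hsq P (hf ▸ mul_dvd_mul_left P h))
      have h3 : P ^ 2 ∣ a₂ ^ 2 + X * a₁ ^ 2 := by
        by_cases h0 : aeval T f₀ v = 0
        · have hf₀ : f₀ ≠ 0 := right_ne_zero_of_mul (hf ▸ hf0)
          have key : ∀ s, tp Q.monic (s * (f₀ * a₁)) = 0 ∧ tp Q.monic (s * (f₀ * a₂)) = 0 := by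
            intro s
            have := ha (s * f₀)
            rw [map_mul, Module.End.mul_apply, h0, map_zero, Q.q_zero, mul_assoc, mul_assoc,
              eq_comm, Prod.mk_eq_zero] at this
            exact this
          have d1 := tp_nondeg Q.monic fun s => (key s).1
          have d2 := tp_nondeg Q.monic fun s => (key s).2
          rw [hf, mul_comm P, mul_dvd_mul_iff_left hf₀] at d1 d2
          exact dvd_add (pow_dvd_pow_of_dvd d2 2) ((pow_dvd_pow_of_dvd d1 2).mul_left _)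
        · exact hA.val hS (e := 0) (f₀ := f₀) hP (by simpa using hf) (by simpa using h0)
            (by rw [hAf, hf]; exact (dvd_mul_right _ _).mul_right _)
      rw [hAf] at h3
      nth_rewrite 1 [hf] at h3
      rw [sq, mul_assoc, mul_dvd_mul_iff_left hP.ne_zero] at h3
      exact (hP.dvd_or_dvd h3).resolve_left hn
    intro s
    obtain ⟨c1, c2⟩ := cartier Q.monic Q.pos (r := 0) (b₁ := a₁) (b₂ := a₂) (by
      rw [zero_mul, zero_sub, dvd_neg, hAf, sq]
      exact mul_dvd_mul_left f hμ) s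
    rw [ha, ← c1, ← c2, zero_mul, mul_zero, tp_of_dvd _ (dvd_zero _)]
    rfl
  have hK0 : ∀ v, Q.Om e₂ v 0 → q v = 0 := fun v hv => by simpa using hK v hv 1
  have hKK : ∀ v w, Q.Om e₂ v 0 → Q.Om e₂ w 0 → ω v w = 0 := by
    intro v w hv hw
    have : Q.Om e₂ (w + v) 0 := by
      intro s
      rw [map_add, LinearMap.add_apply, Prod.fst_add, hv, hw, ← tp_add, ← mul_add, add_zero]
    have h3 := hq w v
    rwa [hK0 _ this, hK0 _ hv, hK0 _ hw, zero_add, zero_add, eq_comm] at h3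
  have hR : ∀ r : (ZMod 2)[X], Q.Om e₂ (aeval T r e₂) 0 := by
    intro r s
    rw [pen.iso, mul_zero, tp_of_dvd _ (dvd_zero _)]
  have hann : ∀ r : (ZMod 2)[X], aeval T r e₂ = 0 → f ∣ r := by
    intro r hr
    have h3 : ∀ x, Q.Om e₂ (aeval T r x) 0 := by
      intro x s
      rw [pen.adj_aeval, ← Module.End.mul_apply, ← map_mul, mul_comm, map_mul,
        Module.End.mul_apply, hr, map_zero, map_zero, mul_zero, tp_of_dvd _ (dvd_zero _)]
      rfl
    apply (hsq.dvd_pow_iff_dvd two_ne_zero).1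
    apply Q.min
    ext x
    apply pen.nondeg
    intro y
    rw [sq, map_mul, Module.End.mul_apply, pen.adj_aeval, hKK _ _ (h3 x) (h3 y)]
    rfl
  obtain ⟨e', he'⟩ : ∃ e', Q.Om e₂ e' 1 := by
    obtain ⟨Ω, e1, -, -⟩ := pen.exists_Om H2 Q.monic (Q.ann' e₂)
    have : LinearMap.range Ω = ⊤ := by
      by_contra hne
      obtain ⟨φ, hφ0, hφ⟩ := Submodule.exists_le_ker_of_lt_top _ (lt_top_iff_ne_top.2 hne)
      obtain ⟨g, -, hg⟩ := exists_tp H2 Q.monic φ
      apply hφ0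
      have h3 : aeval T g e₂ = 0 := by
        apply pen.nondeg'
        intro x
        obtain ⟨s, hs⟩ := AdjoinRoot.mk_surjective (Ω x)
        have h4 : φ (Ω x) = 0 := hφ (LinearMap.mem_range_self _ x)
        rw [← act_mk Q.monic (Q.ann' e₂), ← e1, ← hs, ← map_mul, mul_comm, ← h4, ← hs, hg, tp]
      ext1 a
      obtain ⟨a, rfl⟩ := AdjoinRoot.mk_surjective a
      rw [hg, tp_of_dvd _ ((hann g h3).mul_left _), LinearMap.zero_apply]
    obtain ⟨e', he'⟩ := LinearMap.range_eq_top.1 this 1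
    refine ⟨e', fun s => ?_⟩
    rw [← act_mk Q.monic (Q.ann' e₂), ← e1, he', mul_one, mul_one, tp]
  have hproj : ∀ x, ∃ r : (ZMod 2)[X], Q.Om e₂ (x + aeval T r e') 0 := by
    intro x
    obtain ⟨o, ho⟩ := Q.exists_om e₂ x
    refine ⟨o, fun s => ?_⟩
    rw [map_add, LinearMap.add_apply, Prod.fst_add, ho, he'.pair, mul_one, mul_comm o,
      CharTwo.add_self_eq_zero, mul_zero, tp_of_dvd _ (dvd_zero _)]
  have hneg : ∀ x y : V, x + y = 0 → x = y := by
    intro x y h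
    have := psmul (p := 2) y
    rw [two_nsmul] at this
    exact add_right_cancel (h.trans this.symm)
  have hker : ∀ k, Q.Om e₂ k 0 → ∃ o : (ZMod 2)[X], k = aeval T o e₂ := by
    intro k hk
    obtain ⟨o, ho⟩ := Q.exists_om e' k
    refine ⟨o, hneg _ _ (pen.nondeg _ fun y => ?_)⟩
    obtain ⟨r, hr⟩ := hproj y
    have h3 := hKK _ _ (hk.add o) hr
    rw [map_add, Prod.ext_iff, Prod.fst_add] at h3
    have h4 : (ω (k + aeval T o e₂) (aeval T r e')).1 = 0 := by
      rw [map_add, LinearMap.add_apply, Prod.fst_add, ho, he'.symm.pair, mul_one, mul_comm o,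
        CharTwo.add_self_eq_zero]
    rw [h4, add_zero] at h3
    exact h3.1
  obtain ⟨_, a₁, a₂, ha, -⟩ := Q.exists_hasA e'
  have he₁ := he'.add (κ * a₁ ^ 2)
  have hq₁ : ∀ s : (ZMod 2)[X], (q (aeval T s (e' + aeval T (κ * a₁ ^ 2) e₂))).1 = 0 := by
    intro s
    obtain ⟨c1, -⟩ := cartier Q.monic Q.pos (r := κ * a₁ ^ 2) (b₁ := a₁) (b₂ := θ * a₁)
      ⟨0, by linear_combination (-a₁ ^ 2) * hθ - (X * a₁ ^ 2) * two_poly⟩ s
    rw [map_add, hq, ha, hK _ (hR _), ← Module.End.mul_apply, ← map_mul, he'.symm.pair,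
      add_zero, Prod.fst_add, ← c1]
    rw [show s * (κ * a₁ ^ 2) * s * 1 = κ * a₁ ^ 2 * s ^ 2 by ring]
    exact CharTwo.add_self_eq_zero _
  have hgen : ∀ v, ∃ r s : (ZMod 2)[X],
      v = aeval T r (e' + aeval T (κ * a₁ ^ 2) e₂) + aeval T s e₂ := by
    intro v
    obtain ⟨r, hr⟩ := hproj v
    obtain ⟨o, ho⟩ := hker _ hr
    refine ⟨-r, o + r * (κ * a₁ ^ 2), ?_⟩
    rw [map_add, map_add, map_mul _ r, LinearMap.add_apply, ← ho]
    simp only [map_neg, LinearMap.neg_apply, Module.End.mul_apply]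
    abel
  generalize e' + aeval T (κ * a₁ ^ 2) e₂ = e₁ at he₁ hq₁ hgen
  have hq₂ : ∀ s, q (aeval T s e₁) = (0, tp Q.monic s) := by
    intro s
    apply Prod.ext (hq₁ s)
    rw [he₂, ← Module.End.mul_apply, ← map_mul, hq₁, zero_add, pen.adj_aeval, he₁, mul_one]
  have Y := cyc_q Q.monic 1
  obtain ⟨Ψ, hΨ, hω⟩ := pen.normal_form hgen (fun r => by rw [pen.adj_aeval, he₁]) Y
  refine ⟨f, ⟨Q.monic, hroot, ?_, 0, by simp⟩, hsq, Ψ, hω, ?_⟩
  · rw [degree_one]
    exact natDegree_pos_iff_degree_pos.1 Q.pos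
  · rintro ⟨r, s⟩
    obtain ⟨r, rfl⟩ := Y.surj r
    obtain ⟨s, rfl⟩ := Y.surj s
    have e1 := Y.val (X * (r * s))
    rw [map_mul, aeval_X] at e1
    rw [hΨ, hq, hq₂, hK0 _ (hR s), add_zero, he₁.symm.pair, id, qm_apply,
      ← map_mul, e1, Y.val, Y.val, mul_one, mul_one, mul_one, mul_one, mul_comm s r]
    simp

section cyc
variable {R R' : Type} [CommRing R] [Algebra (ZMod 2) R] [CommRing R'] [Algebra (ZMod 2) R']
  {f f' : (ZMod 2)[X]} {hf : f.Monic} {hf' : f'.Monic} {t : R} {φ : R →ₗ[ZMod 2] ZMod 2}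
  {t' : R'} {φ' : R' →ₗ[ZMod 2] ZMod 2}

lemma Cyc.dvd_of_one (Y : Cyc hf 1 t φ) {r : (ZMod 2)[X]} (h : aeval t r = 0) : f ∣ r :=
  tp_nondeg hf fun s => by simpa using (Y.eq_zero_iff r).1 h s

lemma Cyc.card_one (Y : Cyc hf 1 t φ) : Nat.card R = 2 ^ f.natDegree := by
  have hi : Injective Y.red := by
    rw [injective_iff_map_eq_zero]
    intro a ha
    obtain ⟨a, rfl⟩ := AdjoinRoot.mk_surjective a
    exact AdjoinRoot.mk_eq_zero.2 (Y.dvd_of_one ha)
  have := (AdjoinRoot.powerBasis' hf).finite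
  rw [← Nat.card_eq_of_bijective _ ⟨hi, Y.red_surj⟩, Module.natCard_eq_pow_finrank (K := ZMod 2),
    (AdjoinRoot.powerBasis' hf).finrank, Nat.card_zmod]
  rfl

theorem even_stab (Y : Cyc hf 1 t φ) (hs : Squarefree f) (γ : (R × R) ≃ₗ[ZMod 2] (R × R))
    (hc : Compat (ωm t φ) (qt t φ 0 1) (ωm t φ) (qt t φ 0 1) γ (hmat 1 0 0 1)) (v : R × R) :
    γ v = v := by
  have hφ := Y.nondeg
  have hu : (algebraMap (ZMod 2) R 1 + algebraMap (ZMod 2) R 0 * t) * 1 = 1 := by simp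
  have h3 := intertwine γ hφ hu hc.1
  simp only [map_one, map_zero, mul_one, one_mul, zero_add] at h3
  have h3 : ∀ (r : R) x, γ (r • x) = r • γ x := by
    intro r x
    obtain ⟨r, rfl⟩ := Y.surj r
    exact h3 r x
  have hsqrt : ∀ a : R, ∃ s, s ^ 2 = a := by
    intro a
    obtain ⟨a, rfl⟩ := Y.surj a
    obtain ⟨s, k, hs⟩ := exists_sqrt hf.ne_zero hs a
    exact ⟨aeval t s, by rw [← map_pow, ← sub_eq_zero, ← map_sub, hs, map_mul, Y.root, zero_mul]⟩
  obtain ⟨θ, hθ⟩ := hsqrt t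
  obtain ⟨hc1, hc2⟩ := hc
  simp only [hmat_one] at hc1 hc2
  have key : ∀ y : R × R, φ y.1 = (qt t φ 0 1 y).2 - (qt t φ 0 1 (θ • y)).1 := by
    intro y
    rw [qm_apply, qm_apply, ← hθ]
    simp only [Prod.smul_fst, Prod.smul_snd, smul_eq_mul]
    rw [show θ * y.1 * (θ * y.2) = θ ^ 2 * (y.1 * y.2) by ring, add_sub_cancel_right]
  have h4 : ∀ y, φ (γ y).1 = φ y.1 := by
    intro y
    rw [key, key, ← h3, hc2, hc2]
  have h5 : γ (0, 1) = (0, 1) := by
    rw [← sub_eq_zero]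
    apply (pencil_model t hφ).nondeg'
    intro y
    obtain ⟨y, rfl⟩ := γ.surjective y
    rw [map_sub, Prod.fst_sub, hc1, ωm_apply, ωm_apply]
    simp [h4]
  have h6 : γ (1, 0) = (1, 0) := by
    have h7 : (γ (1, 0)).1 = 1 := by
      rw [← sub_eq_zero]
      apply hφ
      intro s
      have := h4 (s • (1, 0))
      rw [h3] at this
      rw [mul_sub, map_sub, sub_eq_zero]
      exact this
    apply Prod.ext h7
    apply hφ
    intro s
    obtain ⟨s, rfl⟩ := hsqrt s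
    have := congrArg Prod.fst (hc2 (s • (1, 0)))
    rw [h3, qm_apply, qm_apply] at this
    simp only [Prod.smul_fst, Prod.smul_snd, smul_eq_mul, h7, mul_zero, map_zero, mul_one] at this
    rw [← this, sq, mul_assoc]
  obtain ⟨r, s⟩ := v
  have : (r, s) = r • ((1, 0) : R × R) + s • (0, 1) := by simp
  rw [this, map_add, h3, h3, h5, h6]

theorem even_related (h : Adm f 1) (Y : Cyc hf 1 t φ) (Y' : Cyc hf' 1 t' φ') {a b c d : ZMod 2}
    (hdet : IsUnit (a * d - b * c)) (γ : (R × R) ≃ₗ[ZMod 2] (R' × R'))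
    (hc : ∀ x y, ωm t' φ' (γ x) (γ y) = hmat a b c d (ωm t φ x y)) :
    mob a b c d f'.natDegree f' = f := by
  obtain ⟨u, hu⟩ := (isUnit_lin H2 (Y.unit h.unit) (H2.unit_row hdet)).exists_right_inv
  have h1 := aeval_eq_zero_of_compat γ Y'.nondeg hu hc Y'.root
  have h2 := aeval_mob a b c d _ _ hu (le_refl f'.natDegree)
  rw [h1, mul_zero] at h2
  have h3 : mob a b c d f'.natDegree f' ≠ 0 := fun h0 =>
    hf'.ne_zero (mob_eq_zero hdet le_rfl h0)
  refine eq_of_monic_of_dvd_of_natDegree_le hf ?_ (Y.dvd_of_one h2) ?_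
  · have := leadingCoeff_ne_zero.2 h3
    rw [Monic]
    revert this
    generalize leadingCoeff (mob a b c d f'.natDegree f') = z
    revert z
    decide
  · have h4 := Nat.card_congr γ.toEquiv
    rw [Nat.card_prod, Nat.card_prod, Y.card_one, Y'.card_one, ← pow_add, ← pow_add,
      Nat.pow_right_inj (by norm_num)] at h4
    rw [show f.natDegree = f'.natDegree by omega]
    exact mob_natDegree_le _ _ _ _ _ _

end cyc

end Pool.Agent.P.MP_0b48ca_al.G
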