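import Pool.Agent.P.MP_0b48ca_al.G.Main

/-! Rigid admissible pairs exist for every prime. -/

namespace Pool.Agent.P.MP_0b48ca_al.G

open Polynomial Function

lemma exists_cubic (p : ℕ) [Fact p.Prime] : ∃ k : ZMod p, ∀ x : ZMod p, x ^ 3 + x ^ 2 + k ≠ 0 := by
  by_contra h
  push Not at h
  have hs : Surjective (fun x : ZMod p => -(x ^ 3 + x ^ 2)) := by
    intro k
    obtain ⟨x, hx⟩ := h k
    exact ⟨x, by linear_combination -hx⟩
  have := Finite.injective_iff_surjective.2 hs (a₁ := 0) (a₂ := -1) (by ring_nf)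
  simp at this

lemma card_quot {K : Type} [CommRing K] {f g : K[X]} (hf : f.Monic) (h : IsCoprime f g) :
    Nat.card (K[X] ⧸ den f g) = Nat.card K ^ f.natDegree := by
  have h1 : den f g = Ideal.span {f} := by
    ext r
    rw [Ideal.mem_span_singleton]
    exact ⟨fun hr => h.dvd_of_dvd_mul_right hr, fun hr => hr.mul_right g⟩
  rw [h1]
  change Nat.card (AdjoinRoot f) = _
  rw [Nat.card_congr (AdjoinRoot.powerBasis' hf).basis.equivFun.toEquiv, Nat.card_fun]
  simp

theorem example_odd {p e m : ℕ} [Fact p.Prime] (hme : p ^ (e + 1) = m) (hp : m ≠ 2) :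
    ∃ f g : (ZMod m)[X], Admissible f g ∧ Rigid f g ∧ IsCoprime f g ∧ f.natDegree = 3 := by
  have H := chain_m hme
  have := H.nontrivial
  obtain ⟨k, hk⟩ : ∃ k : ZMod m, ∀ x : ZMod m, IsUnit (x ^ 3 + x ^ 2 + k) := by
    obtain ⟨k, hk⟩ := exists_cubic p
    obtain ⟨k, rfl⟩ := ZMod.natCast_zmod_surjective k
    refine ⟨k, fun x => (H.unit_or _).resolve_right ?_⟩
    rintro ⟨y, hy⟩
    have h1 := congrArg (ZMod.castHom (hme ▸ dvd_pow_self p e.succ_ne_zero : p ∣ m) (ZMod p)) hy
    rw [map_mul, map_natCast, ZMod.natCast_self, zero_mul, map_add, map_add, map_pow, map_pow,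
      map_natCast] at h1
    exact hk _ h1
  have hk0 : IsUnit k := by simpa using hk 0
  have hdeg : (X ^ 3 + X ^ 2 + C k : (ZMod m)[X]).natDegree = 3 := by compute_degree!
  have hm : (X ^ 3 + X ^ 2 + C k : (ZMod m)[X]).Monic := by monicity!
  refine ⟨X ^ 3 + X ^ 2 + C k, X, ⟨hm, by simpa using hk, ?_, ⟨1, by simp⟩,
    fun h => absurd h hp⟩, ?_, ?_, hdeg⟩
  · rw [degree_eq_natDegree hm.ne_zero, hdeg, degree_X]
    norm_num
  · intro a b c d hdet r
    rw [Related, if_neg hp, hdeg] at r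
    have e1 : mob a b c d (3 - 1) (X : (ZMod m)[X]) =
        C (a * c) + C (a * d + b * c) * X + C (b * d) * X ^ 2 := by
      simp [mob, coeff_X]
      ring
    have e2 : mob a b c d 3 (X ^ 3 + X ^ 2 + C k : (ZMod m)[X]) =
        C (k * a ^ 3 + c ^ 2 * a + c ^ 3) +
        C (3 * k * a ^ 2 * b + 2 * c * d * a + c ^ 2 * b + 3 * c ^ 2 * d) * X +
        C (3 * k * a * b ^ 2 + d ^ 2 * a + 2 * c * d * b + 3 * c * d ^ 2) * X ^ 2 +
        C (k * b ^ 3 + d ^ 2 * b + d ^ 3) * X ^ 3 := by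
      simp [mob, Finset.sum_range_succ, coeff_X_pow, coeff_C, map_ofNat]
      ring
    rw [e1, e2] at r
    generalize hA : k * a ^ 3 + c ^ 2 * a + c ^ 3 = A at r
    generalize hB : 3 * k * a ^ 2 * b + 2 * c * d * a + c ^ 2 * b + 3 * c ^ 2 * d = B at r
    generalize hC : 3 * k * a * b ^ 2 + d ^ 2 * a + 2 * c * d * b + 3 * c * d ^ 2 = D at r
    generalize hD : k * b ^ 3 + d ^ 2 * b + d ^ 3 = E at r
    generalize hu : a * c = u at r
    generalize hv : a * d + b * c = v at r
    generalize hw : b * d = w at r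
    have r' : C (u * k) + C (v * k - A) * X + C (u + w * k - B) * X ^ 2 + C (u + v - D) * X ^ 3 +
        C (v + w - E) * X ^ 4 + C w * X ^ 5 = 0 := by
      simp only [map_sub, map_add, map_mul]
      linear_combination r
    have c0 := congrArg (coeff · 0) r'
    have c1 := congrArg (coeff · 1) r'
    have c2 := congrArg (coeff · 2) r'
    have c3 := congrArg (coeff · 3) r'
    have c4 := congrArg (coeff · 4) r'
    have c5 := congrArg (coeff · 5) r'
    simp only [coeff_add, coeff_C_mul, coeff_X_pow, coeff_X, coeff_C, coeff_zero] at c0 c1 c2 c3 c4 c5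
    norm_num at c0 c1 c2 c3 c4 c5
    subst hA hB hC hD hu hv hw
    rw [hk0.mul_left_eq_zero] at c0
    rcases H.unit_or a with ha | ha
    · obtain rfl : c = 0 := ha.mul_right_eq_zero.1 c0
      have hd : IsUnit d := isUnit_of_mul_isUnit_right (by simpa using hdet)
      obtain rfl : b = 0 := hd.mul_left_eq_zero.1 c5
      obtain rfl : d = 1 := by
        apply (ha.mul hd).mul_left_cancel
        linear_combination -c3
      exact ⟨by linear_combination c4, rfl, rfl, rfl⟩
    · exfalso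
      have hb := (H.unit_row hdet).resolve_left (H.not_unit ha)
      obtain rfl : d = 0 := hb.mul_right_eq_zero.1 c5
      have hc := (H.unit_row' hdet).resolve_right not_isUnit_zero
      obtain rfl : a = 0 := hc.mul_left_eq_zero.1 c0
      exact ((hc.pow 2).mul hb).ne_zero (by linear_combination -c2)
  · obtain ⟨l, hl⟩ := hk0.exists_left_inv
    refine ⟨C l, -(C l * (X ^ 2 + X)), ?_⟩
    have : C l * C k = (1 : (ZMod m)[X]) := by rw [← map_mul, hl, map_one]
    linear_combination this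

theorem example_two :
    ∃ f g : (ZMod 2)[X], Admissible f g ∧ Rigid f g ∧ IsCoprime f g ∧ f.natDegree = 5 := by
  have hdeg : (X ^ 5 + X ^ 2 + 1 : (ZMod 2)[X]).natDegree = 5 := by compute_degree!
  have hm : (X ^ 5 + X ^ 2 + 1 : (ZMod 2)[X]).Monic := by monicity!
  refine ⟨X ^ 5 + X ^ 2 + 1, 1, ⟨hm, ?_, ?_, ⟨0, by simp⟩, fun _ => ⟨?_, rfl⟩⟩,
    ?_, isCoprime_one_right, hdeg⟩
  · intro a
    simp only [eval_add, eval_pow, eval_X, eval_one, isUnit_iff_ne_zero]
    revert a
    decide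
  · rw [degree_eq_natDegree hm.ne_zero, hdeg, degree_one]
    norm_num
  · apply Separable.squarefree
    refine ⟨X ^ 2 + 1, X ^ 3 + X + 1, ?_⟩
    simp only [derivative_add, derivative_X_pow, derivative_one, map_natCast]
    push_cast
    linear_combination (3 * X ^ 7 + 3 * X ^ 5 + 4 * X ^ 4 + 2 * X ^ 2 + X) * two_poly
  · intro a b c d hdet r
    rw [Related, if_pos rfl, hdeg] at r
    rw [isUnit_iff_ne_zero] at hdet
    have e2 : mob a b c d 5 (X ^ 5 + X ^ 2 + 1 : (ZMod 2)[X]) =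
        C (a ^ 5 + c ^ 2 * a ^ 3 + c ^ 5) +
        C (a ^ 4 * b + c ^ 2 * a ^ 2 * b + c ^ 4 * d) * X +
        C (d ^ 2 * a ^ 3 + c ^ 2 * a * b ^ 2) * X ^ 2 +
        C (c ^ 2 * b ^ 3 + d ^ 2 * a ^ 2 * b) * X ^ 3 +
        C (a * b ^ 4 + d ^ 2 * a * b ^ 2 + c * d ^ 4) * X ^ 4 +
        C (b ^ 5 + d ^ 2 * b ^ 3 + d ^ 5) * X ^ 5 := by
      simp only [map_add, map_mul, map_pow]
      simp [mob, Finset.sum_range_succ, coeff_X_pow, coeff_one]
      ring_nf
      simp only [show (3 : (ZMod 2)[X]) = 1 by linear_combination two_poly,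
        show (5 : (ZMod 2)[X]) = 1 by linear_combination 2 * two_poly,
        show (6 : (ZMod 2)[X]) = 0 by linear_combination 3 * two_poly,
        show (10 : (ZMod 2)[X]) = 0 by linear_combination 5 * two_poly, two_poly]
      ring
    rw [e2] at r
    have c1 := congrArg (coeff · 1) r
    have c2 := congrArg (coeff · 2) r
    have c3 := congrArg (coeff · 3) r
    have c4 := congrArg (coeff · 4) r
    simp only [coeff_add, coeff_C_mul, coeff_X_pow, coeff_X, coeff_C, coeff_one] at c1 c2 c3 c4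
    norm_num at c1 c2 c3 c4
    clear r e2
    revert a b c d
    decide

theorem example_all {p e m : ℕ} [Fact p.Prime] (hme : p ^ (e + 1) = m) :
    ∃ f g : (ZMod m)[X], Admissible f g ∧ Rigid f g ∧ IsCoprime f g ∧
      f.natDegree = if m = 2 then 5 else 3 := by
  split_ifs with h
  · subst h
    exact example_two
  · exact example_odd hme h

theorem part_four (p e : ℕ) [Fact p.Prime] :
    ∃ (G : Type) (_ : Group G), RankTwo p (e + 1) (e + 1) G ∧ AllClassPreserving G ∧
      Nat.card G = (p ^ (e + 1)) ^ (if p ^ (e + 1) = 2 then 12 else 8) := by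
  obtain ⟨f, g, h1, h2, h3, h4⟩ := example_all (rfl : p ^ (e + 1) = _)
  obtain ⟨G, _, h5, h6⟩ := part_one h1
  refine ⟨G, _, h5, (part_two h5).2 ⟨f, g, h1, h2, h6⟩, ?_⟩
  rw [part_card h1 h5 h6, card_quot h1.1 h3, h4, Nat.card_zmod]
  split_ifs <;> ring

end Pool.Agent.P.MP_0b48ca_al.G
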