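import Pool.Agent.P.MP_0b48ca_al.G.Defs

/-! Central extensions of an elementary abelian group by an elementary abelian group, in
coordinates; lifting and descending isomorphisms. -/

namespace Pool.Agent.P.MP_0b48ca_al.G

open Function

/-- coordinates on a group `G` that is a central extension of `V` by `W` -/
structure Ext (p : ℕ) (G V W : Type) [Group G] [AddCommGroup V] [Module (ZMod p) V]
    [AddCommGroup W] [Module (ZMod p) W] (ω : V →ₗ[ZMod p] V →ₗ[ZMod p] W) (q : V → W) where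
  ν : G → V
  ι : W → G
  ν_mul : ∀ x y, ν (x * y) = ν x + ν y
  ι_add : ∀ a b, ι (a + b) = ι a * ι b
  ν_surj : Surjective ν
  ι_inj : Injective ι
  ker : ∀ x, ν x = 0 ↔ ∃ w, ι w = x
  central : ∀ w x, ι w * x = x * ι w
  comm : ∀ x y, x * y = ι (ω (ν x) (ν y)) * (y * x)
  pow : ∀ x, x ^ p = ι (q (ν x))

/-- compatibility of a pair of linear maps with the commutator and power maps -/
def Compat {K V W V' W' : Type} [CommRing K] [AddCommGroup V] [Module K V]
    [AddCommGroup W] [Module K W] [AddCommGroup V'] [Module K V']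
    [AddCommGroup W'] [Module K W'] (ω : V →ₗ[K] V →ₗ[K] W) (q : V → W)
    (ω' : V' →ₗ[K] V' →ₗ[K] W') (q' : V' → W') (γ : V → V') (h : W → W') : Prop :=
  (∀ u v, ω' (γ u) (γ v) = h (ω u v)) ∧ ∀ v, q' (γ v) = h (q v)

/-- `W` is an injective module -/
def Inj (K W : Type) [CommRing K] [AddCommGroup W] [Module K W] : Prop :=
  ∀ (Q : Type) [AddCommGroup Q] [Module K Q] (J : W →ₗ[K] Q), Injective J →
    ∃ r : Q →ₗ[K] W, ∀ w, r (J w) = w

lemma inj_of_field {K W : Type} [Field K] [AddCommGroup W] [Module K W] : Inj K W := by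
  intro Q _ _ J hJ
  obtain ⟨r, hr⟩ := LinearMap.exists_leftInverse_of_injective J (LinearMap.ker_eq_bot.2 hJ)
  exact ⟨r, LinearMap.congr_fun hr⟩

lemma exists_retraction {p : ℕ} {Q W : Type} [Group Q] [AddCommGroup W]
    [Module (ZMod p) W] (hW : Inj (ZMod p) W) (hc : ∀ a b : Q, a * b = b * a)
    (hQ : ∀ x : Q, x ^ p = 1) (J : W → Q)
    (hJ : ∀ a b, J (a + b) = J a * J b) (hi : ∀ a, J a = 1 → a = 0) :
    ∃ r : Q → W, (∀ a b, r (a * b) = r a + r b) ∧ ∀ w, r (J w) = w := by
  let : CommGroup Q := { (inferInstance : Group Q) with mul_comm := hc }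
  let : Module (ZMod p) (Additive Q) := AddCommGroup.zmodModule (by
    intro a
    apply Additive.toMul.injective
    rw [toMul_nsmul, hQ, toMul_zero])
  let J' : W →+ Additive Q := AddMonoidHom.mk' (fun w => Additive.ofMul (J w)) (by
      intro a b
      rw [hJ, ofMul_mul])
  have hJ' : Injective J' := by
    rw [injective_iff_map_eq_zero]
    intro w hw
    exact hi w hw
  obtain ⟨r, hr⟩ := hW (Additive Q) (J'.toZModLinearMap p) hJ'
  refine ⟨fun a => r.toAddMonoidHom (Additive.ofMul a), fun a b => ?_, fun w => hr w⟩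
  beta_reduce
  rw [ofMul_mul, map_add]

namespace Ext

variable {p : ℕ} {G V W G' V' W' : Type} [Group G] [AddCommGroup V] [Module (ZMod p) V]
  [AddCommGroup W] [Module (ZMod p) W] {ω : V →ₗ[ZMod p] V →ₗ[ZMod p] W} {q : V → W}
  [Group G'] [AddCommGroup V'] [Module (ZMod p) V']
  [AddCommGroup W'] [Module (ZMod p) W'] {ω' : V' →ₗ[ZMod p] V' →ₗ[ZMod p] W'} {q' : V' → W'}

/-- `ν` as a homomorphism -/
def νh (E : Ext p G V W ω q) : G →* Multiplicative V :=
  MonoidHom.mk' (fun x => Multiplicative.ofAdd (E.ν x)) (by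
    intro x y; rw [E.ν_mul, ofAdd_add])

/-- `ι` as a homomorphism -/
def ιh (E : Ext p G V W ω q) : Multiplicative W →* G :=
  MonoidHom.mk' (fun w => E.ι w.toAdd) (by
    intro x y; rw [toAdd_mul, E.ι_add])

variable (E : Ext p G V W ω q) (E' : Ext p G' V' W' ω' q')

lemma ν_one : E.ν 1 = 0 := by
  have := E.ν_mul 1 1
  rw [one_mul] at this
  exact left_eq_add.mp this

lemma ι_zero : E.ι 0 = 1 := by
  have := E.ι_add 0 0
  rw [add_zero] at this
  exact left_eq_mul.mp this

lemma ν_inv (x : G) : E.ν x⁻¹ = - E.ν x := by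
  have := E.ν_mul x⁻¹ x
  rw [inv_mul_cancel, E.ν_one] at this
  exact eq_neg_of_add_eq_zero_left this.symm

lemma ι_neg (w : W) : E.ι (-w) = (E.ι w)⁻¹ := by
  have := E.ι_add (-w) w
  rw [neg_add_cancel, E.ι_zero] at this
  exact eq_inv_of_mul_eq_one_left this.symm

lemma ν_ι (w : W) : E.ν (E.ι w) = 0 := (E.ker _).2 ⟨w, rfl⟩

lemma ι_nsmul (n : ℕ) (w : W) : E.ι (n • w) = E.ι w ^ n := by
  induction n with
  | zero => simp [E.ι_zero]
  | succ n ih => rw [succ_nsmul, E.ι_add, ih, pow_succ]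

lemma ν_pow (n : ℕ) (x : G) : E.ν (x ^ n) = n • E.ν x := by
  induction n with
  | zero => simp [E.ν_one]
  | succ n ih => rw [pow_succ, E.ν_mul, ih, succ_nsmul]

lemma eq_mul_of_ν_eq {x y : G} (h : E.ν x = E.ν y) : ∃ w, y = x * E.ι w := by
  obtain ⟨w, hw⟩ := (E.ker (x⁻¹ * y)).1 (by rw [E.ν_mul, E.ν_inv, h, neg_add_cancel])
  exact ⟨w, by rw [hw, mul_inv_cancel_left]⟩

include E in
lemma alt (v : V) : ω v v = 0 := by
  obtain ⟨x, rfl⟩ := E.ν_surj v
  have := E.comm x x
  rw [right_eq_mul, ← E.ι_zero] at this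
  exact E.ι_inj this

lemma mul_pow' (x y : G) (n : ℕ) :
    (x * y) ^ n = x ^ n * y ^ n * E.ι (n.choose 2 • ω (E.ν y) (E.ν x)) := by
  induction n with
  | zero => simp [E.ι_zero]
  | succ n ih =>
    have h1 : y ^ n * x = E.ι (n • ω (E.ν y) (E.ν x)) * (x * y ^ n) := by
      rw [E.comm (y ^ n) x, E.ν_pow, map_nsmul, LinearMap.smul_apply]
    have h2 : (n + 1).choose 2 = n.choose 2 + n := by
      rw [Nat.choose_succ_succ' n 1, Nat.choose_one_right, add_comm]
    rw [pow_succ, ih, h2, add_nsmul, E.ι_add, pow_succ, pow_succ]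
    set a := E.ι (n.choose 2 • ω (E.ν y) (E.ν x))
    set b := E.ι (n • ω (E.ν y) (E.ν x))
    have ha : ∀ x, a * x = x * a := E.central _
    have hb : ∀ x, b * x = x * b := E.central _
    calc x ^ n * y ^ n * a * (x * y) = x ^ n * (y ^ n * x) * y * a := by
          rw [mul_assoc (x ^ n * y ^ n), ha]; simp only [mul_assoc]
      _ = x ^ n * x * (y ^ n * y) * (a * b) := by
          rw [h1, hb, ha b]; simp only [mul_assoc]
          rw [← mul_assoc b y a, hb y, mul_assoc]

include E in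
lemma q_add (u v : V) : q (u + v) = q u + q v + p.choose 2 • ω v u := by
  obtain ⟨x, rfl⟩ := E.ν_surj u
  obtain ⟨y, rfl⟩ := E.ν_surj v
  apply E.ι_inj
  rw [← E.ν_mul, ← E.pow, E.mul_pow', E.ι_add, E.ι_add, E.pow, E.pow]

/-- Lifting a compatible pair of linear isomorphisms to a group isomorphism. -/
theorem lift (hW : Inj (ZMod p) W') (γ : V ≃ₗ[ZMod p] V') (h : W ≃ₗ[ZMod p] W')
    (hc : Compat ω q ω' q' γ h) :
    ∃ α : G ≃* G', (∀ x, E'.ν (α x) = γ (E.ν x)) ∧ ∀ w, α (E.ι w) = E'.ι (h w) := by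
  let H : Subgroup (G × G') :=
    { carrier := {z | E'.ν z.2 = γ (E.ν z.1)}
      mul_mem' := by
        intro a b ha hb
        simp only [Set.mem_ofPred_eq, Prod.fst_mul, Prod.snd_mul] at *
        rw [E.ν_mul, E'.ν_mul, map_add, ha, hb]
      one_mem' := by simp [E.ν_one, E'.ν_one]
      inv_mem' := by
        intro a ha
        simp only [Set.mem_ofPred_eq, Prod.fst_inv, Prod.snd_inv] at *
        rw [E.ν_inv, E'.ν_inv, map_neg, ha] }
  have hmem : ∀ w w', (E.ι w, E'.ι w') ∈ H := by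
    intro w w'
    change E'.ν (E'.ι w') = γ (E.ν (E.ι w))
    rw [E.ν_ι, E'.ν_ι, map_zero]
  let j : W → W' → H := fun w w' => ⟨(E.ι w, E'.ι w'), hmem w w'⟩
  have jadd : ∀ a a' b b', j (a + b) (a' + b') = j a a' * j b b' := by
    intro a a' b b'
    apply Subtype.ext
    simp [j, E.ι_add, E'.ι_add]
  have jzero : j 0 0 = 1 := by
    apply Subtype.ext
    simp [j, E.ι_zero, E'.ι_zero]
  have jcen : ∀ a a' z, j a a' * z = z * j a a' := by
    intro a a' z
    apply Subtype.ext
    apply Prod.ext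
    · exact E.central _ _
    · exact E'.central _ _
  let δ : Multiplicative W →* H := MonoidHom.mk' (fun w => j w.toAdd (h w.toAdd)) (by
    intro a b; rw [toAdd_mul, map_add, jadd])
  have hD : δ.range.Normal := ⟨by
    rintro _ ⟨w, rfl⟩ z
    refine ⟨w, ?_⟩
    change j _ _ = z * j _ _ * z⁻¹
    rw [← jcen, mul_inv_cancel_right]⟩
  have hδ : ∀ w, (QuotientGroup.mk (j w (h w)) : H ⧸ δ.range) = 1 := fun w =>
    (QuotientGroup.eq_one_iff _).2 ⟨Multiplicative.ofAdd w, rfl⟩
  obtain ⟨r, rmul, hr⟩ := exists_retraction (p := p) (Q := H ⧸ δ.range) (W := W') hW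
    (by
      intro a b
      obtain ⟨a, rfl⟩ := QuotientGroup.mk_surjective a
      obtain ⟨b, rfl⟩ := QuotientGroup.mk_surjective b
      have : a * b = j (ω (E.ν a.1.1) (E.ν b.1.1)) (h (ω (E.ν a.1.1) (E.ν b.1.1))) * (b * a) := by
        apply Subtype.ext
        apply Prod.ext
        · exact E.comm _ _
        · have ha : E'.ν a.1.2 = γ (E.ν a.1.1) := a.2
          have hb : E'.ν b.1.2 = γ (E.ν b.1.1) := b.2
          rw [← hc.1, ← ha, ← hb]
          exact E'.comm _ _
      rw [← QuotientGroup.mk_mul, this, QuotientGroup.mk_mul, hδ, one_mul,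
        QuotientGroup.mk_mul])
    (by
      intro a
      obtain ⟨a, rfl⟩ := QuotientGroup.mk_surjective a
      rw [← QuotientGroup.mk_pow]
      have : a ^ p = j (q (E.ν a.1.1)) (h (q (E.ν a.1.1))) := by
        apply Subtype.ext
        apply Prod.ext
        · exact E.pow _
        · have ha : E'.ν a.1.2 = γ (E.ν a.1.1) := a.2
          rw [← hc.2, ← ha]
          exact E'.pow _
      rw [this, hδ])
    (fun w' => QuotientGroup.mk (j 0 w'))
    (by
      intro a b
      rw [← QuotientGroup.mk_mul, ← jadd, add_zero])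
    (by
      intro w' hw'
      obtain ⟨w, hw⟩ := (QuotientGroup.eq_one_iff _).1 hw'
      have h1 : E.ι w.toAdd = E.ι 0 := congrArg (fun z : H => z.1.1) hw
      have h2 : E'.ι (h w.toAdd) = E'.ι w' := congrArg (fun z : H => z.1.2) hw
      rw [← E'.ι_inj h2, E.ι_inj h1, map_zero])
  let ρ : H → W' := fun z => r (QuotientGroup.mk z)
  have ρmul : ∀ a b, ρ (a * b) = ρ a + ρ b := by
    intro a b
    simp only [ρ]
    rw [QuotientGroup.mk_mul, rmul]
  have ρj : ∀ w w', ρ (j w w') = w' - h w := by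
    intro w w'
    have : j w w' = j w (h w) * j 0 (w' - h w) := by rw [← jadd]; simp
    simp only [ρ]
    rw [this, QuotientGroup.mk_mul, hδ, one_mul]
    exact hr (w' - h w)
  have ρone : ρ 1 = 0 := by rw [← jzero, ρj]; simp
  let K : Subgroup (G × G') :=
    { carrier := {z | ∃ hz : z ∈ H, ρ ⟨z, hz⟩ = 0}
      mul_mem' := by
        rintro a b ⟨ha, ha'⟩ ⟨hb, hb'⟩
        refine ⟨H.mul_mem ha hb, ?_⟩
        have := ρmul ⟨a, ha⟩ ⟨b, hb⟩
        rw [ha', hb', add_zero] at this
        exact this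
      one_mem' := ⟨H.one_mem, ρone⟩
      inv_mem' := by
        rintro a ⟨ha, ha'⟩
        refine ⟨H.inv_mem ha, ?_⟩
        have := ρmul ⟨a, ha⟩⁻¹ ⟨a, ha⟩
        rw [inv_mul_cancel, ρone, ha', add_zero] at this
        exact this.symm }
  have hK1 : Bijective (Prod.fst ∘ K.subtype) := by
    constructor
    · have : Injective ((MonoidHom.fst G G').comp K.subtype) := by
        rw [injective_iff_map_eq_one]
        rintro ⟨⟨x, y⟩, hz, hz'⟩ hx
        have hx : x = 1 := hx
        subst hx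
        have hy : E'.ν y = γ (E.ν 1) := hz
        rw [E.ν_one, map_zero] at hy
        obtain ⟨w', rfl⟩ := (E'.ker _).1 hy
        have := ρj 0 w'
        simp only [j, E.ι_zero, map_zero, sub_zero] at this
        rw [hz'] at this
        apply Subtype.ext
        simp [← this, E'.ι_zero]
      exact this
    · intro x
      obtain ⟨y, hy⟩ := E'.ν_surj (γ (E.ν x))
      have hz : (x, y) ∈ H := hy
      let z : H := ⟨(x, y), hz⟩ * j 0 (-ρ ⟨(x, y), hz⟩)
      refine ⟨⟨z.1, z.2, ?_⟩, ?_⟩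
      · change ρ z = 0
        rw [ρmul, ρj]; simp
      · change x * E.ι 0 = x
        rw [E.ι_zero, mul_one]
  have hK2 : Bijective (Prod.snd ∘ K.subtype) := by
    constructor
    · have : Injective ((MonoidHom.snd G G').comp K.subtype) := by
        rw [injective_iff_map_eq_one]
        rintro ⟨⟨x, y⟩, hz, hz'⟩ hy
        have hy : y = 1 := hy
        subst hy
        have hx : E'.ν 1 = γ (E.ν x) := hz
        rw [E'.ν_one, eq_comm, map_eq_zero_iff _ γ.injective] at hx
        obtain ⟨w, rfl⟩ := (E.ker _).1 hx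
        have := ρj w 0
        simp only [j, E'.ι_zero, zero_sub] at this
        rw [hz', eq_comm, neg_eq_zero, map_eq_zero_iff _ h.injective] at this
        apply Subtype.ext
        simp [this, E.ι_zero]
      exact this
    · intro y
      obtain ⟨x, hx⟩ := E.ν_surj (γ.symm (E'.ν y))
      have hz : (x, y) ∈ H := by
        change E'.ν y = γ (E.ν x)
        rw [hx, LinearEquiv.apply_symm_apply]
      let z : H := ⟨(x, y), hz⟩ * j (h.symm (ρ ⟨(x, y), hz⟩)) 0
      refine ⟨⟨z.1, z.2, ?_⟩, ?_⟩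
      · change ρ z = 0
        rw [ρmul, ρj]; simp
      · change y * E'.ι 0 = y
        rw [E'.ι_zero, mul_one]
  obtain ⟨α, hα⟩ := Subgroup.exists_mulEquiv_eq_graph hK1 hK2
  refine ⟨α, fun x => ?_, fun w => ?_⟩
  · have : (x, α x) ∈ K := by rw [hα]; rfl
    exact this.1
  · have : (E.ι w, E'.ι (h w)) ∈ K := ⟨hmem _ _, by
      have := ρj w (h w)
      rw [sub_self] at this
      exact this⟩
    rw [hα] at this
    exact this

end Ext

end Pool.Agent.P.MP_0b48ca_al.G
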