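import Pool.Agent.P.MP_0b48ca_al.G.Ext

/-! Class-preserving automorphisms in coordinates. -/

namespace Pool.Agent.P.MP_0b48ca_al.G

open Function

/-- every central automorphism is class-preserving, in coordinates -/
def Camina {K V W : Type} [CommRing K] [AddCommGroup V] [Module K V]
    [AddCommGroup W] [Module K W] (ω : V →ₗ[K] V →ₗ[K] W) : Prop :=
  ∀ v (ℓ : V →ₗ[K] W), ∃ u, ω v u = ℓ v

/-- the stabiliser of `(ω, q)` is trivial -/
def Stab {K V W : Type} [CommRing K] [AddCommGroup V] [Module K V]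
    [AddCommGroup W] [Module K W] (ω : V →ₗ[K] V →ₗ[K] W) (q : V → W) : Prop :=
  ∀ (γ : V ≃ₗ[K] V) (h : W ≃ₗ[K] W), Compat ω q ω q γ h → (∀ v, γ v = v) ∧ ∀ w, h w = w

namespace Ext

variable {p : ℕ} {G V W G' V' W' : Type} [Group G] [AddCommGroup V] [Module (ZMod p) V]
  [AddCommGroup W] [Module (ZMod p) W] {ω : V →ₗ[ZMod p] V →ₗ[ZMod p] W} {q : V → W}
  [Group G'] [AddCommGroup V'] [Module (ZMod p) V']
  [AddCommGroup W'] [Module (ZMod p) W'] {ω' : V' →ₗ[ZMod p] V' →ₗ[ZMod p] W'} {q' : V' → W'}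

variable (E : Ext p G V W ω q) (E' : Ext p G' V' W' ω' q')

lemma central_iff (hω : ∀ v, ω v = 0 → v = 0) (x : G) :
    (∀ y, x * y = y * x) ↔ E.ν x = 0 := by
  constructor
  · intro hx
    apply hω
    ext v
    obtain ⟨y, rfl⟩ := E.ν_surj v
    have := E.comm x y
    rw [hx y, right_eq_mul, ← E.ι_zero] at this
    exact E.ι_inj this
  · intro hx y
    obtain ⟨w, rfl⟩ := (E.ker _).1 hx
    exact E.central _ _

theorem descend (hω : ∀ v, ω v = 0 → v = 0) (hω' : ∀ v, ω' v = 0 → v = 0) (α : G ≃* G') :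
    ∃ (γ : V ≃ₗ[ZMod p] V') (h : W ≃ₗ[ZMod p] W'), Compat ω q ω' q' γ h ∧
      (∀ x, E'.ν (α x) = γ (E.ν x)) ∧ ∀ w, α (E.ι w) = E'.ι (h w) := by
  have key : ∀ x, E'.ν (α x) = 0 ↔ E.ν x = 0 := by
    intro x
    rw [← E.central_iff hω, ← E'.central_iff hω']
    constructor
    · intro hx y
      apply α.injective
      rw [map_mul, map_mul, hx]
    · intro hx y
      obtain ⟨y, rfl⟩ := α.surjective y
      rw [← map_mul, ← map_mul, hx]
  choose s hs using E.ν_surj
  have hγ : ∀ x, E'.ν (α (s (E.ν x))) = E'.ν (α x) := by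
    intro x
    obtain ⟨w, hw⟩ := E.eq_mul_of_ν_eq (hs (E.ν x))
    conv_rhs => rw [hw, map_mul, E'.ν_mul, (key _).2 (E.ν_ι w), add_zero]
  let γ0 : V →+ V' := AddMonoidHom.mk' (fun v => E'.ν (α (s v))) (by
    intro a b
    conv_lhs => rw [← hs a, ← hs b, ← E.ν_mul, hγ, map_mul, E'.ν_mul])
  have hγ0 : Bijective (γ0.toZModLinearMap p) := by
    constructor
    · rw [injective_iff_map_eq_zero]
      intro v hv
      rw [← hs v]
      exact (key _).1 hv
    · intro v'
      obtain ⟨y, rfl⟩ := E'.ν_surj v'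
      obtain ⟨x, rfl⟩ := α.surjective y
      exact ⟨E.ν x, hγ x⟩
  choose t ht using fun w => (E'.ker _).1 ((key _).2 (E.ν_ι w))
  let h0 : W →+ W' := AddMonoidHom.mk' t (by
    intro a b
    apply E'.ι_inj
    rw [E'.ι_add, ht, ht, ht, E.ι_add, map_mul])
  have hh0 : Bijective (h0.toZModLinearMap p) := by
    constructor
    · intro a b hab
      have hab : t a = t b := hab
      apply E.ι_inj
      apply α.injective
      rw [← ht, ← ht, hab]
    · intro w'
      obtain ⟨x, hx⟩ := α.surjective (E'.ι w')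
      obtain ⟨w, rfl⟩ := (E.ker x).1 ((key x).1 (by rw [hx, E'.ν_ι]))
      refine ⟨w, E'.ι_inj ?_⟩
      change E'.ι (t w) = _
      rw [ht, hx]
  refine ⟨LinearEquiv.ofBijective _ hγ0, LinearEquiv.ofBijective _ hh0, ⟨?_, ?_⟩,
    fun x => (hγ x).symm, fun w => (ht w).symm⟩
  · intro u v
    apply E'.ι_inj
    change E'.ι (ω' (E'.ν (α (s u))) (E'.ν (α (s v)))) = E'.ι (t (ω u v))
    have h1 := E'.comm (α (s u)) (α (s v))
    have h2 := congrArg α (E.comm (s u) (s v))
    rw [map_mul, map_mul, map_mul, hs, hs, h1] at h2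
    rw [ht]
    exact mul_right_cancel h2
  · intro v
    apply E'.ι_inj
    change E'.ι (q' (E'.ν (α (s v)))) = E'.ι (t (q v))
    rw [ht, ← E'.pow, ← map_pow, E.pow, hs]

include E in
theorem camina_of_allCP (hG : AllClassPreserving G) : Camina ω := by
  intro v ℓ'
  obtain ⟨ℓ, hℓ⟩ : ∃ ℓ : V →ₗ[ZMod p] W, ℓ v = -ℓ' v := ⟨-ℓ', rfl⟩
  generalize ℓ' v = w at hℓ
  let α : MulAut G :=
    { toFun := fun x => x * E.ι (ℓ (E.ν x))
      invFun := fun x => x * E.ι (-ℓ (E.ν x))
      left_inv := by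
        intro x
        simp only [E.ν_mul, E.ν_ι, add_zero]
        rw [mul_assoc, ← E.ι_add, add_neg_cancel, E.ι_zero, mul_one]
      right_inv := by
        intro x
        simp only [E.ν_mul, E.ν_ι, add_zero]
        rw [mul_assoc, ← E.ι_add, neg_add_cancel, E.ι_zero, mul_one]
      map_mul' := by
        intro x y
        rw [E.ν_mul, map_add, E.ι_add]
        simp only [mul_assoc]
        rw [← mul_assoc (E.ι _) y, E.central _ y, mul_assoc] }
  obtain ⟨x, rfl⟩ := E.ν_surj v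
  obtain ⟨c, hc⟩ := isConj_iff.1 (hG α x)
  have hc : c * x * c⁻¹ = x * E.ι (ℓ (E.ν x)) := hc
  refine ⟨E.ν c, E.ι_inj ?_⟩
  have h1 := E.comm x c
  have h2 : c * x = x * c * (E.ι w)⁻¹ := by
    rw [← E.ι_neg, ← hℓ, mul_assoc, ← E.central, ← mul_assoc, ← hc, inv_mul_cancel_right]
  rw [h2, E.central, mul_assoc, left_eq_mul, inv_mul_eq_one] at h1
  exact h1.symm

include E in
theorem stab_of_allCP (hW : Inj (ZMod p) W) (hG : AllClassPreserving G) : Stab ω q := by
  intro γ h hc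
  obtain ⟨α, h1, h2⟩ := E.lift E hW γ h hc
  constructor
  · intro v
    obtain ⟨x, rfl⟩ := E.ν_surj v
    obtain ⟨c, hc⟩ := isConj_iff.1 (hG α x)
    rw [← h1, ← hc, E.ν_mul, E.ν_mul, E.ν_inv]
    abel
  · intro w
    obtain ⟨c, hc⟩ := isConj_iff.1 (hG α (E.ι w))
    apply E.ι_inj
    rw [← h2, ← hc, ← E.central, mul_inv_cancel_right]

include E in
theorem allCP_of (h0 : ∀ v, ω v = 0 → v = 0) (h1 : Camina ω) (h2 : Stab ω q) :
    AllClassPreserving G := by
  intro α x
  obtain ⟨γ, h, hc, h3, h4⟩ := E.descend E h0 h0 α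
  obtain ⟨h5, h6⟩ := h2 γ h hc
  choose s hs using E.ν_surj
  choose l hl using fun x => E.eq_mul_of_ν_eq (x := x) (y := α x) (by rw [h3, h5])
  have lmul : ∀ x y, l (x * y) = l x + l y := by
    intro x y
    apply E.ι_inj
    apply mul_left_cancel (a := x * y)
    rw [← hl, map_mul, hl, hl, E.ι_add, mul_assoc, ← mul_assoc (E.ι _), E.central]
    simp only [mul_assoc]
  have lι : ∀ w, l (E.ι w) = 0 := by
    intro w
    have := hl (E.ι w)
    rw [h4, h6, left_eq_mul, ← E.ι_zero] at this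
    exact E.ι_inj this
  have ls : ∀ x, l (s (E.ν x)) = l x := by
    intro x
    obtain ⟨w, hw⟩ := E.eq_mul_of_ν_eq (hs (E.ν x))
    conv_rhs => rw [hw, lmul, lι, add_zero]
  let ℓ : V →+ W := AddMonoidHom.mk' (fun v => l (s v)) (by
    intro a b
    conv_lhs => rw [← hs a, ← hs b, ← E.ν_mul, ls, lmul])
  obtain ⟨u, hu⟩ := h1 (E.ν x) (-ℓ.toZModLinearMap p)
  obtain ⟨c, rfl⟩ := E.ν_surj u
  have hu : ω (E.ν x) (E.ν c) = -l x := by rw [hu, ← ls]; rfl
  rw [isConj_iff]
  refine ⟨c, ?_⟩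
  have := E.comm x c
  rw [hu, E.ι_neg, eq_inv_mul_iff_mul_eq] at this
  rw [hl, ← this, ← mul_assoc, mul_inv_cancel_right, E.central]

/-- transport along a group isomorphism -/
def transport (e : G' ≃* G) : Ext p G' V W ω q where
  ν := fun x => E.ν (e x)
  ι := fun w => e.symm (E.ι w)
  ν_mul := by intro x y; rw [map_mul, E.ν_mul]
  ι_add := by intro a b; rw [E.ι_add, map_mul]
  ν_surj := E.ν_surj.comp e.surjective
  ι_inj := e.symm.injective.comp E.ι_inj
  ker := by
    intro x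
    rw [E.ker]
    simp only [MulEquiv.symm_apply_eq]
  central := by
    intro w x
    apply e.injective
    simp only [map_mul, MulEquiv.apply_symm_apply, E.central]
  comm := by
    intro x y
    apply e.injective
    simp only [map_mul, MulEquiv.apply_symm_apply]
    exact E.comm _ _
  pow := by
    intro x
    apply e.injective
    simp only [map_pow, MulEquiv.apply_symm_apply]
    exact E.pow _

include E in
lemma card_eq : Nat.card G = Nat.card V * Nat.card W := by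
  choose s hs using E.ν_surj
  rw [← Nat.card_prod]
  refine (Nat.card_eq_of_bijective (fun z : V × W => s z.1 * E.ι z.2) ⟨?_, ?_⟩).symm
  · rintro ⟨v, w⟩ ⟨v', w'⟩ h
    have h : s v * E.ι w = s v' * E.ι w' := h
    have h1 := congrArg E.ν h
    rw [E.ν_mul, E.ν_mul, E.ν_ι, E.ν_ι, hs, hs, add_zero, add_zero] at h1
    subst h1
    rw [E.ι_inj (mul_left_cancel h)]
  · intro x
    obtain ⟨w, hw⟩ := E.eq_mul_of_ν_eq (hs (E.ν x))
    exact ⟨(E.ν x, w), hw.symm⟩

lemma commutator_eq (hs : ∀ w, ∃ u v, ω u v = w) : commutator G = E.ιh.range := by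
  apply le_antisymm
  · rw [commutator_def, Subgroup.commutator_le]
    intro x _ y _
    refine ⟨Multiplicative.ofAdd (ω (E.ν x) (E.ν y)), ?_⟩
    change E.ι (ω (E.ν x) (E.ν y)) = x * y * x⁻¹ * y⁻¹
    rw [E.comm x y]
    group
  · rintro _ ⟨w, rfl⟩
    obtain ⟨u, v, h⟩ := hs w.toAdd
    obtain ⟨x, rfl⟩ := E.ν_surj u
    obtain ⟨y, rfl⟩ := E.ν_surj v
    have : E.ιh w = x * y * x⁻¹ * y⁻¹ := by
      change E.ι w.toAdd = _
      rw [E.comm x y, h]
      group
    rw [this]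
    exact Subgroup.commutator_mem_commutator (Subgroup.mem_top x) (Subgroup.mem_top y)

lemma center_eq (hω : ∀ v, ω v = 0 → v = 0) : Subgroup.center G = E.ιh.range := by
  ext x
  rw [Subgroup.mem_center_iff]
  constructor
  · intro h
    obtain ⟨w, hw⟩ := (E.ker x).1 ((E.central_iff hω x).1 fun y => (h y).symm)
    exact ⟨Multiplicative.ofAdd w, hw⟩
  · rintro ⟨w, rfl⟩ y
    exact (E.central _ _).symm

include E in
/-- quotient by a complement of `W` in the preimage of the kernel of `ρ` -/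
theorem quot (hW : Inj (ZMod p) W) {ω₁ : V' →ₗ[ZMod p] V' →ₗ[ZMod p] W} {q₁ : V' → W}
    (ρ : V →ₗ[ZMod p] V') (hρ : Surjective ρ) (h1 : ∀ u v, ω₁ (ρ u) (ρ v) = ω u v)
    (h2 : ∀ v, q₁ (ρ v) = q v) (h3 : q₁ 0 = 0) :
    ∃ (M : Type) (_ : Group M) (φ : G →* M), Surjective φ ∧ Nonempty (Ext p M V' W ω₁ q₁) := by
  let Z : Subgroup G :=
    { carrier := {x | ρ (E.ν x) = 0}
      mul_mem' := by
        intro a b ha hb
        simp only [Set.mem_ofPred_eq] at *
        rw [E.ν_mul, map_add, ha, hb, add_zero]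
      one_mem' := by simp [E.ν_one]
      inv_mem' := by
        intro a ha
        simp only [Set.mem_ofPred_eq] at *
        rw [E.ν_inv, map_neg, ha, neg_zero] }
  have Zc : ∀ z ∈ Z, ∀ x, z * x = x * z := by
    intro z hz x
    have hz : ρ (E.ν z) = 0 := hz
    rw [E.comm z x, ← h1, hz, map_zero, LinearMap.zero_apply, E.ι_zero, one_mul]
  have hι : ∀ w, E.ι w ∈ Z := by
    intro w
    change ρ (E.ν (E.ι w)) = 0
    rw [E.ν_ι, map_zero]
  obtain ⟨r, rmul, hr⟩ := exists_retraction (p := p) (Q := Z) hW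
    (fun a b => Subtype.ext (Zc a a.2 b))
    (fun a => Subtype.ext (by
      have ha : ρ (E.ν a) = 0 := a.2
      rw [Subgroup.coe_pow, E.pow, ← h2, ha, h3, E.ι_zero]; rfl))
    (fun w => ⟨E.ι w, hι w⟩) (fun a b => Subtype.ext (E.ι_add a b))
    (fun a ha => E.ι_inj (by rw [E.ι_zero]; exact congrArg Subtype.val ha))
  have rone : r 1 = 0 := by
    have := rmul 1 1
    rw [one_mul] at this
    exact left_eq_add.mp this
  let C : Subgroup G :=
    { carrier := {z | ∃ hz : z ∈ Z, r ⟨z, hz⟩ = 0}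
      mul_mem' := by
        rintro a b ⟨ha, ha'⟩ ⟨hb, hb'⟩
        refine ⟨Z.mul_mem ha hb, ?_⟩
        have := rmul ⟨a, ha⟩ ⟨b, hb⟩
        rw [ha', hb', add_zero] at this
        exact this
      one_mem' := ⟨Z.one_mem, rone⟩
      inv_mem' := by
        rintro a ⟨ha, ha'⟩
        refine ⟨Z.inv_mem ha, ?_⟩
        have := rmul ⟨a, ha⟩⁻¹ ⟨a, ha⟩
        rw [inv_mul_cancel, rone, ha', add_zero] at this
        exact this.symm }
  have CN : C.Normal := ⟨fun t ht x => by
    rwa [← Zc t ht.1 x, mul_inv_cancel_right]⟩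
  let ν0 : G →* Multiplicative V' := MonoidHom.mk'
    (fun x => Multiplicative.ofAdd (ρ (E.ν x))) (by intro x y; rw [E.ν_mul, map_add, ofAdd_add])
  let ν1 : G ⧸ C →* Multiplicative V' := QuotientGroup.lift _ ν0 (by
    rintro z ⟨hz, -⟩
    have hz : ρ (E.ν z) = 0 := hz
    simp only [ν0, MonoidHom.mem_ker, MonoidHom.mk'_apply, hz, ofAdd_zero])
  have hν : ∀ x : G, (ν1 (QuotientGroup.mk x)).toAdd = ρ (E.ν x) := fun x => rfl
  refine ⟨G ⧸ C, inferInstance, QuotientGroup.mk' C, QuotientGroup.mk'_surjective C, ⟨{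
    ν := fun x => (ν1 x).toAdd
    ι := fun w => QuotientGroup.mk (E.ι w)
    ν_mul := by intro x y; simp
    ι_add := by intro a b; rw [E.ι_add, QuotientGroup.mk_mul]
    ν_surj := by
      intro v
      obtain ⟨v, rfl⟩ := hρ v
      obtain ⟨x, rfl⟩ := E.ν_surj v
      exact ⟨QuotientGroup.mk x, rfl⟩
    ι_inj := by
      intro a b hab
      have := QuotientGroup.eq.1 hab
      rw [← E.ι_neg, ← E.ι_add] at this
      obtain ⟨_, h⟩ := this
      rw [hr] at h
      exact neg_add_eq_zero.1 h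
    ker := by
      intro x
      obtain ⟨x, rfl⟩ := QuotientGroup.mk_surjective x
      constructor
      · intro hx
        have hx : x ∈ Z := hx
        refine ⟨r ⟨x, hx⟩, QuotientGroup.eq.2 ?_⟩
        rw [← E.ι_neg]
        refine ⟨Z.mul_mem (hι _) hx, ?_⟩
        have := rmul ⟨_, hι (-r ⟨x, hx⟩)⟩ ⟨x, hx⟩
        rw [hr, neg_add_cancel] at this
        exact this
      · rintro ⟨w, hw⟩
        rw [← hw, hν, E.ν_ι, map_zero]
    central := by
      intro w x
      obtain ⟨x, rfl⟩ := QuotientGroup.mk_surjective x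
      rw [← QuotientGroup.mk_mul, ← QuotientGroup.mk_mul, E.central]
    comm := by
      intro x y
      obtain ⟨x, rfl⟩ := QuotientGroup.mk_surjective x
      obtain ⟨y, rfl⟩ := QuotientGroup.mk_surjective y
      rw [← QuotientGroup.mk_mul, ← QuotientGroup.mk_mul, ← QuotientGroup.mk_mul, hν, hν, h1,
        ← E.comm]
    pow := by
      intro x
      obtain ⟨x, rfl⟩ := QuotientGroup.mk_surjective x
      rw [← QuotientGroup.mk_pow, hν, h2, E.pow] }⟩⟩

/-- coordinates on a quotient whose centre is the isomorphic image of `W` -/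
theorem of_surj {ω₁ : V' →ₗ[ZMod p] V' →ₗ[ZMod p] W} {q₁ : V' → W}
    (ρ : V →ₗ[ZMod p] V') (hρ : Surjective ρ) (h1 : ∀ u v, ω₁ (ρ u) (ρ v) = ω u v)
    (h2 : ∀ v, q₁ (ρ v) = q v) (h0 : ∀ v, ω₁ v = 0 → v = 0) (φ : G →* G') (hφ : Surjective φ)
    (hi : Injective fun w => φ (E.ι w)) (hZ : ∀ x, (∀ y, x * y = y * x) → ∃ w, φ (E.ι w) = x) :
    Nonempty (Ext p G' V' W ω₁ q₁) := by
  choose s hs using id hφ
  have key : ∀ x, ρ (E.ν (s (φ x))) = ρ (E.ν x) := by
    intro x
    rw [← sub_eq_zero, ← map_sub]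
    apply h0
    ext v
    obtain ⟨v, rfl⟩ := hρ v
    obtain ⟨y, rfl⟩ := E.ν_surj v
    have h3 := congrArg φ (E.comm (s (φ x) * x⁻¹) y)
    rw [map_mul, map_mul, hs, map_inv, mul_inv_cancel, map_mul, map_mul, map_mul, hs, map_inv,
      mul_inv_cancel, one_mul, mul_one, right_eq_mul, E.ν_mul, E.ν_inv, ← sub_eq_add_neg,
      ← map_one φ, ← E.ι_zero] at h3
    rw [h1]
    exact hi h3
  refine ⟨{
    ν := fun x => ρ (E.ν (s x))
    ι := fun w => φ (E.ι w)
    ν_mul := by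
      intro x y
      obtain ⟨x, rfl⟩ := hφ x
      obtain ⟨y, rfl⟩ := hφ y
      rw [← map_mul, key, key, key, E.ν_mul, map_add]
    ι_add := by intro a b; rw [E.ι_add, map_mul]
    ν_surj := by
      intro v
      obtain ⟨v, rfl⟩ := hρ v
      obtain ⟨x, rfl⟩ := E.ν_surj v
      exact ⟨φ x, key x⟩
    ι_inj := hi
    ker := by
      intro x
      obtain ⟨x, rfl⟩ := hφ x
      rw [key]
      constructor
      · intro hx
        apply hZ
        intro y
        obtain ⟨y, rfl⟩ := hφ y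
        rw [← map_mul, ← map_mul, E.comm x y, ← h1, hx, map_zero, LinearMap.zero_apply, E.ι_zero,
          one_mul]
      · rintro ⟨w, hw⟩
        rw [← key, ← hw, key, E.ν_ι, map_zero]
    central := by
      intro w x
      obtain ⟨x, rfl⟩ := hφ x
      rw [← map_mul, ← map_mul, E.central]
    comm := by
      intro x y
      obtain ⟨x, rfl⟩ := hφ x
      obtain ⟨y, rfl⟩ := hφ y
      rw [key, key, h1, ← map_mul, ← map_mul, ← map_mul, ← E.comm]
    pow := by
      intro x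
      obtain ⟨x, rfl⟩ := hφ x
      rw [key, h2, ← map_pow, E.pow] }⟩

end Ext

theorem Ext.rankTwo {p a : ℕ} [Fact p.Prime] {G V : Type} [Group G] [AddCommGroup V]
    [Module (ZMod (p ^ a)) V] [Finite V]
    {ω : V →ₗ[ZMod (p ^ a)] V →ₗ[ZMod (p ^ a)] ZMod (p ^ a) × ZMod (p ^ a)}
    {q : V → ZMod (p ^ a) × ZMod (p ^ a)}
    (E : Ext (p ^ a) G V (ZMod (p ^ a) × ZMod (p ^ a)) ω q)
    (hs : ∀ w, ∃ u v, ω u v = w) : RankTwo p a a G := by
  refine ⟨?_, ?_, ?_, ?_⟩
  · apply Nat.finite_of_card_ne_zero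
    rw [E.card_eq]
    exact mul_ne_zero Nat.card_pos.ne' Nat.card_pos.ne'
  · intro x
    refine ⟨a + a, ?_⟩
    rw [pow_add, pow_mul, E.pow x, ← E.ι_nsmul, ← E.ι_zero]
    congr 1
    rw [← Nat.cast_smul_eq_nsmul (ZMod (p ^ a)), ZMod.natCast_self, zero_smul]
  · rw [E.commutator_eq hs]
    rintro _ ⟨w, rfl⟩
    rw [Subgroup.mem_center_iff]
    intro y
    exact (E.central _ _).symm
  · rw [E.commutator_eq hs]
    exact ⟨(MonoidHom.ofInjective (f := E.ιh) (fun a b h => E.ι_inj h)).symm⟩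

end Pool.Agent.P.MP_0b48ca_al.G
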