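import Pool.Agent.P.MP_0b48ca_al.G.Even2
import Pool.Agent.P.MP_0b48ca_al.G.Abstract

/-! Assembly of the classification. -/

namespace Pool.Agent.P.MP_0b48ca_al.G

open Polynomial Function

set_option linter.unusedSectionVars false

lemma natDegree_mob {K : Type} [Field K] {f g : K[X]} (h : Adm f g) {a b c d : K}
    (hdet : IsUnit (a * d - b * c)) : (mob a b c d f.natDegree f).natDegree = f.natDegree := by
  apply natDegree_eq_of_le_of_coeff_ne_zero (mob_natDegree_le _ _ _ _ _ _)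
  have h1 : ∀ u v : K, (C u + C v * X).natDegree ≤ 1 := by
    intro u v
    compute_degree
  have h2 : (mob a b c d f.natDegree f).coeff f.natDegree =
      ∑ i ∈ Finset.range (f.natDegree + 1), f.coeff i * d ^ i * b ^ (f.natDegree - i) := by
    rw [mob, finsetSum_coeff]
    refine Finset.sum_congr rfl fun i hi => ?_
    obtain ⟨j, hj⟩ := Nat.exists_eq_add_of_le (Nat.lt_succ_iff.1 (Finset.mem_range.1 hi))
    rw [hj, Nat.add_sub_cancel_left, mul_assoc, coeff_C_mul, mul_assoc]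
    congr 1
    have e1 := coeff_pow_of_natDegree_le (m := i) (h1 c d)
    have e2 := coeff_pow_of_natDegree_le (m := j) (h1 a b)
    rw [mul_one] at e1 e2
    rw [coeff_mul_add_eq_of_natDegree_le ((natDegree_pow_le_of_le i (h1 c d)).trans (by omega))
      ((natDegree_pow_le_of_le j (h1 a b)).trans (by omega)), e1, e2]
    simp
  rw [h2]
  by_cases hb : b = 0
  · have hd : d ≠ 0 := by rintro rfl; simp [hb] at hdet
    rw [Finset.sum_eq_single f.natDegree]
    · simp [h.monic.coeff_natDegree, hd]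
    · intro i hi hne
      have := Finset.mem_range.1 hi
      rw [hb, zero_pow (by omega), mul_zero]
    · simp
  · have h3 := (h.unit (d / b)).ne_zero
    rw [eval_eq_sum_range] at h3
    intro h0
    apply h3
    apply mul_right_cancel₀ (pow_ne_zero f.natDegree hb)
    rw [zero_mul, ← h0, Finset.sum_mul]
    refine Finset.sum_congr rfl fun i hi => ?_
    obtain ⟨j, hj⟩ := Nat.exists_eq_add_of_le (Nat.lt_succ_iff.1 (Finset.mem_range.1 hi))
    rw [hj, Nat.add_sub_cancel_left, pow_add, div_pow]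
    field_simp

variable {p e m : ℕ} [hp : Fact p.Prime]

lemma Admissible.adm {f g : (ZMod m)[X]} (h : Admissible f g) : Adm f g :=
  ⟨h.1, h.2.1, h.2.2.1, h.2.2.2.1⟩

lemma chain_m (hm : p ^ (e + 1) = m) : Chain (ZMod m) p e := hm ▸ chain_zmod p e

lemma neZero_m (hm : p ^ (e + 1) = m) : NeZero m := ⟨hm ▸ pow_ne_zero _ hp.out.ne_zero⟩

lemma tw_m (hm : p ^ (e + 1) = m) (h2 : m ≠ 2) : Tw (p : ZMod m) (m.choose 2 : ℕ) := by
  rcases hp.out.eq_two_or_odd' with rfl | hodd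
  · obtain ⟨e, rfl⟩ : ∃ e', e = e' + 1 := by
      rcases e with _ | e
      · exact absurd hm.symm h2
      · exact ⟨e, rfl⟩
    have h1 : m.choose 2 = 2 * (2 ^ e * (m - 1)) := by
      rw [Nat.choose_two_right]
      apply Nat.div_eq_of_eq_mul_left two_pos
      nth_rewrite 1 [← hm]
      ring
    have h3 : ((m.choose 2 : ℕ) : ZMod m) * (2 : ℕ) = 0 := by
      rw [← Nat.cast_mul, ZMod.natCast_eq_zero_iff, h1]
      refine ⟨m - 1, ?_⟩
      nth_rewrite 2 [← hm]
      ring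
    refine ⟨Nat.cast_dvd_cast ⟨_, h1⟩, h3, fun a ha => ?_⟩
    have := neZero_m hm
    obtain ⟨n, rfl⟩ := ZMod.natCast_zmod_surjective a
    obtain ⟨k, rfl | rfl⟩ := Nat.even_or_odd' n
    · exact absurd ha ((chain_m hm).not_unit (Nat.cast_dvd_cast (dvd_mul_right _ _)))
    · rw [Nat.cast_add, Nat.cast_mul, mul_add, ← mul_assoc, h3]
      simp
  · have : ((m.choose 2 : ℕ) : ZMod m) = 0 :=
      (ZMod.natCast_eq_zero_iff _ _).2 (dvd_choose_two (hm ▸ hodd.pow))
    rw [this]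
    exact ⟨dvd_zero _, zero_mul _, fun _ _ => zero_mul _⟩

/-- power map of the models over `ZMod m` -/
noncomputable abbrev qZ {R : Type} [CommRing R] [Algebra (ZMod m) R] (t : R)
    (c : R →ₗ[ZMod m] ZMod m) : R × R → ZMod m × ZMod m :=
  qt t c (if m = 2 then 0 else 1) (m.choose 2 : ℕ)

lemma qZ_two {R : Type} [CommRing R] [Algebra (ZMod 2) R] (t : R)
    (c : R →ₗ[ZMod 2] ZMod 2) : qZ t c = qt t c 0 1 := rfl

/-- the functional on `K[X] / f` -/
noncomputable def cg {K : Type} [CommRing K] {f : K[X]} (hf : f.Monic) (g : K[X]) :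
    AdjoinRoot f →ₗ[K] K := tau hf ∘ₗ LinearMap.mulRight K (AdjoinRoot.mk f g)

lemma cg_mk {K : Type} [CommRing K] {f : K[X]} (hf : f.Monic) (g r : K[X]) :
    cg hf g (AdjoinRoot.mk f r) = tp hf (r * g) := rfl

lemma cg_pow {K : Type} [CommRing K] {f : K[X]} (hf : f.Monic) (g : K[X]) (k : ℕ) :
    cg hf g (AdjoinRoot.root f ^ k) = coef f g k := by
  rw [← AdjoinRoot.mk_X, ← map_pow (AdjoinRoot.mk f), cg_mk, tp_pow]

theorem ext_grp [NeZero m] {f : (ZMod m)[X]} (hf : f.Monic) (g : (ZMod m)[X]) :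
    Nonempty (Ext m (Grp f g) (AdjoinRoot f × AdjoinRoot f) (ZMod m × ZMod m)
      (ωm (AdjoinRoot.root f) (cg hf g)) (qZ (AdjoinRoot.root f) (cg hf g))) := by
  let b : Module.Basis (Fin f.natDegree) (ZMod m) (AdjoinRoot f) :=
    (AdjoinRoot.powerBasis' hf).basis
  have hb : ∀ i, b i = AdjoinRoot.root f ^ (i : ℕ) := fun i =>
    (AdjoinRoot.powerBasis' hf).basis_eq_pow i
  obtain ⟨M, _, ⟨E⟩⟩ := exists_model (b.prod b)
    (βe (AdjoinRoot.root f) (cg hf g) (if m = 2 then 0 else 1))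
    (πm (cg hf g) (if m = 2 then 0 else 1))
  rw [βe_sub_flip] at E
  simp only [← Nat.cast_smul_eq_nsmul (ZMod m)] at E
  have E' : Ext m M _ _ (ωm (AdjoinRoot.root f) (cg hf g)) (qZ (AdjoinRoot.root f) (cg hf g)) := E
  obtain ⟨e⟩ := iso_of_frame f g E' (b.prod b)
    (by intro i j; simp [ωm_apply, Prod.mk_zero_zero])
    (by intro i j; simp [ωm_apply, Prod.mk_zero_zero])
    (by
      intro i j
      simp only [ωm_apply, Module.Basis.prod_apply, Sum.elim_inl, Sum.elim_inr, comp_apply,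
        LinearMap.coe_inl, LinearMap.coe_inr, hb, mul_zero, sub_zero]
      rw [← pow_add, ← pow_succ', cg_pow, cg_pow])
    (by
      intro i
      simp only [qZ, qt, πm_apply, βe_apply, Module.Basis.prod_apply, Sum.elim_inl, comp_apply,
        LinearMap.coe_inl, hb, cg_pow, mul_zero, map_zero, add_zero, zero_add, neg_zero,
        Nat.cast_smul_eq_nsmul]
      split_ifs
      · simp [Prod.mk_zero_zero]
      · rw [one_smul, ← pow_add, ← pow_succ', cg_pow, cg_pow, two_mul])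
    (by
      intro i
      simp only [qZ, qt, πm_apply, βe_apply, Module.Basis.prod_apply, Sum.elim_inr, comp_apply,
        LinearMap.coe_inr, hb, cg_pow, mul_zero, zero_mul, map_zero, zero_add,
        Nat.cast_smul_eq_nsmul]
      split_ifs
      · simp [Prod.mk_zero_zero]
      · rw [one_smul, ← pow_add, ← pow_succ', cg_pow, cg_pow, two_mul, one_mul, Prod.neg_mk,
          neg_zero])
  exact ⟨E'.transport e⟩

/-- commutator form of the reduced model -/
noncomputable abbrev ωA {f : (ZMod m)[X]} (hf : f.Monic) (g : (ZMod m)[X]) :=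
  ωm (tq f g) (cq hf g)

/-- power map of the reduced model -/
noncomputable abbrev qA {f : (ZMod m)[X]} (hf : f.Monic) (g : (ZMod m)[X]) :=
  qZ (tq f g) (cq hf g)

/-- the reduced module -/
abbrev VA (f g : (ZMod m)[X]) : Type := ((ZMod m)[X] ⧸ den f g) × ((ZMod m)[X] ⧸ den f g)

theorem normal_form (hm : p ^ (e + 1) = m) {V : Type} [AddCommGroup V] [Module (ZMod m) V]
    [Finite V] {ω : V →ₗ[ZMod m] V →ₗ[ZMod m] ZMod m × ZMod m} (h1 : ∀ v, ω v v = 0)
    (h2 : Camina ω) {q : V → ZMod m × ZMod m}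
    (hq : ∀ u v, q (u + v) = q u + q v + m.choose 2 • ω v u)
    (hq' : ∀ (a : ZMod m) v, q (a • v) = a • q v) (hs : ∃ u v, IsUnit (ω u v).1)
    (hS : ∀ γ : V ≃ₗ[ZMod m] V, Compat ω q ω q γ id → ∀ v, γ v = v) :
    ∃ (f g : (ZMod m)[X]) (h : Admissible f g) (Ψ : VA f g ≃ₗ[ZMod m] V),
      Compat (ωA h.1 g) (qA h.1 g) ω q Ψ id := by
  by_cases h2' : m = 2
  · subst h2'
    obtain ⟨f, h, hs, Ψ, hΨ⟩ := even_normal_form h1 h2 (by simpa using hq) hs hS
    exact ⟨f, 1, ⟨h.monic, h.unit, h.lt, h.coeff, fun _ => ⟨hs, rfl⟩⟩, Ψ, hΨ⟩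
  · have := neZero_m hm
    obtain ⟨f, g, h, Ψ, hΨ⟩ := odd_normal_form (chain_m hm) (tw_m hm h2') h1 h2
      (by simpa only [Nat.cast_smul_eq_nsmul] using hq) hq' hs hS
    refine ⟨f, g, ⟨h.monic, h.unit, h.lt, h.coeff, fun h => absurd h h2'⟩, Ψ, ?_⟩
    rw [qA, qZ, if_neg h2']
    exact hΨ

theorem stab_A (hm : p ^ (e + 1) = m) {f g : (ZMod m)[X]} (h : Admissible f g)
    (γ : VA f g ≃ₗ[ZMod m] VA f g)
    (hc : Compat (ωA h.1 g) (qA h.1 g) (ωA h.1 g) (qA h.1 g) γ (hmat 1 0 0 1))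
    (v : VA f g) : γ v = v := by
  by_cases h2' : m = 2
  · subst h2'
    obtain ⟨hs, rfl⟩ := h.2.2.2.2 rfl
    exact even_stab (cyc_q h.1 1) hs γ hc v
  · have := neZero_m hm
    rw [qA, qZ, if_neg h2'] at hc
    exact odd_stab (chain_m hm) (tw_m hm h2') (cyc_q h.1 g) γ hc v

theorem related_of_compat (hm : p ^ (e + 1) = m) {f g f' g' : (ZMod m)[X]} (h : Admissible f g)
    (h' : Admissible f' g') {a b c d : ZMod m} (hdet : IsUnit (a * d - b * c))
    (γ : VA f g ≃ₗ[ZMod m] VA f' g')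
    (hc : Compat (ωA h.1 g) (qA h.1 g) (ωA h'.1 g') (qA h'.1 g') γ (hmat a b c d)) :
    Related a b c d f g f' g' := by
  by_cases h2' : m = 2
  · subst h2'
    obtain ⟨-, rfl⟩ := h.2.2.2.2 rfl
    obtain ⟨-, rfl⟩ := h'.2.2.2.2 rfl
    rw [Related, if_pos rfl]
    exact even_related h.adm (cyc_q h.1 1) (cyc_q h'.1 1) hdet γ hc.1
  · have := neZero_m hm
    rw [qA, qA, qZ, qZ, if_neg h2'] at hc
    rw [Related, if_neg h2']
    exact odd_related (chain_m hm) (tw_m hm h2') h.adm h'.adm (cyc_q h.1 g) (cyc_q h'.1 g')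
      hdet γ hc

theorem related_unique (hm : p ^ (e + 1) = m) {f g f' g' f'' g'' : (ZMod m)[X]}
    (h : Admissible f g) (h' : Admissible f' g') (h'' : Admissible f'' g'') {a b c d : ZMod m}
    (hdet : IsUnit (a * d - b * c)) (r' : Related a b c d f g f' g')
    (r'' : Related a b c d f g f'' g'') : coef f' g' = coef f'' g'' := by
  by_cases h2' : m = 2
  · subst h2'
    rw [Related, if_pos rfl] at r' r''
    rw [(h'.2.2.2.2 rfl).2, (h''.2.2.2.2 rfl).2]
    congr 1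
    have e1 := natDegree_mob h'.adm hdet
    have e2 := natDegree_mob h''.adm hdet
    rw [r'] at e1
    rw [r''] at e2
    rw [← sub_eq_zero]
    apply mob_eq_zero hdet (n := f.natDegree)
    · exact (natDegree_sub_le _ _).trans (by omega)
    · rw [mob_sub, sub_eq_zero]
      rw [← e1] at r'
      rw [← e2] at r''
      rw [r', r'']
  · have := (chain_m hm).nontrivial
    rw [Related, if_neg h2'] at r' r''
    have n1 := h'.adm.nat_lt
    have n2 := h''.adm.nat_lt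
    have e1 : g' * f'' = g'' * f' := by
      rw [← sub_eq_zero]
      apply mob_eq_zero hdet (n := f'.natDegree - 1 + f''.natDegree)
      · exact (natDegree_sub_le _ _).trans (max_le (natDegree_mul_le.trans (by omega))
          (natDegree_mul_le.trans (by omega)))
      · rw [mob_sub, mob_mul _ _ _ _ (by omega) le_rfl,
          show f'.natDegree - 1 + f''.natDegree = f''.natDegree - 1 + f'.natDegree by omega,
          mob_mul _ _ _ _ (by omega) le_rfl, ← h.1.mul_right_eq_zero_iff]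
        linear_combination mob a b c d f''.natDegree f'' * r' - mob a b c d f'.natDegree f' * r''
    exact (expands_coef h'.1 h'.adm.pos h'.adm.lt).seq_unique h'.1 h''.1
      (expands_coef h''.1 h''.adm.pos h''.adm.lt) (by linear_combination -e1)

lemma red_compat {f : (ZMod m)[X]} (hf : f.Monic) (g : (ZMod m)[X]) :
    ∃ ρ : (AdjoinRoot f × AdjoinRoot f) →ₗ[ZMod m] VA f g, Surjective ρ ∧
      Compat (ωm (AdjoinRoot.root f) (cg hf g)) (qZ (AdjoinRoot.root f) (cg hf g))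
        (ωA hf g) (qA hf g) ρ id := by
  have Y := cyc_q hf g
  refine ⟨Y.red.toLinearMap.prodMap Y.red.toLinearMap, Y.red_surj.prodMap Y.red_surj,
    compat_hom Y.red.toLinearMap (map_mul Y.red) ?_ (fun a => ?_) _ _⟩
  · rw [← AdjoinRoot.mk_X, AlgHom.toLinearMap_apply, Y.red_mk, aeval_X]
  · obtain ⟨a, rfl⟩ := AdjoinRoot.mk_surjective a
    rw [AlgHom.toLinearMap_apply, Y.red_mk, Y.val, cg_mk]

theorem ext_quot (hm : p ^ (e + 1) = m) {f : (ZMod m)[X]} (hf : f.Monic) (g : (ZMod m)[X]) :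
    ∃ (M : Type) (_ : Group M) (φ : Grp f g →* M), Surjective φ ∧
      Nonempty (Ext m M (VA f g) (ZMod m × ZMod m) (ωA hf g) (qA hf g)) := by
  have := neZero_m hm
  obtain ⟨E⟩ := ext_grp hf g
  obtain ⟨ρ, h1, h2, h3⟩ := red_compat hf g
  exact E.quot (chain_m hm).inj ρ h1 h2 h3 (by simp [qt])

theorem models_of_ext (hm : p ^ (e + 1) = m) {f g : (ZMod m)[X]} (h : Admissible f g)
    {G : Type} [Group G] (E : Ext m G (VA f g) (ZMod m × ZMod m) (ωA h.1 g) (qA h.1 g)) :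
    Models f g G := by
  obtain ⟨M, _, φ, hφ, ⟨E'⟩⟩ := ext_quot hm h.1 g
  obtain ⟨α, -, -⟩ := E'.lift E (chain_m hm).inj (LinearEquiv.refl _ _) (LinearEquiv.refl _ _)
    ⟨fun _ _ => rfl, fun _ => rfl⟩
  refine ⟨⟨α.toMonoidHom.comp φ, α.surjective.comp hφ⟩, ?_⟩
  rw [E.center_eq (cyc_q h.1 g).ω_nondeg,
    E.commutator_eq ((cyc_q h.1 g).ω_surj (chain_m hm) h.adm)]

theorem ext_of_models (hm : p ^ (e + 1) = m) {f g : (ZMod m)[X]} (h : Admissible f g)
    {G : Type} [Group G] (hc : Nonempty (commutator G ≃* Multiplicative (ZMod m × ZMod m)))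
    (hM : Models f g G) :
    Nonempty (Ext m G (VA f g) (ZMod m × ZMod m) (ωA h.1 g) (qA h.1 g)) := by
  have := neZero_m hm
  obtain ⟨⟨φ, hφ⟩, hZ⟩ := hM
  obtain ⟨E⟩ := ext_grp h.1 g
  obtain ⟨ρ, h1, h2, h3⟩ := red_compat h.1 g
  have h4 := E.commutator_eq (fun w => by
    obtain ⟨u, v, rfl⟩ := (cyc_q h.1 g).ω_surj (chain_m hm) h.adm w
    obtain ⟨u, rfl⟩ := h1 u
    obtain ⟨v, rfl⟩ := h1 v
    exact ⟨u, v, (h2 u v).symm⟩)
  have h5 : commutator G = E.ιh.range.map φ := by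
    rw [← h4, map_commutator_eq, MonoidHom.range_eq_top.2 hφ, commutator_def]
  have h6 : ∀ x, x ∈ commutator G ↔ ∃ w, φ (E.ι w) = x := by
    intro x
    rw [h5]
    constructor
    · rintro ⟨_, ⟨w, rfl⟩, rfl⟩
      exact ⟨_, rfl⟩
    · rintro ⟨w, rfl⟩
      exact ⟨_, ⟨Multiplicative.ofAdd w, rfl⟩, rfl⟩
  refine E.of_surj ρ h1 h2 h3 (cyc_q h.1 g).ω_nondeg φ hφ ?_ fun x hx => (h6 x).1 ?_
  · obtain ⟨ε⟩ := hc
    let F : ZMod m × ZMod m → commutator G := fun w => ⟨φ (E.ι w), (h6 _).2 ⟨w, rfl⟩⟩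
    have hF : Surjective F := by
      rintro ⟨x, hx⟩
      obtain ⟨w, rfl⟩ := (h6 x).1 hx
      exact ⟨w, rfl⟩
    have := (hF.bijective_of_nat_card_le (Nat.card_congr ε.toEquiv).ge).1
    exact fun a b hab => this (Subtype.ext hab)
  · rw [← hZ, Subgroup.mem_center_iff]
    exact fun y => (hx y).symm

theorem compat_of_related (hm : p ^ (e + 1) = m) {f g f' g' : (ZMod m)[X]} (h : Admissible f g)
    (h' : Admissible f' g') {a b c d : ZMod m} (hdet : IsUnit (a * d - b * c))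
    (r : Related a b c d f g f' g') :
    ∃ γ : VA f g ≃ₗ[ZMod m] VA f' g',
      Compat (ωA h.1 g) (qA h.1 g) (ωA h'.1 g') (qA h'.1 g') γ (hmat a b c d) := by
  have := neZero_m hm
  obtain ⟨ε, hε⟩ := exists_equiv_hmat hdet
  obtain ⟨M, _, -, -, ⟨E⟩⟩ := ext_quot hm h.1 g
  have := (cyc_q h.1 g).finite
  obtain ⟨f'', g'', h'', Ψ, hΨ⟩ := normal_form hm (ω := (ωA h.1 g).compr₂ ε.toLinearMap)
    (q := fun v => ε (qA h.1 g v))
    (fun v => by simp [E.alt])
    (fun v ℓ => by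
      obtain ⟨u, hu⟩ := (cyc_q h.1 g).camina (chain_m hm) h.adm v (ε.symm.toLinearMap ∘ₗ ℓ)
      exact ⟨u, by simp [hu]⟩)
    (fun u v => by rw [E.q_add, map_add, map_add, map_nsmul]; rfl)
    (fun a v => by rw [E.q_smul, map_smul])
    (by
      obtain ⟨u, v, huv⟩ := (cyc_q h.1 g).ω_surj (chain_m hm) h.adm (ε.symm (1, 0))
      exact ⟨u, v, by simp [huv]⟩)
    (fun γ hγ => stab_A hm h γ ⟨fun u v => by
      rw [hmat_one]; exact ε.injective (hγ.1 u v), fun v => by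
      rw [hmat_one]; exact ε.injective (hγ.2 v)⟩)
  have hc : Compat (ωA h.1 g) (qA h.1 g) (ωA h''.1 g'') (qA h''.1 g'') Ψ.symm (hmat a b c d) := by
    constructor
    · intro u v
      have := hΨ.1 (Ψ.symm u) (Ψ.symm v)
      rw [LinearEquiv.apply_symm_apply, LinearEquiv.apply_symm_apply] at this
      rw [← hε]
      exact this.symm
    · intro v
      have := hΨ.2 (Ψ.symm v)
      rw [LinearEquiv.apply_symm_apply] at this
      rw [← hε]
      exact this.symm
  obtain ⟨δ, hδ⟩ := (cyc_q h''.1 g'').iso (cyc_q h'.1 g')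
    (related_unique hm h h'' h' hdet (related_of_compat hm h h'' hdet _ hc) r)
    (if m = 2 then 0 else 1) (m.choose 2 : ℕ)
  exact ⟨Ψ.symm ≪≫ₗ δ, fun u v => (hδ.1 _ _).trans (hc.1 u v), fun v => (hδ.2 _).trans (hc.2 v)⟩

theorem part_one {f g : (ZMod (p ^ (e + 1)))[X]} (h : Admissible f g) :
    ∃ (G : Type) (_ : Group G), RankTwo p (e + 1) (e + 1) G ∧ Models f g G := by
  obtain ⟨M, _, -, -, ⟨E⟩⟩ := ext_quot (rfl : p ^ (e + 1) = _) h.1 g
  have := (cyc_q h.1 g).finite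
  exact ⟨M, _, E.rankTwo ((cyc_q h.1 g).ω_surj (chain_m rfl) h.adm), models_of_ext rfl h E⟩

theorem part_card {f g : (ZMod (p ^ (e + 1)))[X]} (h : Admissible f g) {G : Type} [Group G]
    (hG : RankTwo p (e + 1) (e + 1) G) (hM : Models f g G) :
    Nat.card G = (p ^ (e + 1) * Nat.card ((ZMod (p ^ (e + 1)))[X] ⧸ den f g)) ^ 2 := by
  obtain ⟨E⟩ := ext_of_models rfl h hG.2.2.2 hM
  rw [E.card_eq, Nat.card_prod, Nat.card_prod, Nat.card_zmod]
  ring

theorem part_two {G : Type} [Group G] (hG : RankTwo p (e + 1) (e + 1) G) :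
    AllClassPreserving G ↔
      ∃ f g : (ZMod (p ^ (e + 1)))[X], Admissible f g ∧ Rigid f g ∧ Models f g G := by
  have H := chain_zmod p e
  constructor
  · intro hA
    obtain ⟨_, h1, h2, ⟨ε⟩⟩ := hG
    obtain ⟨V, _, _, _, ω, q, hs, ⟨E⟩⟩ := exists_ext (p := p ^ (e + 1)) h2 ε (exp_of_equiv ε)
      (pow_mem (a := e) h1 h2 (exp_of_equiv ε) hA)
    obtain ⟨f, g, h, Ψ, hΨ⟩ := normal_form rfl E.alt (E.camina_of_allCP hA) E.q_add E.q_smul
      (by
        by_contra hne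
        push Not at hne
        exact H.not_unit (Ideal.mem_span_singleton.1 (hs
          ((Ideal.span {(p : ZMod (p ^ (e + 1)))}).toAddSubgroup.comap (AddMonoidHom.fst _ _))
          (fun u v => Ideal.mem_span_singleton.2 (H.dvd_of_not_unit (hne u v))) (1, 0)))
          isUnit_one)
      (fun γ hγ => (E.stab_of_allCP H.inj hA γ (LinearEquiv.refl _ _) hγ).1)
    obtain ⟨M, _, -, -, ⟨E'⟩⟩ := ext_quot (rfl : p ^ (e + 1) = _) h.1 g
    obtain ⟨α, -, -⟩ := E'.lift E H.inj Ψ (LinearEquiv.refl _ _) hΨ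
    refine ⟨f, g, h, fun a b c d hdet r => ?_, models_of_ext rfl h (E'.transport α.symm)⟩
    obtain ⟨γ, hγ⟩ := compat_of_related rfl h h hdet r
    obtain ⟨ε, hε⟩ := exists_equiv_hmat hdet
    have := ((E'.transport α.symm).stab_of_allCP H.inj hA γ ε (by
      rw [show (ε : _ → _) = hmat a b c d from funext hε]; exact hγ)).2
    have h1 := this (1, 0)
    have h2 := this (0, 1)
    rw [hε, hmat] at h1 h2
    simp only [mul_one, mul_zero, add_zero, zero_add, Prod.mk.injEq] at h1 h2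
    exact ⟨h1.1, h2.1, h1.2, h2.2⟩
  · rintro ⟨f, g, h, hr, hM⟩
    obtain ⟨E⟩ := ext_of_models rfl h hG.2.2.2 hM
    refine E.allCP_of (cyc_q h.1 g).ω_nondeg ((cyc_q h.1 g).camina H h.adm) fun γ ε hc => ?_
    obtain ⟨a, b, c, d, hdet, hε⟩ := exists_hmat ε
    rw [show (ε : _ → _) = hmat a b c d from funext hε] at hc
    obtain ⟨rfl, rfl, rfl, rfl⟩ := hr a b c d hdet (related_of_compat rfl h h hdet γ hc)
    exact ⟨stab_A rfl h γ hc, fun w => by rw [hε, hmat_one]⟩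

theorem part_three {f g f' g' : (ZMod (p ^ (e + 1)))[X]} (h : Admissible f g)
    (h' : Admissible f' g') {G G' : Type} [Group G] [Group G']
    (hG : RankTwo p (e + 1) (e + 1) G) (hM : Models f g G)
    (hG' : RankTwo p (e + 1) (e + 1) G') (hM' : Models f' g' G') :
    Nonempty (G ≃* G') ↔
      ∃ a b c d : ZMod (p ^ (e + 1)), IsUnit (a * d - b * c) ∧ Related a b c d f g f' g' := by
  obtain ⟨E⟩ := ext_of_models rfl h hG.2.2.2 hM
  obtain ⟨E'⟩ := ext_of_models rfl h' hG'.2.2.2 hM'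
  constructor
  · rintro ⟨α⟩
    obtain ⟨γ, ε, hc, -, -⟩ := E.descend E' (cyc_q h.1 g).ω_nondeg (cyc_q h'.1 g').ω_nondeg α
    obtain ⟨a, b, c, d, hdet, hε⟩ := exists_hmat ε
    rw [show (ε : _ → _) = hmat a b c d from funext hε] at hc
    exact ⟨a, b, c, d, hdet, related_of_compat rfl h h' hdet γ hc⟩
  · rintro ⟨a, b, c, d, hdet, r⟩
    obtain ⟨γ, hγ⟩ := compat_of_related rfl h h' hdet r
    obtain ⟨ε, hε⟩ := exists_equiv_hmat hdet
    obtain ⟨α, -, -⟩ := E.lift E' (chain_zmod p e).inj γ ε (by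
      rw [show (ε : _ → _) = hmat a b c d from funext hε]; exact hγ)
    exact ⟨α⟩

theorem not_allCP_aux {G W : Type} [Group G] [Finite G] [AddCommGroup W] (h1 : IsPGroup p G)
    (h2 : commutator G ≤ Subgroup.center G) (ε : commutator G ≃* Multiplicative W)
    (hW : ∀ w : W, p ^ (e + 1) • w = 0) (l : W →+ ZMod (p ^ (e + 1))) (z : W) (hz : l z = 1)
    (htop : ∀ w, l w = 0 → p ^ e • w = 0) : ¬ AllClassPreserving G := by
  intro hA
  let _ : Module (ZMod (p ^ (e + 1))) W := AddCommGroup.zmodModule hW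
  obtain ⟨V, _, _, _, ω, q, hs, ⟨E⟩⟩ := exists_ext (p := p ^ (e + 1)) h2 ε (exp_of_equiv ε)
    (pow_mem (a := e) h1 h2 (exp_of_equiv ε) hA)
  exact not_allCP_of_top rfl E hs (l.toZModLinearMap _) z hz htop hA

lemma pow_smul_zmod {a b : ℕ} (h : b ≤ a) (x : ZMod (p ^ b)) : p ^ a • x = 0 := by
  rw [nsmul_eq_mul, (ZMod.natCast_eq_zero_iff _ _).2 (pow_dvd_pow p h), zero_mul]

theorem eq_of_allCP {a b : ℕ} {G : Type} [Group G] (hG : RankTwo p a b G)
    (hA : AllClassPreserving G) : a = b := by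
  obtain ⟨_, h1, h2, ⟨ε⟩⟩ := hG
  by_contra hne
  rcases Nat.lt_or_gt_of_ne hne with h | h
  · obtain ⟨e, rfl⟩ : ∃ e, b = e + 1 := ⟨b - 1, by omega⟩
    refine not_allCP_aux h1 h2 ε (fun w => Prod.ext (pow_smul_zmod h.le _) (pow_smul_zmod le_rfl _))
      (AddMonoidHom.snd _ _) (0, 1) rfl (fun w hw => Prod.ext (pow_smul_zmod (by omega) _) ?_) hA
    rw [Prod.smul_snd, show w.2 = 0 from hw, smul_zero, Prod.snd_zero]
  · obtain ⟨e, rfl⟩ : ∃ e, a = e + 1 := ⟨a - 1, by omega⟩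
    refine not_allCP_aux h1 h2 ε (fun w => Prod.ext (pow_smul_zmod le_rfl _) (pow_smul_zmod h.le _))
      (AddMonoidHom.fst _ _) (1, 0) rfl (fun w hw => Prod.ext ?_ (pow_smul_zmod (by omega) _)) hA
    rw [Prod.smul_fst, show w.1 = 0 from hw, smul_zero, Prod.fst_zero]

end Pool.Agent.P.MP_0b48ca_al.G
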