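import Pool.Agent.P.MP_0b48ca_al.G.Pencil

/-! The linear algebra for the twisted power map (modulus different from two). -/

namespace Pool.Agent.P.MP_0b48ca_al.G

open Polynomial Function

set_option linter.unusedSectionVars false

variable {K : Type} [CommRing K] {ϖ κ : K} {e : ℕ}

/-- the part of admissibility common to all moduli -/
structure Adm (f g : K[X]) : Prop where
  monic : f.Monic
  unit : ∀ a, IsUnit (f.eval a)
  lt : g.degree < f.degree
  coeff : ∃ i, IsUnit (g.coeff i)

lemma Adm.ne_zero [Nontrivial K] {f g : K[X]} (h : Adm f g) : g ≠ 0 := by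
  rintro rfl
  obtain ⟨i, hi⟩ := h.coeff
  simp at hi

lemma Adm.nat_lt [Nontrivial K] {f g : K[X]} (h : Adm f g) : g.natDegree < f.natDegree :=
  natDegree_lt_natDegree h.ne_zero h.lt

lemma Adm.pos [Nontrivial K] {f g : K[X]} (h : Adm f g) : 0 < f.natDegree := by
  have := h.nat_lt
  omega

/-- the matrix action on `K × K` -/
def hmat (a b c d : K) (w : K × K) : K × K := (a * w.1 + b * w.2, c * w.1 + d * w.2)

lemma hmat_one (w : K × K) : hmat 1 0 0 1 w = w := by simp [hmat]

lemma exists_hmat (h : (K × K) ≃ₗ[K] (K × K)) :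
    ∃ a b c d : K, IsUnit (a * d - b * c) ∧ ∀ w, h w = hmat a b c d w := by
  have key : ∀ w : K × K, h w = hmat (h (1, 0)).1 (h (0, 1)).1 (h (1, 0)).2 (h (0, 1)).2 w := by
    intro w
    have : w = w.1 • ((1, 0) : K × K) + w.2 • ((0, 1) : K × K) := by simp
    conv_lhs => rw [this, map_add, map_smul, map_smul]
    apply Prod.ext <;> simp [hmat, mul_comm]
  refine ⟨_, _, _, _, ?_, key⟩
  obtain ⟨w, hw⟩ := h.surjective (1, 0)
  obtain ⟨w', hw'⟩ := h.surjective (0, 1)
  rw [key, hmat, Prod.mk.injEq] at hw hw'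
  apply IsUnit.of_mul_eq_one (w.1 * w'.2 - w.2 * w'.1)
  linear_combination ((h (1, 0)).2 * w'.1 + (h (0, 1)).2 * w'.2) * hw.1 -
    ((h (1, 0)).1 * w'.1 + (h (0, 1)).1 * w'.2) * hw.2 + hw'.2

/-- the matrix action as a linear map -/
def hlin (a b c d : K) : K × K →ₗ[K] K × K :=
  LinearMap.prod (a • LinearMap.fst K K K + b • LinearMap.snd K K K)
    (c • LinearMap.fst K K K + d • LinearMap.snd K K K)

lemma hlin_apply (a b c d : K) (w : K × K) : hlin a b c d w = hmat a b c d w := rfl

lemma exists_equiv_hmat {a b c d : K} (h : IsUnit (a * d - b * c)) :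
    ∃ e : (K × K) ≃ₗ[K] (K × K), ∀ w, e w = hmat a b c d w := by
  obtain ⟨u, hu⟩ := h.exists_right_inv
  refine ⟨LinearEquiv.ofLinearMap (hlin a b c d) (hlin (u * d) (-(u * b)) (-(u * c)) (u * a))
    (LinearMap.ext fun w => ?_) (LinearMap.ext fun w => ?_), fun w => rfl⟩
  · simp only [LinearMap.comp_apply, hlin_apply, hmat, LinearMap.id_apply]
    apply Prod.ext
    · linear_combination w.1 * hu
    · linear_combination w.2 * hu
  · simp only [LinearMap.comp_apply, hlin_apply, hmat, LinearMap.id_apply]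
    apply Prod.ext
    · linear_combination w.1 * hu
    · linear_combination w.2 * hu

lemma Chain.unit_row (H : Chain K ϖ e) {a b c d : K} (h : IsUnit (a * d - b * c)) :
    IsUnit a ∨ IsUnit b := by
  by_contra h0
  push Not at h0
  exact H.not_unit (dvd_sub ((H.dvd_of_not_unit h0.1).mul_right _)
    ((H.dvd_of_not_unit h0.2).mul_right _)) h

lemma Chain.unit_row' (H : Chain K ϖ e) {a b c d : K} (h : IsUnit (a * d - b * c)) :
    IsUnit c ∨ IsUnit d := by
  by_contra h0
  push Not at h0
  exact H.not_unit (dvd_sub ((H.dvd_of_not_unit h0.2).mul_left _)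
    ((H.dvd_of_not_unit h0.1).mul_left _)) h

/-- the properties of the twisting constant -/
structure Tw (ϖ κ : K) : Prop where
  dvd : ϖ ∣ κ
  ann : κ * ϖ = 0
  unit : ∀ a, IsUnit a → κ * a = κ

namespace Tw
variable (S : Tw ϖ κ) (H : Chain K ϖ e)
include S

lemma of_dvd {a : K} (h : ϖ ∣ a) : κ * a = 0 := by
  obtain ⟨b, rfl⟩ := h
  rw [← mul_assoc, S.ann, zero_mul]

lemma congr {V W : Type} [AddCommGroup V] [Module K V] [AddCommGroup W] [Module K W]
    (β : V →ₗ[K] V →ₗ[K] W) (u v u' v' : V) :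
    κ • β (u + ϖ • u') (v + ϖ • v') = κ • β u v := by
  simp only [map_add, map_smul, LinearMap.add_apply, LinearMap.smul_apply, smul_add, smul_smul,
    ← mul_assoc, S.ann, zero_smul, add_zero, zero_mul]

lemma socle {V W : Type} [AddCommGroup V] [Module K V] [AddCommGroup W] [Module K W]
    (β : V →ₗ[K] V →ₗ[K] W) (u : V) {v : V} (hv : ϖ • v = 0) : κ • β v u = 0 := by
  obtain ⟨k, rfl⟩ := S.dvd
  rw [mul_comm, mul_smul, ← LinearMap.smul_apply ϖ, ← map_smul β, hv, map_zero,
    LinearMap.zero_apply, smul_zero]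

include H

lemma two : κ * 2 = 0 := by
  rcases H.unit_or 2 with h | h
  · have := S.unit _ h
    linear_combination 2 * this
  · exact S.of_dvd h

lemma sq (a : K) : κ * (a * a) = κ * a := by
  rcases H.unit_or a with h | h
  · rw [S.unit _ h, S.unit _ (h.mul h)]
  · rw [S.of_dvd h, S.of_dvd (h.mul_right _)]

lemma quad {a b : K} (h : IsUnit a ∨ IsUnit b) : κ * (a * b + (a * a + b * b)) = κ := by
  have h2 := S.two H
  rw [mul_add, mul_add, S.sq H, S.sq H]
  rcases H.unit_or a with ha | ha <;> rcases H.unit_or b with hb | hb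
  · rw [S.unit _ ha, S.unit _ hb, S.unit _ (ha.mul hb)]
    linear_combination h2
  · rw [S.unit _ ha, S.of_dvd hb, S.of_dvd (hb.mul_left _)]; ring
  · rw [S.unit _ hb, S.of_dvd ha, S.of_dvd (ha.mul_right _)]; ring
  · exact absurd h (not_or.2 ⟨H.not_unit ha, H.not_unit hb⟩)

end Tw

lemma Pencil.perp {V : Type} [AddCommGroup V] [Module K V] [Finite V] (H : Chain K ϖ e)
    {ω : V →ₗ[K] V →ₗ[K] K × K} {T : Module.End K V} (P : Pencil ω T) {w : V}
    (h : ∀ v, ϖ • v = 0 → (ω v w).1 = 0) : ∃ w', w = ϖ • w' := by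
  by_contra hne
  obtain ⟨φ, h0, hφ⟩ := H.separate (LinearMap.range (ϖ • LinearMap.id : V →ₗ[K] V)) (v := w)
    (fun ⟨w', hw'⟩ => hne ⟨w', hw'.symm⟩)
  obtain ⟨v, hv⟩ := P.exists_vec H φ
  apply h0
  rw [hv, P.skew, Prod.fst_neg, h, neg_zero]
  apply P.nondeg'
  intro x
  have := hφ _ ⟨x, rfl⟩
  rw [hv] at this
  simpa using this

/-- the twisted power map of the model -/
noncomputable def qt {R : Type} [CommRing R] [Algebra K R] (t : R) (c : R →ₗ[K] K) (ε κ : K)
    (v : R × R) : K × K := πm c ε v + κ • βe t c ε v v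

section inter
variable {R R' : Type} [CommRing R] [Algebra K R] [CommRing R'] [Algebra K R']
  {t u : R} {φ : R →ₗ[K] K} {t' : R'} {φ' : R' →ₗ[K] K} {a b c d : K}
  (γ : (R × R) ≃ₗ[K] (R' × R'))

lemma compat_fst (h : ∀ x y, ωm t' φ' (γ x) (γ y) = hmat a b c d (ωm t φ x y)) (x y : R × R) :
    (ωm t' φ' (γ x) (γ y)).1 =
      φ ((algebraMap K R a + algebraMap K R b * t) * (x.1 * y.2 - y.1 * x.2)) := by
  rw [h, ωm_apply, hmat, add_mul, mul_assoc, ← Algebra.smul_def, ← Algebra.smul_def, map_add,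
    map_smul, map_smul, smul_eq_mul, smul_eq_mul]

lemma compat_snd (h : ∀ x y, ωm t' φ' (γ x) (γ y) = hmat a b c d (ωm t φ x y)) (x y : R × R) :
    (ωm t' φ' (γ x) (γ y)).2 =
      φ ((algebraMap K R c + algebraMap K R d * t) * (x.1 * y.2 - y.1 * x.2)) := by
  rw [h, ωm_apply, hmat, add_mul, mul_assoc, ← Algebra.smul_def, ← Algebra.smul_def, map_add,
    map_smul, map_smul, smul_eq_mul, smul_eq_mul]

lemma intertwine (hφ' : ∀ a, (∀ s, φ' (s * a) = 0) → a = 0)
    (hu : (algebraMap K R a + algebraMap K R b * t) * u = 1)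
    (h : ∀ x y, ωm t' φ' (γ x) (γ y) = hmat a b c d (ωm t φ x y)) (r : K[X]) (x : R × R) :
    γ (aeval ((algebraMap K R c + algebraMap K R d * t) * u) r • x) = aeval t' r • γ x := by
  have h1 : ∀ x, γ (((algebraMap K R c + algebraMap K R d * t) * u) • x) = t' • γ x := by
    intro x
    rw [← sub_eq_zero]
    apply (pencil_model t' hφ').nondeg
    intro y
    obtain ⟨y, rfl⟩ := γ.surjective y
    have h2 := (pencil_model t' hφ').snd (γ x) (γ y)
    rw [compat_snd γ h] at h2
    rw [map_sub, LinearMap.sub_apply, Prod.fst_sub, compat_fst γ h, sub_eq_zero]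
    refine Eq.trans ?_ h2
    congr 1
    simp only [Prod.smul_fst, Prod.smul_snd, smul_eq_mul]
    linear_combination ((algebraMap K R c + algebraMap K R d * t) * (x.1 * y.2 - y.1 * x.2)) * hu
  have h2 : ∀ (k : ℕ) x,
      γ (((algebraMap K R c + algebraMap K R d * t) * u) ^ k • x) = t' ^ k • γ x := by
    intro k
    induction k with
    | zero => simp
    | succ k ih => intro x; rw [pow_succ, mul_smul, ih, h1, ← mul_smul, ← pow_succ]
  induction r using Polynomial.induction_on' with
  | add r s h3 h4 => rw [map_add, map_add, add_smul, add_smul, map_add, h3, h4]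
  | monomial k e =>
    rw [aeval_monomial, aeval_monomial, mul_smul, mul_smul, algebraMap_smul, algebraMap_smul,
      map_smul, h2]

lemma aeval_eq_zero_of_compat (hφ' : ∀ a, (∀ s, φ' (s * a) = 0) → a = 0)
    (hu : (algebraMap K R a + algebraMap K R b * t) * u = 1)
    (h : ∀ x y, ωm t' φ' (γ x) (γ y) = hmat a b c d (ωm t φ x y)) {r : K[X]}
    (hr : aeval t' r = 0) : aeval ((algebraMap K R c + algebraMap K R d * t) * u) r = 0 := by
  have := intertwine γ hφ' hu h r (1, 0)
  rw [hr, zero_smul, map_eq_zero_iff _ γ.injective] at this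
  simpa using congrArg Prod.fst this

lemma fix_aux (hu : (algebraMap K R a + algebraMap K R b * t) * u = 1)
    (h : ∀ x y, ωm t' φ' (γ x) (γ y) = hmat a b c d (ωm t φ x y)) (y : R × R)
    (hy : πm φ' 1 (γ y) = hmat a b c d (πm φ 1 y)) :
    (ωm t' φ' (γ y) (γ (algebraMap K R a * u, algebraMap K R b * u) - (1, 0))).1 = 0 ∧
      (ωm t' φ' (γ y) (γ (algebraMap K R c * u, algebraMap K R d * u) - (0, 1))).1 = 0 := by
  have key : ∀ (e f : K), (ωm t' φ' (γ y) (γ (algebraMap K R e * u, algebraMap K R f * u))).1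
      = e * -φ y.2 + f * φ y.1 := by
    intro e f
    rw [compat_fst γ h, ← map_neg, ← smul_eq_mul e, ← smul_eq_mul f, ← map_smul, ← map_smul,
      ← map_add, Algebra.smul_def, Algebra.smul_def]
    congr 1
    linear_combination (y.1 * algebraMap K R f - algebraMap K R e * y.2) * hu
  constructor
  · have := congrArg Prod.fst hy
    rw [map_sub, Prod.fst_sub, key, ωm_apply]
    simp only [πm_apply, hmat, one_mul] at this
    simp only [mul_zero, one_mul, zero_sub, map_neg]
    linear_combination -this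
  · have := congrArg Prod.snd hy
    rw [map_sub, Prod.fst_sub, key, ωm_apply]
    simp only [πm_apply, hmat, one_mul] at this
    simp only [zero_mul, mul_one, sub_zero]
    linear_combination -this

lemma fix_vec (hφ' : ∀ a, (∀ s, φ' (s * a) = 0) → a = 0)
    (hu : (algebraMap K R a + algebraMap K R b * t) * u = 1)
    (h : Compat (ωm t φ) (πm φ 1) (ωm t' φ') (πm φ' 1) γ (hmat a b c d)) :
    γ (algebraMap K R a * u, algebraMap K R b * u) = (1, 0) ∧
      γ (algebraMap K R c * u, algebraMap K R d * u) = (0, 1) := by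
  constructor
  · rw [← sub_eq_zero]
    apply (pencil_model t' hφ').nondeg'
    intro y
    obtain ⟨y, rfl⟩ := γ.surjective y
    exact (fix_aux γ hu h.1 y (h.2 y)).1
  · rw [← sub_eq_zero]
    apply (pencil_model t' hφ').nondeg'
    intro y
    obtain ⟨y, rfl⟩ := γ.surjective y
    exact (fix_aux γ hu h.1 y (h.2 y)).2

lemma hmat_add (w w' : K × K) : hmat a b c d (w + w') = hmat a b c d w + hmat a b c d w' :=
  (hlin a b c d).map_add w w'

lemma hmat_smul (k : K) (w : K × K) : hmat a b c d (k • w) = k • hmat a b c d w :=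
  (hlin a b c d).map_smul k w

lemma untwist [Finite R'] (H : Chain K ϖ e) (S : Tw ϖ κ)
    (hφ' : ∀ a, (∀ s, φ' (s * a) = 0) → a = 0) (hs' : ∀ a, ∃ r : K[X], aeval t' r = a)
    (hdet : IsUnit (a * d - b * c))
    (hu : (algebraMap K R a + algebraMap K R b * t) * u = 1)
    (h : Compat (ωm t φ) (qt t φ 1 κ) (ωm t' φ') (qt t' φ' 1 κ) γ (hmat a b c d)) :
    Compat (ωm t φ) (πm φ 1) (ωm t' φ') (πm φ' 1) γ (hmat a b c d) := by
  have P' := pencil_model t' hφ'
  have h1 : ∀ y, ϖ • γ y = 0 → πm φ' 1 (γ y) = hmat a b c d (πm φ 1 y) := by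
    intro y hy
    have h2 := h.2 y
    have hy' : ϖ • y = 0 := by rwa [← map_smul, map_eq_zero_iff _ γ.injective] at hy
    rwa [qt, qt, S.socle _ _ hy, S.socle _ _ hy', add_zero, add_zero] at h2
  obtain ⟨w₁, hw₁⟩ := P'.perp H (w := γ (algebraMap K R a * u, algebraMap K R b * u) - (1, 0))
    (fun v hv => by
      obtain ⟨y, rfl⟩ := γ.surjective v
      exact (fix_aux γ hu h.1 y (h1 y hv)).1)
  obtain ⟨w₂, hw₂⟩ := P'.perp H (w := γ (algebraMap K R c * u, algebraMap K R d * u) - (0, 1))
    (fun v hv => by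
      obtain ⟨y, rfl⟩ := γ.surjective v
      exact (fix_aux γ hu h.1 y (h1 y hv)).2)
  rw [sub_eq_iff_eq_add'] at hw₁ hw₂
  have hi := intertwine γ hφ' hu h.1
  generalize hs : (algebraMap K R c + algebraMap K R d * t) * u = s at hi
  have h3 : ∀ r : K[X], κ * φ' (aeval t' r) = κ * φ (aeval s r * u) := by
    intro r
    have h4 := compat_fst γ h.1 (aeval s r • (algebraMap K R a * u, algebraMap K R b * u))
      (algebraMap K R c * u, algebraMap K R d * u)
    rw [hi, hw₁, hw₂, smul_add, smul_comm] at h4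
    have h5 := congrArg Prod.fst (S.congr (ωm t' φ') (aeval t' r • (1, 0)) (0, 1)
      (aeval t' r • w₁) w₂)
    rw [Prod.smul_fst, Prod.smul_fst, h4, ωm_apply] at h5
    simp only [Prod.smul_mk, smul_eq_mul, mul_one, mul_zero, sub_zero] at h5
    rw [← h5]
    conv_rhs => rw [← S.unit _ hdet, mul_assoc, ← smul_eq_mul (_ - _), ← map_smul,
      Algebra.smul_def, map_sub, map_mul (algebraMap K R), map_mul (algebraMap K R)]
    congr 2
    linear_combination (aeval s r * u * (algebraMap K R a * algebraMap K R d -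
      algebraMap K R b * algebraMap K R c)) * hu
  refine ⟨h.1, fun y => ?_⟩
  have h2 := h.2 y
  rw [qt, qt, hmat_add] at h2
  refine add_right_cancel (h2.trans ?_)
  congr 1
  obtain ⟨r, hr⟩ := hs' (γ y).1
  obtain ⟨r', hr'⟩ := hs' (γ y).2
  have h4 : y = (aeval s r • (algebraMap K R a * u, algebraMap K R b * u) +
      aeval s r' • (algebraMap K R c * u, algebraMap K R d * u)) +
      ϖ • γ.symm (-(aeval t' r • w₁ + aeval t' r' • w₂)) := by
    apply γ.injective
    rw [map_add, map_add, hi, hi, hw₁, hw₂, map_smul, LinearEquiv.apply_symm_apply, hr, hr',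
      smul_add, smul_add, smul_comm _ ϖ, smul_comm _ ϖ, smul_neg, smul_add]
    have : γ y = (γ y).1 • ((1, 0) : R' × R') + (γ y).2 • ((0, 1) : R' × R') := by simp
    conv_lhs => rw [this]
    abel
  have e1 := congrArg (algebraMap K R) (S.quad H (H.unit_row hdet))
  have e2 := congrArg (algebraMap K R) (S.quad H (H.unit_row' hdet))
  have e3 := congrArg (algebraMap K R) (S.unit _ hdet)
  have e4 := congrArg (algebraMap K R) (S.two H)
  simp only [map_mul, map_add, map_sub, map_zero, map_ofNat] at e1 e2 e3 e4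
  have h5 : ∀ z z' : R, algebraMap K R κ * z = algebraMap K R κ * z' → κ * φ z = κ * φ z' := by
    intro z z' hz
    rw [← smul_eq_mul, ← smul_eq_mul, ← map_smul, ← map_smul, Algebra.smul_def,
      Algebra.smul_def, hz]
  have h6 : ∀ (k l : K) (z z' : R), k * φ z + l * φ z' =
      φ (algebraMap K R k * z + algebraMap K R l * z') := by
    intro k l z z'
    rw [← Algebra.smul_def, ← Algebra.smul_def, map_add, map_smul, map_smul, smul_eq_mul,
      smul_eq_mul]
  conv_lhs => rw [h4, S.congr, hmat_smul]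
  rw [βe_apply, βe_apply, ← hr, ← hr', hmat]
  simp only [Prod.smul_mk, smul_eq_mul, one_smul, Prod.mk_add_mk, Prod.mk.injEq, h6]
  have g1 := h3 (r * r' + (r * r + r' * r'))
  have g2 := h3 (X * (r * r' + (r * r + r' * r')))
  simp only [map_mul, map_add, aeval_X] at g1 g2
  simp only [← map_add] at g1 g2
  rw [g1, g2]
  generalize aeval s r = ρ
  generalize aeval s r' = ρ'
  constructor
  · apply h5
    linear_combination (exp := 1) ((algebraMap K R a + algebraMap K R b * t) * u * u) *
      (ρ * ρ * e1 + ρ' * ρ' * e2 + ρ * ρ' * e3 + ρ * ρ' * (algebraMap K R a * algebraMap K R c +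
        algebraMap K R b * algebraMap K R d + algebraMap K R b * algebraMap K R c) * e4) +
      algebraMap K R κ * u * (ρ * ρ' + (ρ * ρ + ρ' * ρ')) * hu
  · apply h5
    linear_combination (exp := 1) ((algebraMap K R c + algebraMap K R d * t) * u * u) *
      (ρ * ρ * e1 + ρ' * ρ' * e2 + ρ * ρ' * e3 + ρ * ρ' * (algebraMap K R a * algebraMap K R c +
        algebraMap K R b * algebraMap K R d + algebraMap K R b * algebraMap K R c) * e4) +
      algebraMap K R κ * u * (ρ * ρ' + (ρ * ρ + ρ' * ρ')) * hs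

end inter

end Pool.Agent.P.MP_0b48ca_al.G
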