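import Pool.Agent.P.MP_0b48ca_al.G.Odd

/-! Normal form, stabiliser and comparison of the models (modulus different from two). -/

namespace Pool.Agent.P.MP_0b48ca_al.G

open Polynomial Function

set_option linter.unusedSectionVars false

variable {K : Type} [CommRing K] {ϖ κ : K} {e : ℕ}

section cyc
variable {R R' : Type} [CommRing R] [Algebra K R] [CommRing R'] [Algebra K R']
  {f g f' g' : K[X]} {hf : f.Monic} {hf' : f'.Monic} {t : R} {φ : R →ₗ[K] K}
  {t' : R'} {φ' : R' →ₗ[K] K}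

lemma Cyc.nontrivial [Nontrivial K] (h : Adm f g) (Y : Cyc hf g t φ) : Nontrivial R := by
  by_contra hR
  rw [not_nontrivial_iff_subsingleton] at hR
  apply hf.not_dvd_of_degree_lt h.ne_zero h.lt
  apply tp_nondeg hf
  intro s
  rw [← Y.val, Subsingleton.elim (aeval t s) 0, map_zero]

/-- the reduction map onto the model -/
noncomputable def Cyc.red (Y : Cyc hf g t φ) : AdjoinRoot f →ₐ[K] R :=
  AdjoinRoot.liftAlgHom f (Algebra.ofId K R) t Y.root

lemma Cyc.red_mk (Y : Cyc hf g t φ) (r : K[X]) : Y.red (AdjoinRoot.mk f r) = aeval t r := rfl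

lemma Cyc.red_surj (Y : Cyc hf g t φ) : Surjective Y.red := by
  intro a
  obtain ⟨r, rfl⟩ := Y.surj a
  exact ⟨_, Y.red_mk r⟩

lemma Cyc.finite [Finite K] (Y : Cyc hf g t φ) : Finite R :=
  have := finite_adjoin hf
  Finite.of_surjective _ Y.red_surj

lemma Cyc.rep [Nontrivial K] (h : Adm f g) (Y : Cyc hf g t φ) : Rep t φ f g := by
  have := Y.nontrivial h
  obtain ⟨b, hb⟩ := exists_rep φ Y.root
  have h1 := hb.expands hf.ne_zero
  simp only [Y.pow] at h1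
  rwa [h1.num_unique (expands_coef hf h.pos h.lt)] at hb

lemma Cyc.exists_unit [Nontrivial K] (h : Adm f g) (Y : Cyc hf g t φ) : ∃ a, IsUnit (φ a) := by
  obtain ⟨P, -, hP⟩ := Y.rep h
  obtain ⟨i, hi⟩ := h.coeff
  rw [hP, coeff_cmap] at hi
  exact ⟨_, hi⟩

lemma Cyc.camina (H : Chain K ϖ e) (h : Adm f g) (Y : Cyc hf g t φ) : Camina (ωm t φ) :=
  camina_model H Y.nondeg (Y.unit h.unit)

lemma Cyc.ω_nondeg (Y : Cyc hf g t φ) (v : R × R) (hv : ωm t φ v = 0) : v = 0 :=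
  (pencil_model t Y.nondeg).nondeg v fun u => by rw [hv]; rfl

lemma Cyc.ω_surj (H : Chain K ϖ e) (h : Adm f g) (Y : Cyc hf g t φ) (w : K × K) :
    ∃ u v, ωm t φ u v = w := by
  have := H.nontrivial
  obtain ⟨a, ha⟩ := Y.exists_unit h
  obtain ⟨k, hk⟩ := ha.exists_right_inv
  obtain ⟨u, hu⟩ := Y.camina H h (a, 0) ((φ ∘ₗ LinearMap.fst K R R).smulRight (k • w))
  refine ⟨_, u, hu.trans ?_⟩
  simp [smul_smul, hk]

lemma compat_hom (ρ : R →ₗ[K] R') (hm : ∀ a b, ρ (a * b) = ρ a * ρ b) (ht : ρ t = t')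
    (hc : ∀ a, φ' (ρ a) = φ a) (ε κ : K) :
    Compat (ωm t φ) (qt t φ ε κ) (ωm t' φ') (qt t' φ' ε κ) (ρ.prodMap ρ) id := by
  constructor
  · intro u v
    simp only [ωm_apply, LinearMap.prodMap_apply, id, ← ht, ← hm, ← map_sub, hc]
  · intro v
    simp only [qt, πm_apply, βe_apply, LinearMap.prodMap_apply, id, ← ht, ← hm, ← map_add,
      ← map_smul ρ, hc]

lemma Cyc.iso (Y : Cyc hf g t φ) (Y' : Cyc hf' g' t' φ') (hco : coef f g = coef f' g') (ε κ : K) :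
    ∃ γ : (R × R) ≃ₗ[K] (R' × R'),
      Compat (ωm t φ) (qt t φ ε κ) (ωm t' φ') (qt t' φ' ε κ) γ id := by
  have h1 : ∀ r : K[X], φ' (aeval t' r) = φ (aeval t r) := by
    intro r
    induction r using Polynomial.induction_on' with
    | add r s h1 h2 => simp [h1, h2]
    | monomial k a =>
      rw [aeval_monomial, aeval_monomial, ← Algebra.smul_def, ← Algebra.smul_def, map_smul,
        map_smul, Y.pow, Y'.pow, hco]
  obtain ⟨E, hE⟩ := equiv_of_ker_eq (aeval t).toLinearMap (aeval t').toLinearMap Y.surj Y'.surj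
    (fun r => by
      change aeval t r = 0 ↔ aeval t' r = 0
      rw [Y.eq_zero_iff, Y'.eq_zero_iff]
      simp only [← Y.val, ← Y'.val, h1])
  have hE' : ∀ r : K[X], E (aeval t r) = aeval t' r := hE
  refine ⟨E.prodCongr E, compat_hom E.toLinearMap (fun a b => ?_) ?_ (fun a => ?_) ε κ⟩
  · obtain ⟨a, rfl⟩ := Y.surj a
    obtain ⟨b, rfl⟩ := Y.surj b
    simp only [LinearEquiv.coe_coe, ← map_mul, hE']
  · simpa using hE' X
  · obtain ⟨a, rfl⟩ := Y.surj a
    rw [LinearEquiv.coe_coe, hE', h1]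

theorem odd_related [Finite K] (H : Chain K ϖ e) (S : Tw ϖ κ) (h : Adm f g) (h' : Adm f' g')
    (Y : Cyc hf g t φ) (Y' : Cyc hf' g' t' φ') {a b c d : K}
    (hdet : IsUnit (a * d - b * c)) (γ : (R × R) ≃ₗ[K] (R' × R'))
    (hc : Compat (ωm t φ) (qt t φ 1 κ) (ωm t' φ') (qt t' φ' 1 κ) γ (hmat a b c d)) :
    mob a b c d (f'.natDegree - 1) g' * f = g * mob a b c d f'.natDegree f' := by
  have := H.nontrivial
  have := Y.nontrivial h
  have := Y'.finite
  obtain ⟨u, hu⟩ := (isUnit_lin H (Y.unit h.unit) (H.unit_row hdet)).exists_right_inv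
  have hφ' := Y'.nondeg
  have hc := untwist γ H S hφ' Y'.surj hdet hu hc
  obtain ⟨h1, h2⟩ := fix_vec γ hφ' hu hc
  obtain ⟨b', hb⟩ := exists_rep (φ ∘ₗ LinearMap.mulLeft K (algebraMap K R (a * d - b * c) * u))
    (aeval_eq_zero_of_compat γ hφ' hu hc.1 Y'.root)
  have h3 := hb.expands hf'.ne_zero
  have h4 : (fun k => (φ ∘ₗ LinearMap.mulLeft K (algebraMap K R (a * d - b * c) * u))
      (((algebraMap K R c + algebraMap K R d * t) * u) ^ k)) = coef f' g' := by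
    ext k
    have h5 := intertwine γ hφ' hu hc.1 (X ^ k) (algebraMap K R a * u, algebraMap K R b * u)
    have h6 := compat_fst γ hc.1 (aeval ((algebraMap K R c + algebraMap K R d * t) * u)
      (X ^ k : K[X]) • (algebraMap K R a * u, algebraMap K R b * u))
      (algebraMap K R c * u, algebraMap K R d * u)
    rw [h5, h1, h2, ωm_apply] at h6
    simp only [aeval_X_pow, Prod.smul_mk, smul_eq_mul, mul_one, mul_zero, sub_zero,
      Y'.pow] at h6
    rw [h6, LinearMap.comp_apply, LinearMap.mulLeft_apply]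
    congr 1
    rw [map_sub, map_mul, map_mul]
    linear_combination (-(algebraMap K R a * algebraMap K R d -
      algebraMap K R b * algebraMap K R c) * u *
      ((algebraMap K R c + algebraMap K R d * t) * u) ^ k) * hu
  rw [h4] at h3
  rw [h3.num_unique (expands_coef hf' h'.pos h'.lt)] at hb
  have := (Y.rep h).cross (hb.mob hu h'.pos)
  linear_combination this

theorem odd_stab [Finite K] (H : Chain K ϖ e) (S : Tw ϖ κ) (Y : Cyc hf g t φ)
    (γ : (R × R) ≃ₗ[K] (R × R))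
    (hc : Compat (ωm t φ) (qt t φ 1 κ) (ωm t φ) (qt t φ 1 κ) γ (hmat 1 0 0 1))
    (v : R × R) : γ v = v := by
  have := Y.finite
  have hφ := Y.nondeg
  have hu : (algebraMap K R 1 + algebraMap K R 0 * t) * 1 = 1 := by simp
  have hc := untwist γ H S hφ Y.surj (by simp) hu hc
  obtain ⟨h1, h2⟩ := fix_vec γ hφ hu hc
  have h3 := intertwine γ hφ hu hc.1
  simp only [map_one, map_zero, mul_one, one_mul, zero_add] at h1 h2 h3
  obtain ⟨r, s⟩ := v
  obtain ⟨r, rfl⟩ := Y.surj r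
  obtain ⟨s, rfl⟩ := Y.surj s
  have : (aeval t r, aeval t s) = aeval t r • ((1, 0) : R × R) + aeval t s • (0, 1) := by simp
  rw [this, map_add, h3, h3, h1, h2]

end cyc

/-- the class of `X` in the reduced algebra -/
noncomputable abbrev tq (f g : K[X]) : K[X] ⧸ den f g := Ideal.Quotient.mk (den f g) X

variable {V : Type} [AddCommGroup V] [Module K V]

lemma Pencil.gen [Finite K] [Finite V] (H : Chain K ϖ e) {ω : V →ₗ[K] V →ₗ[K] K × K}
    {T : Module.End K V} (P : Pencil ω T) {q : V → K × K} {u₁ u₂ : V}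
    (hq : ∀ x v, ϖ • v = 0 → q (x + v) = q x + ((ω v u₁).1, (ω v u₂).1))
    (h3 : ∀ γ : V ≃ₗ[K] V, Compat ω q ω q γ id → ∀ v, γ v = v) (v : V) :
    ∃ r s : K[X], v = aeval T r u₁ + aeval T s u₂ := by
  let A := (LinearMap.applyₗ u₁ ∘ₗ (aeval T).toLinearMap).coprod
      (LinearMap.applyₗ u₂ ∘ₗ (aeval T).toLinearMap)
  by_contra hne
  obtain ⟨φ, hφ0, hφ⟩ := H.separate (LinearMap.range A) (v := v)
    (fun ⟨⟨r, s⟩, h⟩ => hne ⟨r, s, h.symm⟩)
  obtain ⟨w, hw⟩ := P.exists_vec H φ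
  obtain ⟨j, hj0, hj⟩ := H.exists_socle (v := w) (by
    rintro rfl
    exact hφ0 (by rw [hw]; simp))
  obtain ⟨γ, e1, e2, x, hx⟩ := P.transvection_socle H hj0 hj
  refine hx (h3 γ ⟨e2, fun y => ?_⟩ x)
  obtain ⟨s, hs⟩ := e1 y
  have h1 := hφ _ ⟨(s, 0), rfl⟩
  have h2 := hφ _ ⟨(0, s), rfl⟩
  simp only [A, hw, LinearMap.coprod_apply, map_zero, add_zero, zero_add, LinearMap.comp_apply,
    AlgHom.toLinearMap_apply, LinearMap.applyₗ_apply_apply] at h1 h2
  rw [hs, hq _ _ (by rw [← map_smul, hj, map_zero]), id, add_eq_left, P.adj_aeval, P.adj_aeval,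
    P.skew, P.skew (ϖ ^ j • w), map_smul, map_smul]
  simp [h1, h2]

theorem odd_normal_form [Finite K] [Finite V] (H : Chain K ϖ e) (S : Tw ϖ κ)
    {ω : V →ₗ[K] V →ₗ[K] K × K} (h1 : ∀ v, ω v v = 0) (h2 : Camina ω) {q : V → K × K}
    (hq : ∀ u v, q (u + v) = q u + q v + κ • ω v u) (hq' : ∀ (a : K) v, q (a • v) = a • q v)
    (hs : ∃ u v, IsUnit (ω u v).1)
    (h3 : ∀ γ : V ≃ₗ[K] V, Compat ω q ω q γ id → ∀ v, γ v = v) :
    ∃ (f g : K[X]) (h : Adm f g) (Ψ : ((K[X] ⧸ den f g) × (K[X] ⧸ den f g)) ≃ₗ[K] V),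
      Compat (ωm (tq f g) (cq h.monic g)) (qt (tq f g) (cq h.monic g) 1 κ) ω q Ψ id := by
  obtain ⟨T, P⟩ := exists_pencil H h1 h2
  obtain ⟨f, hf, hT, hunit⟩ := P.exists_poly H h2
  let U := LinearMap.ker (ϖ • LinearMap.id : V →ₗ[K] V)
  let π₀ : U →ₗ[K] K × K :=
    { toFun := fun v => q v
      map_add' := fun u v => by
        rw [Submodule.coe_add, hq, S.socle ω _ (v := v) v.2, add_zero]
      map_smul' := fun a v => hq' a v }
  obtain ⟨π₁, hπ₁⟩ := H.extend U.subtype Subtype.val_injective π₀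
  obtain ⟨u₁, hu₁⟩ := P.exists_vec H (LinearMap.fst K K K ∘ₗ π₁)
  obtain ⟨u₂, hu₂⟩ := P.exists_vec H (LinearMap.snd K K K ∘ₗ π₁)
  have hsoc : ∀ v, ϖ • v = 0 → q v = ((ω v u₁).1, (ω v u₂).1) := by
    intro v hv
    rw [← hu₁, ← hu₂]
    exact (hπ₁ ⟨v, hv⟩).symm
  have hgen := P.gen H (q := q) (u₁ := u₁) (u₂ := u₂) (fun x v hv => by
    rw [hq, S.socle ω _ hv, add_zero, hsoc v hv]) h3
  obtain ⟨g₀, -, hg₀⟩ := Pencil.exists_num H (ω := ω) hf hT u₁ u₂
  have Y₀ := cyc_q hf g₀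
  obtain ⟨Ψ₀, hΨ₀, hω₀⟩ := P.normal_form hgen hg₀ Y₀
  generalize Ideal.Quotient.mk (den f g₀) X = t₀ at Y₀ hΨ₀ hω₀
  generalize cq hf g₀ = c₀ at Y₀ hω₀
  let π : V →ₗ[K] K × K :=
    { toFun := fun v => q v - κ • βe t₀ c₀ 1 (Ψ₀.symm v) (Ψ₀.symm v)
      map_add' := fun u v => by
        obtain ⟨u, rfl⟩ := Ψ₀.surjective u
        obtain ⟨v, rfl⟩ := Ψ₀.surjective v
        rw [hq, hω₀, ← βe_sub_flip t₀ c₀ 1, ← map_add]
        simp only [LinearEquiv.symm_apply_apply, map_add, LinearMap.add_apply,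
          LinearMap.sub_apply, LinearMap.flip_apply, smul_add, smul_sub]
        have : κ • βe t₀ c₀ 1 u v + κ • βe t₀ c₀ 1 u v = 0 := by
          rw [← add_smul, ← mul_two, S.two H, zero_smul]
        rw [← sub_eq_zero, ← neg_eq_zero, ← this]
        abel
      map_smul' := fun a v => by
        simp only [hq', map_smul, LinearMap.smul_apply, RingHom.id_apply, smul_sub, smul_smul]
        rw [S.sq H, mul_comm] }
  obtain ⟨v₁, hv₁⟩ := P.exists_vec H (LinearMap.fst K K K ∘ₗ π)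
  obtain ⟨v₂, hv₂⟩ := P.exists_vec H (LinearMap.snd K K K ∘ₗ π)
  have hπ : ∀ v, q v = ((ω v v₁).1, (ω v v₂).1) + κ • βe t₀ c₀ 1 (Ψ₀.symm v) (Ψ₀.symm v) := by
    intro v
    rw [← hv₁, ← hv₂, ← sub_eq_iff_eq_add]
    rfl
  have hsoc' : ∀ v, ϖ • v = 0 → (ω v (v₁ - u₁)).1 = 0 ∧ (ω v (v₂ - u₂)).1 = 0 := by
    intro v hv
    have := hπ v
    rw [hsoc v hv, S.socle _ _ (by rw [← map_smul, hv, map_zero]), add_zero, Prod.mk.injEq] at this
    simp [this.1, this.2]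
  obtain ⟨w₁, hw₁⟩ := P.perp H fun v hv => (hsoc' v hv).1
  obtain ⟨w₂, hw₂⟩ := P.perp H fun v hv => (hsoc' v hv).2
  rw [sub_eq_iff_eq_add'] at hw₁ hw₂
  have hmix : ∀ r s : K[X], aeval T r v₁ + aeval T s v₂ = (aeval T r u₁ + aeval T s u₂) +
      ϖ • (aeval T r w₁ + aeval T s w₂) := by
    intro r s
    rw [hw₁, hw₂, map_add, map_add, map_smul, map_smul, smul_add]
    abel
  have hgen' : ∀ v, ∃ r s : K[X], v = aeval T r v₁ + aeval T s v₂ := by
    intro v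
    obtain ⟨⟨r, s⟩, h⟩ := H.nakayama (LinearMap.range
      ((LinearMap.applyₗ v₁ ∘ₗ (aeval T).toLinearMap).coprod
        (LinearMap.applyₗ v₂ ∘ₗ (aeval T).toLinearMap))) (fun v => by
      obtain ⟨r, s, rfl⟩ := hgen v
      refine ⟨_, ⟨(r, s), rfl⟩, -(aeval T r w₁ + aeval T s w₂), ?_⟩
      change _ = aeval T r v₁ + aeval T s v₂ + _
      rw [hmix, smul_neg, add_neg_cancel_right]) v
    exact ⟨r, s, h.symm⟩
  obtain ⟨g, hlt, hg⟩ := Pencil.exists_num H (ω := ω) hf hT v₁ v₂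
  have Y := cyc_q hf g
  obtain ⟨Ψ, hΨ, hω⟩ := P.normal_form hgen' hg Y
  refine ⟨f, g, ⟨hf, hunit, hlt, ?_⟩, Ψ, hω, ?_⟩
  · by_contra hne
    push Not at hne
    obtain ⟨g₁, hg₁⟩ := (C_dvd_iff_dvd_coeff _ _).2 fun i => H.dvd_of_not_unit (hne i)
    obtain ⟨u, v, huv⟩ := hs
    obtain ⟨u, rfl⟩ := Ψ.surjective u
    obtain ⟨v, rfl⟩ := Ψ.surjective v
    rw [hω, ωm_apply] at huv
    obtain ⟨r, hr⟩ := Y.surj (u.1 * v.2 - v.1 * u.2)
    rw [← hr, Y.val] at huv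
    apply H.not_unit _ huv
    rw [hg₁, mul_left_comm, tp_C_mul]
    exact dvd_mul_right _ _
  · rintro ⟨r, s⟩
    obtain ⟨r, rfl⟩ := Y.surj r
    obtain ⟨s, rfl⟩ := Y.surj s
    have e1 : Ψ (1, 0) = v₁ := by simpa using hΨ 1 0
    have e2 : Ψ (0, 1) = v₂ := by simpa using hΨ 0 1
    have e3 : ∀ r : K[X], κ * c₀ (aeval t₀ r) = κ * cq hf g (aeval (tq f g) r) := by
      intro r
      have := congrArg Prod.fst (S.congr ω (aeval T r u₁) u₂ (aeval T r w₁) w₂)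
      rw [← map_smul (aeval T r), ← map_add, ← hw₁, ← hw₂, Prod.smul_fst, Prod.smul_fst, hg, hg₀] at this
      rw [Y₀.val, Y.val]
      exact this.symm
    rw [hπ, id, qt]
    congr 1
    · rw [← e1, ← e2, hω, hω, ωm_apply, ωm_apply]
      simp [πm_apply]
    · rw [hΨ, hmix, ← hΨ₀, map_add, map_smul, LinearEquiv.symm_apply_apply, S.congr,
        βe_apply, βe_apply]
      have g1 := e3 (r * s + (r * r + s * s))
      have g2 := e3 (X * (r * s + (r * r + s * s)))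
      simp only [map_mul (aeval _), map_add (aeval _), aeval_X] at g1 g2
      simp only [Prod.smul_mk, smul_eq_mul, one_smul, g1, g2]

end Pool.Agent.P.MP_0b48ca_al.G
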