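import Pool.Agent.P.MP_0b48ca_al.G.Poly
import Pool.Agent.P.MP_0b48ca_al.G.Ext2
import Pool.Agent.P.MP_0b48ca_al.G.Chain

/-! Pencils of alternating forms: the operator `T`, transvections, the cyclic model. -/

namespace Pool.Agent.P.MP_0b48ca_al.G

open Polynomial Function

set_option linter.unusedSectionVars false

variable {K : Type} [CommRing K] {ϖ : K} {e : ℕ}

lemma equiv_of_ker_eq {A B C : Type} [AddCommGroup A] [Module K A] [AddCommGroup B] [Module K B]
    [AddCommGroup C] [Module K C] (f : A →ₗ[K] B) (g : A →ₗ[K] C) (hf : Surjective f)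
    (hg : Surjective g) (h : ∀ x, f x = 0 ↔ g x = 0) : ∃ E : B ≃ₗ[K] C, ∀ x, E (f x) = g x := by
  refine ⟨(f.quotKerEquivOfSurjective hf).symm ≪≫ₗ
    Submodule.quotEquivOfEq _ _ (by ext x; rw [LinearMap.mem_ker, LinearMap.mem_ker, h]) ≪≫ₗ g.quotKerEquivOfSurjective hg,
    fun x => ?_⟩
  have : (f.quotKerEquivOfSurjective hf).symm (f x) = Submodule.Quotient.mk x := by
    rw [LinearEquiv.symm_apply_eq]; rfl
  rw [LinearEquiv.trans_apply, LinearEquiv.trans_apply, this]
  rfl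

lemma Chain.inj (H : Chain K ϖ e) : Inj K (K × K) := fun _ _ _ J hJ =>
  H.extend J hJ LinearMap.id

section tau
variable {m : K[X]}

/-- top coefficient of the remainder -/
noncomputable def tau (hm : m.Monic) : AdjoinRoot m →ₗ[K] K :=
  (lcoeff K (m.natDegree - 1)) ∘ₗ AdjoinRoot.modByMonicHom hm

lemma tau_mk (hm : m.Monic) (h : K[X]) :
    tau hm (AdjoinRoot.mk m h) = (h %ₘ m).coeff (m.natDegree - 1) := rfl

lemma tau_nondeg (hm : m.Monic) (a : AdjoinRoot m) (h : ∀ s, tau hm (s * a) = 0) : a = 0 := by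
  rcases subsingleton_or_nontrivial K with hK | hK
  · obtain ⟨r, rfl⟩ := AdjoinRoot.mk_surjective a
    rw [Subsingleton.elim r 0, map_zero]
  by_contra ha
  obtain ⟨r, hr, rfl⟩ : ∃ r : K[X], r.degree < m.degree ∧ AdjoinRoot.mk m r = a := by
    obtain ⟨r, rfl⟩ := AdjoinRoot.mk_surjective a
    exact ⟨r %ₘ m, degree_modByMonic_lt _ hm, AdjoinRoot.mk_leftInverse hm (AdjoinRoot.mk m r)⟩
  have hr0 : r ≠ 0 := by rintro rfl; simp at ha
  have h1 := natDegree_lt_natDegree hr0 hr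
  have h2 := h (AdjoinRoot.mk m (X ^ (m.natDegree - 1 - r.natDegree)))
  rw [← map_mul, tau_mk, (modByMonic_eq_self_iff hm).2, coeff_X_pow_mul', if_pos (by omega),
    show m.natDegree - 1 - (m.natDegree - 1 - r.natDegree) = r.natDegree by omega] at h2
  · exact hr0 (leadingCoeff_eq_zero.1 h2)
  · rw [mul_comm, (monic_X_pow _).degree_mul, degree_X_pow, degree_eq_natDegree hr0,
      degree_eq_natDegree hm.ne_zero]
    norm_cast
    omega

lemma finite_adjoin [Finite K] (hm : m.Monic) : Finite (AdjoinRoot m) :=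
  have := (AdjoinRoot.powerBasis' hm).finite
  Module.finite_of_finite K

lemma tau_dual [Finite K] (H : Chain K ϖ e) (hm : m.Monic) : ∃ Φ : (AdjoinRoot m →ₗ[K] K) →ₗ[K] AdjoinRoot m,
    ∀ φ s, tau hm (s * Φ φ) = φ s := by
  have := finite_adjoin hm
  obtain ⟨Φ, h⟩ := H.exists_dual ((LinearMap.mul K (AdjoinRoot m)).compr₂ (tau hm)) (by
    intro u hu
    apply tau_nondeg hm
    intro s
    rw [mul_comm]
    exact hu s)
  exact ⟨Φ, fun φ s => by rw [mul_comm]; exact h φ s⟩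

lemma tau_ext (hm : m.Monic) {a b : AdjoinRoot m}
    (h : ∀ s : K[X], tau hm (AdjoinRoot.mk m s * a) = tau hm (AdjoinRoot.mk m s * b)) : a = b := by
  rw [← sub_eq_zero]
  apply tau_nondeg hm
  intro s
  obtain ⟨s, rfl⟩ := AdjoinRoot.mk_surjective s
  rw [mul_sub, map_sub, h, sub_self]

lemma mk_C_mul_eq_zero (hm : m.Monic) (a : K) (s : K[X]) :
    AdjoinRoot.mk m (C a * s) = 0 ↔ ∀ i, a * (s %ₘ m).coeff i = 0 := by
  rw [AdjoinRoot.mk_eq_zero, ← modByMonic_eq_zero_iff_dvd hm, ← smul_eq_C_mul, smul_modByMonic,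
    Polynomial.ext_iff]
  simp

/-- `tau` on polynomials -/
noncomputable def tp (hf : m.Monic) (h : K[X]) : K := tau hf (AdjoinRoot.mk m h)

lemma tp_add (hf : m.Monic) (a b : K[X]) : tp hf (a + b) = tp hf a + tp hf b := by
  simp [tp]

lemma tp_neg (hf : m.Monic) (a : K[X]) : tp hf (-a) = -tp hf a := by
  simp [tp]

lemma tp_sub (hf : m.Monic) (a b : K[X]) : tp hf (a - b) = tp hf a - tp hf b := by
  simp [tp]

lemma tp_C_mul (hf : m.Monic) (a : K) (b : K[X]) : tp hf (C a * b) = a * tp hf b := by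
  rw [tp, tp, ← smul_eq_C_mul, ← AdjoinRoot.smul_mk, map_smul, smul_eq_mul]

lemma tp_of_dvd (hf : m.Monic) {a : K[X]} (h : m ∣ a) : tp hf a = 0 := by
  rw [tp, AdjoinRoot.mk_eq_zero.2 h, map_zero]

lemma tp_nondeg (hf : m.Monic) {a : K[X]} (h : ∀ s, tp hf (s * a) = 0) : m ∣ a := by
  rw [← AdjoinRoot.mk_eq_zero]
  apply tau_nondeg hf
  intro s
  obtain ⟨s, rfl⟩ := AdjoinRoot.mk_surjective s
  rw [← map_mul]
  exact h s

lemma tp_pow (hf : m.Monic) (g : K[X]) (k : ℕ) : tp hf (X ^ k * g) = coef m g k := by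
  rw [tp, tau_mk, coef, mul_comm]

lemma exists_tp [Finite K] (H : Chain K ϖ e) (hf : m.Monic) (φ : AdjoinRoot m →ₗ[K] K) :
    ∃ a : K[X], a.degree < m.degree ∧ ∀ s, φ (AdjoinRoot.mk m s) = tp hf (s * a) := by
  have := H.nontrivial
  obtain ⟨Φ, hΦ⟩ := tau_dual H hf
  obtain ⟨g, hg⟩ := AdjoinRoot.mk_surjective (Φ φ)
  refine ⟨g %ₘ m, degree_modByMonic_lt _ hf, fun s => ?_⟩
  rw [← hΦ, ← hg, tp, map_mul (AdjoinRoot.mk m)]
  congr 2
  exact (AdjoinRoot.mk_leftInverse hf (AdjoinRoot.mk m g)).symm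

end tau

variable {V : Type} [AddCommGroup V] [Module K V]

/-- `s ↦ s(T) v` -/
noncomputable def act (T : Module.End K V) (v : V) {m : K[X]} (hm : m.Monic) :
    AdjoinRoot m →ₗ[K] V :=
  (LinearMap.applyₗ v) ∘ₗ (aeval T).toLinearMap ∘ₗ AdjoinRoot.modByMonicHom hm

lemma act_mk {T : Module.End K V} {v : V} {m : K[X]} (hm : m.Monic) (h : aeval T m v = 0)
    (r : K[X]) : act T v hm (AdjoinRoot.mk m r) = aeval T r v := by
  change aeval T (r %ₘ m) v = _
  rw [modByMonic_eq_sub_mul_div, map_sub, mul_comm, map_mul, LinearMap.sub_apply,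
    Module.End.mul_apply, h, map_zero, sub_zero]

lemma aeval_act {T : Module.End K V} {v : V} {m : K[X]} (hm : m.Monic) (h : aeval T m v = 0)
    (r : K[X]) (a : AdjoinRoot m) :
    aeval T r (act T v hm a) = act T v hm (AdjoinRoot.mk m r * a) := by
  obtain ⟨s, rfl⟩ := AdjoinRoot.mk_surjective a
  rw [← map_mul, act_mk hm h, act_mk hm h, map_mul, Module.End.mul_apply]

lemma aeval_C_mul_apply (T : Module.End K V) (a : K) (r : K[X]) (v : V) :
    aeval T (C a * r) v = aeval T r (a • v) := by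
  rw [map_mul, aeval_C, Module.End.mul_apply, map_smul]
  rfl

lemma exists_ann [Finite V] (H : Chain K ϖ e) (T : Module.End K V) {v : V} (hv : ϖ • v = 0) :
    ∃ m : K[X], m.Monic ∧ aeval T m v = 0 ∧ ∀ r, aeval T r v = 0 → C ϖ ∣ r %ₘ m := by
  classical
  have := H.nontrivial
  have hex : ∃ n, ∃ m : K[X], m.Monic ∧ aeval T m v = 0 ∧ m.natDegree = n := by
    obtain ⟨m, hm, h⟩ := LinearMap.exists_monic_and_aeval_eq_zero K T
    exact ⟨_, m, hm, by rw [h, LinearMap.zero_apply], rfl⟩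
  obtain ⟨m, hm, h1, h2⟩ := Nat.find_spec hex
  have key : ∀ n, ∀ r : K[X], r.support.card = n → r.degree < m.degree → aeval T r v = 0 →
      C ϖ ∣ r := by
    intro n
    induction n using Nat.strong_induction_on with
    | _ n ih =>
      intro r hn hd hr
      rcases eq_or_ne r 0 with rfl | hr0
      · simp
      rcases H.unit_or r.leadingCoeff with hu | ⟨c, hc⟩
      · exfalso
        obtain ⟨u, hu⟩ := hu.exists_left_inv
        refine Nat.find_min hex (m := (C u * r).natDegree) ?_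
          ⟨C u * r, monic_C_mul_of_mul_leadingCoeff_eq_one hu, ?_, rfl⟩
        · rw [← h2]
          exact (natDegree_C_mul_le _ _).trans_lt (natDegree_lt_natDegree hr0 hd)
        · rw [map_mul, Module.End.mul_apply, hr, map_zero]
      · have h3 := eraseLead_add_C_mul_X_pow r
        rw [hc, map_mul, mul_assoc] at h3
        rw [← h3]
        refine dvd_add (ih _ (hn ▸ eraseLead_support_card_lt hr0) _ rfl
          ((degree_eraseLead_lt hr0).trans hd) ?_) (dvd_mul_right _ _)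
        rw [← h3, map_add, LinearMap.add_apply, aeval_C_mul_apply, hv, map_zero, add_zero] at hr
        exact hr
  refine ⟨m, hm, h1, fun r hr => key _ _ rfl (degree_modByMonic_lt _ hm) ?_⟩
  rw [← hr, ← act_mk hm h1 r]
  rfl

/-- a pair of alternating forms with the first nondegenerate and the second given by `T` -/
structure Pencil (ω : V →ₗ[K] V →ₗ[K] K × K) (T : Module.End K V) : Prop where
  alt : ∀ v, ω v v = 0
  nondeg : ∀ u, (∀ v, (ω u v).1 = 0) → u = 0
  snd : ∀ u v, (ω u v).2 = (ω (T u) v).1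

lemma exists_pencil [Finite V] (H : Chain K ϖ e) {ω : V →ₗ[K] V →ₗ[K] K × K}
    (h1 : ∀ v, ω v v = 0) (h2 : Camina ω) : ∃ T, Pencil ω T := by
  have hn : ∀ u, (∀ v, (ω u v).1 = 0) → u = 0 := by
    intro u hu
    by_contra h0
    obtain ⟨φ, hφ⟩ := H.cogen h0
    obtain ⟨v, hv⟩ := h2 u (φ.prod 0)
    have := hu v
    rw [hv] at this
    exact hφ this
  obtain ⟨Φ, hΦ⟩ := H.exists_dual (ω.compr₂ (LinearMap.fst K K K)) hn
  exact ⟨Φ ∘ₗ ω.compr₂ (LinearMap.snd K K K), h1, hn,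
    fun u v => (hΦ (ω.compr₂ (LinearMap.snd K K K) u) v).symm⟩

namespace Pencil
variable {ω : V →ₗ[K] V →ₗ[K] K × K} {T : Module.End K V} (P : Pencil ω T)
include P

lemma skew (u v : V) : ω u v = -ω v u := by
  have := P.alt (u + v)
  simp only [map_add, LinearMap.add_apply, P.alt, zero_add, add_zero] at this
  exact eq_neg_of_add_eq_zero_right this

lemma adj (u v : V) : (ω (T u) v).1 = (ω u (T v)).1 := by
  rw [← P.snd, P.skew u v, P.skew u (T v), Prod.snd_neg, Prod.fst_neg, P.snd]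

lemma adj_pow (k : ℕ) (u v : V) : (ω ((T ^ k) u) v).1 = (ω u ((T ^ k) v)).1 := by
  induction k generalizing u v with
  | zero => simp
  | succ k ih => rw [pow_succ, Module.End.mul_apply, ih, P.adj, ← Module.End.mul_apply, ← pow_succ',
      pow_succ]

lemma adj_aeval (r : K[X]) (u v : V) : (ω (aeval T r u) v).1 = (ω u (aeval T r v)).1 := by
  induction r using Polynomial.induction_on' with
  | add r s h1 h2 => simp [h1, h2]
  | monomial k a => simp [aeval_monomial, P.adj_pow]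

lemma iso_pow (k : ℕ) (v : V) : (ω ((T ^ k) v) v).1 = 0 := by
  obtain ⟨j, rfl | rfl⟩ := Nat.even_or_odd' k
  · rw [two_mul, pow_add, Module.End.mul_apply, P.adj_pow, P.alt]; rfl
  · rw [two_mul, add_assoc, pow_add, Module.End.mul_apply, P.adj_pow, pow_succ',
      Module.End.mul_apply, ← P.snd, P.alt]; rfl

lemma iso (r s : K[X]) (v : V) : (ω (aeval T r v) (aeval T s v)).1 = 0 := by
  rw [← P.adj_aeval, ← Module.End.mul_apply, ← map_mul]
  induction s * r using Polynomial.induction_on' with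
  | add r s h1 h2 => simp [h1, h2]
  | monomial k a => simp [aeval_monomial, P.iso_pow]

lemma nondeg' (v : V) (h : ∀ u, (ω u v).1 = 0) : v = 0 :=
  P.nondeg v fun u => by rw [P.skew, Prod.fst_neg, h, neg_zero]

lemma exists_vec [Finite V] (H : Chain K ϖ e) (φ : V →ₗ[K] K) :
    ∃ u, ∀ v, φ v = (ω v u).1 := by
  obtain ⟨Φ, hΦ⟩ := H.exists_dual (ω.compr₂ (LinearMap.fst K K K)) P.nondeg
  refine ⟨Φ (-φ), fun v => ?_⟩
  have : (ω (Φ (-φ)) v).1 = -φ v := hΦ (-φ) v
  rw [P.skew, Prod.fst_neg, this, neg_neg]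

lemma no_eigen (H : Chain K ϖ e) (hc : Camina ω) (a : K) (v : V) (hv : T v = a • v) : v = 0 := by
  by_contra h0
  obtain ⟨φ, hφ⟩ := H.cogen h0
  obtain ⟨u, hu⟩ := hc v (LinearMap.prod 0 φ)
  have h1 := P.snd v u
  rw [hv, map_smul, LinearMap.smul_apply, hu] at h1
  exact hφ (by simpa using h1)

lemma exists_poly [Finite V] (H : Chain K ϖ e) (hcam : Camina ω) :
    ∃ f : K[X], f.Monic ∧ aeval T f = 0 ∧ ∀ a, IsUnit (f.eval a) := by
  classical
  have := H.nontrivial
  have hex : ∃ n, ∃ m : K[X], m.Monic ∧ (∀ v, ∃ w, aeval T m v = ϖ • w) ∧ m.natDegree = n := by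
    obtain ⟨m, hm, h⟩ := LinearMap.exists_monic_and_aeval_eq_zero K T
    exact ⟨_, m, hm, fun v => ⟨0, by simp [h]⟩, rfl⟩
  obtain ⟨m, hm, h1, h2⟩ := Nat.find_spec hex
  refine ⟨m ^ (e + 1), hm.pow _, ?_, fun a => ?_⟩
  · have : ∀ j : ℕ, ∀ v, ∃ w, aeval T (m ^ j) v = ϖ ^ j • w := by
      intro j
      induction j with
      | zero => intro v; exact ⟨v, by simp⟩
      | succ j ih =>
        intro v
        obtain ⟨w, hw⟩ := ih v
        obtain ⟨w', hw'⟩ := h1 w
        exact ⟨w', by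
          rw [pow_succ', map_mul, Module.End.mul_apply, hw, map_smul, hw', pow_succ, mul_smul]⟩
    ext v
    obtain ⟨w, hw⟩ := this (e + 1) v
    rw [hw, H.nilp, zero_smul, LinearMap.zero_apply]
  · rw [eval_pow]
    apply IsUnit.pow
    rcases H.unit_or (m.eval a) with h | ⟨c, hc⟩
    · exact h
    exfalso
    have hd : m.natDegree ≠ 0 := by
      intro h0
      rw [hm.natDegree_eq_zero.1 h0, eval_one] at hc
      exact H.not_unit ⟨c, hc⟩ isUnit_one
    have h3 := modByMonic_add_div m (X - C a)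
    rw [modByMonic_X_sub_C_eq_C_eval, hc] at h3
    have hi : Injective (aeval T (X - C a)) := by
      rw [injective_iff_map_eq_zero]
      intro v hv
      apply P.no_eigen H hcam a
      simpa [sub_eq_zero] using hv
    have h4 : (m /ₘ (X - C a)).natDegree = m.natDegree - 1 := by
      rw [natDegree_divByMonic _ (monic_X_sub_C a), natDegree_X_sub_C]
    refine Nat.find_min hex (m := m.natDegree - 1) (by omega) ⟨m /ₘ (X - C a), ?_, fun v => ?_, h4⟩
    · rw [Monic, leadingCoeff_divByMonic_of_monic (monic_X_sub_C a) (by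
        rw [degree_eq_natDegree hm.ne_zero, degree_X_sub_C]
        exact_mod_cast Nat.one_le_iff_ne_zero.2 hd)]
      exact hm
    · obtain ⟨v, rfl⟩ := Finite.injective_iff_surjective.1 hi v
      obtain ⟨w, hw⟩ := h1 v
      refine ⟨w - c • v, ?_⟩
      rw [← h3, map_add, LinearMap.add_apply, mul_comm (X - C a), map_mul _ (m /ₘ _),
        Module.End.mul_apply] at hw
      rw [smul_sub, ← hw, smul_smul, aeval_C, Module.algebraMap_end_apply, add_sub_cancel_left]

/-- the `K[T]`-valued pairing with `v` -/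
lemma exists_Om [Finite K] (H : Chain K ϖ e) {v : V} {m : K[X]} (hm : m.Monic) (h : aeval T m v = 0) :
    ∃ Ω : V →ₗ[K] AdjoinRoot m, (∀ x a, tau hm (a * Ω x) = (ω x (act T v hm a)).1) ∧
      (∀ x r, Ω (aeval T r x) = AdjoinRoot.mk m r * Ω x) ∧ ∀ a, Ω (act T v hm a) = 0 := by
  obtain ⟨Φ, hΦ⟩ := tau_dual H hm
  let Ω : V →ₗ[K] AdjoinRoot m :=
    Φ ∘ₗ (ω.compr₂ (LinearMap.fst K K K)).compl₂ (act T v hm)
  have h1 : ∀ x a, tau hm (a * Ω x) = (ω x (act T v hm a)).1 := fun x a => hΦ _ a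
  refine ⟨Ω, h1, fun x r => tau_ext hm fun s => ?_, fun a => tau_nondeg hm _ fun s => ?_⟩
  · rw [← mul_assoc, h1, h1, P.adj_aeval, aeval_act hm h, mul_comm]
  · obtain ⟨a, rfl⟩ := AdjoinRoot.mk_surjective a
    obtain ⟨s, rfl⟩ := AdjoinRoot.mk_surjective s
    rw [h1, act_mk hm h, act_mk hm h, P.iso]

lemma isom_of (N : V →ₗ[K] V) (h1 : ∀ x, T (N x) = N (T x))
    (h2 : ∀ x y, (ω x (N y)).1 = (ω y (N x)).1) (h3 : ∀ x y, (ω (N x) (N y)).1 = 0) :
    ∃ γ : V ≃ₗ[K] V, (∀ x, γ x = x + N x) ∧ ∀ x y, ω (γ x) (γ y) = ω x y := by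
  have hNN : ∀ x, N (N x) = 0 := fun x => P.nondeg' _ fun y => by rw [h2, h3]
  have hfst : ∀ x y, (ω (x + N x) (y + N y)).1 = (ω x y).1 := by
    intro x y
    simp only [map_add, LinearMap.add_apply, Prod.fst_add]
    rw [P.skew (N x) y, Prod.fst_neg, h3, h2]
    ring
  refine ⟨LinearEquiv.ofLinearMap (LinearMap.id + N) (LinearMap.id - N) ?_ ?_, fun x => rfl, ?_⟩
  · ext x; simp [hNN]
  · ext x; simp [hNN]
  · intro x y
    change ω (x + N x) (y + N y) = ω x y
    apply Prod.ext (hfst x y)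
    rw [P.snd, P.snd, ← hfst (T x) y, map_add T, h1]

/-- transvections of the pencil -/
lemma transvection {v : V} {m : K[X]} (hm : m.Monic) (h : aeval T m v = 0)
    {Ω : V →ₗ[K] AdjoinRoot m} (h1 : ∀ x a, tau hm (a * Ω x) = (ω x (act T v hm a)).1)
    (h2 : ∀ x r, Ω (aeval T r x) = AdjoinRoot.mk m r * Ω x) (h3 : ∀ a, Ω (act T v hm a) = 0)
    (r : AdjoinRoot m) :
    ∃ γ : V ≃ₗ[K] V, (∀ x, γ x = x + act T v hm (r * Ω x)) ∧ ∀ x y, ω (γ x) (γ y) = ω x y := by
  let N : V →ₗ[K] V := act T v hm ∘ₗ LinearMap.mulLeft K r ∘ₗ Ω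
  have hN : ∀ x, N x = act T v hm (r * Ω x) := fun x => rfl
  refine P.isom_of N (fun x => ?_) (fun x y => ?_) (fun x y => ?_)
  · have e1 := aeval_act hm h X (r * Ω x)
    have e2 := h2 x X
    rw [aeval_X] at e1 e2
    rw [hN, hN, e1, e2, mul_left_comm]
  · rw [hN, hN, ← h1, ← h1, mul_right_comm]
  · rw [hN y, ← h1, hN, h3, mul_zero, map_zero]

/-- a nontrivial transvection along a vector killed by the uniformiser -/
lemma transvection_socle [Finite K] [Finite V] (H : Chain K ϖ e) {v : V} (hv0 : v ≠ 0)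
    (hv : ϖ • v = 0) :
    ∃ γ : V ≃ₗ[K] V, (∀ x, ∃ s : K[X], γ x = x + aeval T s v) ∧ (∀ x y, ω (γ x) (γ y) = ω x y) ∧
      ∃ x, γ x ≠ x := by
  have := H.nontrivial
  obtain ⟨m, hm, h, hmin⟩ := exists_ann H T hv
  obtain ⟨Ω, h1, h2, h3⟩ := P.exists_Om H hm h
  have hex : ∀ x, ∃ s, Ω x = AdjoinRoot.mk m (C (ϖ ^ e) * s) := by
    intro x
    obtain ⟨o, ho⟩ := AdjoinRoot.mk_surjective (Ω x)
    have h4 : AdjoinRoot.mk m (C ϖ * o) = 0 := by
      apply tau_nondeg hm
      intro s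
      obtain ⟨s, rfl⟩ := AdjoinRoot.mk_surjective s
      rw [map_mul (AdjoinRoot.mk m), ho, ← mul_assoc, ← map_mul, h1, act_mk hm h, mul_comm,
        aeval_C_mul_apply, hv]
      simp
    rw [mk_C_mul_eq_zero hm] at h4
    obtain ⟨s, hs⟩ := (C_dvd_iff_dvd_coeff _ _).2 fun i => H.ann_one (h4 i)
    exact ⟨s, by rw [← hs, ← ho]; exact (AdjoinRoot.mk_leftInverse hm (AdjoinRoot.mk m o)).symm⟩
  have huniq : ∀ s s', AdjoinRoot.mk m (C (ϖ ^ e) * s) = AdjoinRoot.mk m (C (ϖ ^ e) * s') →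
      aeval T s v = aeval T s' v := by
    intro s s' hs
    rw [← sub_eq_zero, ← map_sub, ← mul_sub, mk_C_mul_eq_zero hm] at hs
    obtain ⟨r, hr⟩ := (C_dvd_iff_dvd_coeff _ _).2 fun i => H.ann_top (hs i)
    rw [← sub_eq_zero, ← LinearMap.sub_apply, ← map_sub, ← act_mk hm h]
    change aeval T ((s - s') %ₘ m) v = 0
    rw [hr, aeval_C_mul_apply, hv, map_zero]
  choose σ hσ using hex
  let N : V →ₗ[K] V :=
    { toFun := fun x => aeval T (σ x) v
      map_add' := by
        intro x y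
        rw [← LinearMap.add_apply, ← map_add]
        apply huniq
        rw [mul_add, map_add, ← hσ, ← hσ, ← hσ, map_add]
      map_smul' := by
        intro a x
        rw [RingHom.id_apply, ← map_smul, ← aeval_C_mul_apply]
        apply huniq
        have := h2 x (C a)
        rw [aeval_C] at this
        rw [mul_left_comm, map_mul _ (C a), ← hσ, ← hσ, ← this]
        rfl }
  have hN : ∀ x, N x = aeval T (σ x) v := fun x => rfl
  obtain ⟨γ, h4, h5⟩ := P.isom_of N
    (fun x => by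
      have e2 := h2 x X
      rw [aeval_X] at e2
      have : T (N x) = aeval T (X * σ x) v := by simp [hN]
      rw [this]
      apply huniq
      rw [mul_left_comm, map_mul _ X, ← hσ, ← hσ, e2])
    (fun x y => by
      rw [hN, hN, ← act_mk hm h, ← act_mk hm h, ← h1, ← h1, hσ, hσ, ← map_mul, ← map_mul]
      congr 2
      ring)
    (fun x y => P.iso _ _ _)
  refine ⟨γ, fun x => ⟨σ x, h4 x⟩, h5, ?_⟩
  by_contra hne
  push Not at hne
  apply hv0
  apply P.nondeg'
  intro x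
  have h6 := hne x
  rw [h4, add_eq_left, hN] at h6
  have h7 : Ω x = 0 := by
    rw [hσ, mk_C_mul_eq_zero hm]
    exact fun i => H.top_mul ((C_dvd_iff_dvd_coeff _ _).1 (hmin _ h6) i)
  have h8 := h1 x (AdjoinRoot.mk m 1)
  rw [h7, mul_zero, map_zero, act_mk hm h] at h8
  simpa using h8.symm

end Pencil

section model
variable {R : Type} [CommRing R] [Algebra K R]

/-- the bilinear cocycle of the model -/
noncomputable def βm (t : R) (c : R →ₗ[K] K) : R × R →ₗ[K] R × R →ₗ[K] K × K :=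
  LinearMap.mk₂ K (fun u v => (c (u.1 * v.2), c (t * (u.1 * v.2))))
    (by intro u u' v; simp [add_mul, mul_add])
    (by intro a u v; simp)
    (by intro u v v'; simp [mul_add])
    (by intro a u v; simp)

/-- the commutator form of the model -/
noncomputable def ωm (t : R) (c : R →ₗ[K] K) : R × R →ₗ[K] R × R →ₗ[K] K × K :=
  βm t c - (βm t c).flip

lemma βm_apply (t : R) (c : R →ₗ[K] K) (u v : R × R) :
    βm t c u v = (c (u.1 * v.2), c (t * (u.1 * v.2))) := rfl

lemma ωm_apply (t : R) (c : R →ₗ[K] K) (u v : R × R) :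
    ωm t c u v = (c (u.1 * v.2 - v.1 * u.2), c (t * (u.1 * v.2 - v.1 * u.2))) := by
  simp [ωm, βm_apply, mul_sub]

/-- the symmetrised cocycle of the model -/
noncomputable def βe (t : R) (c : R →ₗ[K] K) (ε : K) : R × R →ₗ[K] R × R →ₗ[K] K × K :=
  LinearMap.mk₂ K (fun u v => (c (u.1 * v.2 + ε • (u.1 * v.1 + u.2 * v.2)),
      c (t * (u.1 * v.2 + ε • (u.1 * v.1 + u.2 * v.2)))))
    (by intro u u' v; simp [add_mul, mul_add]; constructor <;> ring)
    (by intro a u v; simp [mul_add]; constructor <;> ring)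
    (by intro u v v'; simp [mul_add]; constructor <;> ring)
    (by intro a u v; simp [mul_add]; constructor <;> ring)

lemma βe_apply (t : R) (c : R →ₗ[K] K) (ε : K) (u v : R × R) :
    βe t c ε u v = (c (u.1 * v.2 + ε • (u.1 * v.1 + u.2 * v.2)),
      c (t * (u.1 * v.2 + ε • (u.1 * v.1 + u.2 * v.2)))) := rfl

lemma βe_sub_flip (t : R) (c : R →ₗ[K] K) (ε : K) : βe t c ε - (βe t c ε).flip = ωm t c := by
  apply LinearMap.ext₂
  intro u v
  rw [ωm_apply, LinearMap.sub_apply, LinearMap.sub_apply, LinearMap.flip_apply, βe_apply,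
    βe_apply, Prod.mk_sub_mk, ← map_sub, ← map_sub, ← mul_sub, mul_comm v.1 u.1, mul_comm v.2 u.2,
    add_sub_add_right_eq_sub]

/-- the linear part of the power map of the model -/
noncomputable def πm (c : R →ₗ[K] K) (ε : K) : R × R →ₗ[K] K × K :=
  LinearMap.prod (-(ε • c) ∘ₗ LinearMap.snd K R R) (c ∘ₗ LinearMap.fst K R R)

lemma πm_apply (c : R →ₗ[K] K) (ε : K) (u : R × R) : πm c ε u = (-(ε * c u.2), c u.1) := by
  simp [πm]

lemma pencil_model (t : R) {c : R →ₗ[K] K} (hc : ∀ a, (∀ s, c (s * a) = 0) → a = 0) :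
    Pencil (ωm t c) (LinearMap.prodMap (LinearMap.mulLeft K t) (LinearMap.mulLeft K t)) where
  alt := by intro v; simp [ωm_apply]
  nondeg := by
    intro u hu
    apply Prod.ext
    · apply hc
      intro s
      simpa [ωm_apply, mul_comm] using hu (0, s)
    · apply hc
      intro s
      simpa [ωm_apply] using hu (s, 0)
  snd := by
    intro u v
    simp only [ωm_apply, LinearMap.prodMap_apply, LinearMap.mulLeft_apply]
    congr 1
    ring

lemma isUnit_lin (H : Chain K ϖ e) {t : R} (ht : ∀ a : K, IsUnit (t - algebraMap K R a))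
    {a b : K} (h : IsUnit a ∨ IsUnit b) : IsUnit (algebraMap K R a + algebraMap K R b * t) := by
  rcases H.unit_or b with hb | ⟨b, rfl⟩
  · obtain ⟨u, hu⟩ := hb.exists_right_inv
    have : algebraMap K R a + algebraMap K R b * t =
        algebraMap K R b * (t - algebraMap K R (-(u * a))) := by
      rw [mul_sub, ← map_mul, mul_neg, ← mul_assoc, hu, one_mul, map_neg]; ring
    rw [this]
    exact (hb.map (algebraMap K R)).mul (ht _)
  · have ha := h.resolve_right (H.not_unit (dvd_mul_right _ _))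
    apply IsNilpotent.isUnit_add_left_of_commute _ (ha.map (algebraMap K R)) (Commute.all _ _)
    refine ⟨e + 1, ?_⟩
    rw [mul_pow, ← map_pow, mul_pow, H.nilp, zero_mul, map_zero, zero_mul]

lemma camina_model (H : Chain K ϖ e) {t : R} {c : R →ₗ[K] K}
    (hc : ∀ a, (∀ s, c (s * a) = 0) → a = 0)
    (ht : ∀ a : K, IsUnit (t - algebraMap K R a)) : Camina (ωm t c) := by
  have := H.nontrivial
  intro v ℓ
  by_contra hne
  obtain ⟨φ, hφ0, hφ⟩ := H.separate (LinearMap.range (ωm t c v)) hne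
  have hφ' : ∀ w : K × K, φ w = w.1 * φ (1, 0) + w.2 * φ (0, 1) := by
    intro w
    rw [← smul_eq_mul, ← smul_eq_mul, ← map_smul, ← map_smul, ← map_add]
    simp
  obtain ⟨d, a, b, h1, h2, hab⟩ : ∃ d a b : K, φ (1, 0) = d * a ∧ φ (0, 1) = d * b ∧
      (IsUnit a ∨ IsUnit b) := by
    rcases H.total (φ (1, 0)) (φ (0, 1)) with ⟨k, hk⟩ | ⟨k, hk⟩
    · exact ⟨_, 1, k, (mul_one _).symm, hk, Or.inl isUnit_one⟩
    · exact ⟨_, k, 1, hk, (mul_one _).symm, Or.inr isUnit_one⟩
  have hu := isUnit_lin H ht hab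
  have key : ∀ u : R × R, c ((algebraMap K R a + algebraMap K R b * t) *
      (d • v.1 * u.2 - u.1 * d • v.2)) = 0 := by
    intro u
    have := hφ _ (LinearMap.mem_range_self _ u)
    rw [hφ', ωm_apply, h1, h2] at this
    rw [smul_mul_assoc, mul_smul_comm, ← smul_sub, mul_smul_comm, add_mul, mul_assoc,
      ← Algebra.smul_def, ← Algebra.smul_def, map_smul, map_add, map_smul, map_smul]
    simp only [smul_eq_mul] at this ⊢
    linear_combination this
  have hv : d • v = 0 := by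
    apply Prod.ext
    · apply hu.mul_right_eq_zero.1
      apply hc
      intro s
      rw [← key (0, s)]
      congr 1; simp only [Prod.smul_fst]; ring
    · apply hu.mul_right_eq_zero.1
      apply hc
      intro s
      rw [← key (-s, 0)]
      congr 1; simp only [Prod.smul_snd]; ring
  apply hφ0
  have h3 := congrArg ℓ hv
  rw [map_smul, map_zero, Prod.ext_iff] at h3
  simp only [Prod.smul_fst, Prod.smul_snd, smul_eq_mul, Prod.fst_zero, Prod.snd_zero] at h3
  rw [hφ', h1, h2]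
  linear_combination a * h3.1 + b * h3.2

/-- `(R, t, c)` is the reduced cyclic algebra with functional attached to `g / f` -/
structure Cyc {f : K[X]} (hf : f.Monic) (g : K[X]) (t : R) (c : R →ₗ[K] K) : Prop where
  surj : ∀ a, ∃ r : K[X], aeval t r = a
  val : ∀ r : K[X], c (aeval t r) = tp hf (r * g)
  nondeg : ∀ a, (∀ s, c (s * a) = 0) → a = 0

namespace Cyc
variable {f g : K[X]} {hf : f.Monic} {t : R} {c : R →ₗ[K] K} (Y : Cyc hf g t c)
include Y

lemma eq_zero_iff (r : K[X]) : aeval t r = 0 ↔ ∀ s, tp hf (s * r * g) = 0 := by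
  constructor
  · intro h s
    rw [← Y.val, map_mul, h, mul_zero, map_zero]
  · intro h
    apply Y.nondeg
    intro s
    obtain ⟨s, rfl⟩ := Y.surj s
    rw [← map_mul, Y.val, h]

lemma root : aeval t f = 0 :=
  (Y.eq_zero_iff f).2 fun _ => tp_of_dvd hf ((dvd_mul_left _ _).mul_right _)

lemma pow (k : ℕ) : c (t ^ k) = coef f g k := by
  rw [← tp_pow hf, ← Y.val, aeval_X_pow]

lemma unit (h : ∀ a, IsUnit (f.eval a)) (a : K) : IsUnit (t - algebraMap K R a) := by
  obtain ⟨q, hq⟩ := X_sub_C_dvd_sub_C_eval (p := f) (a := a)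
  have := congrArg (aeval t) hq
  rw [map_sub, map_mul, map_sub, Y.root, aeval_X, aeval_C, aeval_C, zero_sub] at this
  exact isUnit_of_mul_isUnit_left (this ▸ ((h a).map (algebraMap K R)).neg)

lemma surj2 : Surjective ((aeval t).toLinearMap.prodMap (aeval t).toLinearMap :
    K[X] × K[X] →ₗ[K] R × R) := by
  rintro ⟨a, b⟩
  obtain ⟨a, rfl⟩ := Y.surj a
  obtain ⟨b, rfl⟩ := Y.surj b
  exact ⟨(a, b), rfl⟩

end Cyc

end model

/-- the functional on the reduced algebra -/
noncomputable def cq {f : K[X]} (hf : f.Monic) (g : K[X]) : (K[X] ⧸ den f g) →ₗ[K] K :=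
  ((den f g).restrictScalars K).liftQ
    (tau hf ∘ₗ (AdjoinRoot.mkₐ f).toLinearMap ∘ₗ LinearMap.mulRight K g)
    (fun _ hr => tp_of_dvd hf hr) ∘ₗ
  (Submodule.Quotient.restrictScalarsEquiv K (den f g)).symm.toLinearMap

lemma cyc_q {f : K[X]} (hf : f.Monic) (g : K[X]) :
    Cyc hf g (Ideal.Quotient.mk (den f g) X) (cq hf g) := by
  have h : ∀ r : K[X], aeval (Ideal.Quotient.mk (den f g) X) r = Ideal.Quotient.mk (den f g) r := by
    intro r
    rw [← Ideal.Quotient.mkₐ_eq_mk K, aeval_algHom_apply, aeval_X_left_apply]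
  refine ⟨fun a => ?_, fun r => by rw [h]; rfl, fun a ha => ?_⟩
  · obtain ⟨a, rfl⟩ := Ideal.Quotient.mk_surjective a
    exact ⟨a, h a⟩
  · obtain ⟨a, rfl⟩ := Ideal.Quotient.mk_surjective a
    rw [Ideal.Quotient.eq_zero_iff_mem]
    apply tp_nondeg hf
    intro s
    have := ha (Ideal.Quotient.mk _ s)
    rw [← map_mul] at this
    rw [← mul_assoc]
    exact this

theorem Pencil.exists_num [Finite K] (H : Chain K ϖ e) {ω : V →ₗ[K] V →ₗ[K] K × K}
    {T : Module.End K V} {f : K[X]} (hf : f.Monic) (hT : aeval T f = 0) (u₁ u₂ : V) :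
    ∃ g : K[X], g.degree < f.degree ∧ ∀ r, (ω (aeval T r u₁) u₂).1 = tp hf (r * g) := by
  obtain ⟨g, hg, hc⟩ := exists_tp H hf (LinearMap.fst K K K ∘ₗ ω.flip u₂ ∘ₗ act T u₁ hf)
  refine ⟨g, hg, fun r => ?_⟩
  rw [← hc, ← act_mk hf (by rw [hT, LinearMap.zero_apply])]
  rfl

theorem Pencil.normal_form {ω : V →ₗ[K] V →ₗ[K] K × K}
    {T : Module.End K V} (P : Pencil ω T) {f g : K[X]} {hf : f.Monic} {u₁ u₂ : V}
    (hgen : ∀ v, ∃ r s : K[X], v = aeval T r u₁ + aeval T s u₂)
    (hc : ∀ r, (ω (aeval T r u₁) u₂).1 = tp hf (r * g))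
    {R : Type} [CommRing R] [Algebra K R] {t : R} {c : R →ₗ[K] K} (Y : Cyc hf g t c) :
    ∃ Ψ : (R × R) ≃ₗ[K] V,
      (∀ r s : K[X], Ψ (aeval t r, aeval t s) = aeval T r u₁ + aeval T s u₂) ∧
      ∀ x y, ω (Ψ x) (Ψ y) = ωm t c x y := by
  have hfst : ∀ r s r' s' : K[X], (ω (aeval T r u₁ + aeval T s u₂) (aeval T r' u₁ + aeval T s' u₂)).1
      = c (aeval t (r * s' - r' * s)) := by
    intro r s r' s'
    simp only [map_add, LinearMap.add_apply, Prod.fst_add, P.iso, zero_add, add_zero]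
    rw [Y.val, sub_mul, tp_sub, ← hc, ← hc, P.skew (aeval T s u₂), Prod.fst_neg, ← P.adj_aeval,
      ← P.adj_aeval, mul_comm r, mul_comm r', map_mul, map_mul, Module.End.mul_apply,
      Module.End.mul_apply]
    ring
  obtain ⟨Ψ, hΨ⟩ := equiv_of_ker_eq _
    ((LinearMap.applyₗ u₁ ∘ₗ (aeval T).toLinearMap).coprod
      (LinearMap.applyₗ u₂ ∘ₗ (aeval T).toLinearMap)) Y.surj2
    (fun v => by
      obtain ⟨r, s, rfl⟩ := hgen v
      exact ⟨(r, s), rfl⟩)
    (by
      rintro ⟨r, s⟩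
      change (aeval t r, aeval t s) = 0 ↔ aeval T r u₁ + aeval T s u₂ = 0
      constructor
      · intro h
        rw [Prod.mk_eq_zero] at h
        apply P.nondeg
        intro v
        obtain ⟨r', s', rfl⟩ := hgen v
        rw [hfst, map_sub, map_mul, map_mul, h.1, h.2]
        simp
      · intro h
        apply (pencil_model t Y.nondeg).nondeg
        intro y
        obtain ⟨⟨r', s'⟩, rfl⟩ := Y.surj2 y
        have := hfst r s r' s'
        rw [h, map_zero, LinearMap.zero_apply, Prod.fst_zero, map_sub, map_mul, map_mul] at this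
        rw [ωm_apply]
        exact this.symm)
  have hΨ' : ∀ r s : K[X], Ψ (aeval t r, aeval t s) = aeval T r u₁ + aeval T s u₂ :=
    fun r s => hΨ (r, s)
  refine ⟨Ψ, hΨ', ?_⟩
  rintro ⟨r, s⟩ ⟨r', s'⟩
  obtain ⟨r, rfl⟩ := Y.surj r
  obtain ⟨s, rfl⟩ := Y.surj s
  obtain ⟨r', rfl⟩ := Y.surj r'
  obtain ⟨s', rfl⟩ := Y.surj s'
  rw [hΨ', hΨ', ωm_apply]
  apply Prod.ext
  · rw [hfst]; simp
  · have : T (aeval T r u₁ + aeval T s u₂) = aeval T (X * r) u₁ + aeval T (X * s) u₂ := by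
      simp
    rw [P.snd, this, hfst]
    congr 1
    simp only [map_sub, map_mul, aeval_X]
    ring

end Pool.Agent.P.MP_0b48ca_al.G
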