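import Pool.Agent.P.MP_0b48ca_al.G.Defs

/-! Expansions of rational functions at infinity and the Moebius substitution. -/

namespace Pool.Agent.P.MP_0b48ca_al.G

open Polynomial

set_option linter.unusedSectionVars false

section mob
variable {K : Type} [CommRing K] (a b c d : K)

lemma mob_eq (n : ℕ) (f : K[X]) :
    mob a b c d n f = MvPolynomial.aeval ![C c + C d * X, C a + C b * X] (f.homogenize n) := by
  rw [mob, homogenize, Finset.Nat.sum_antidiagonal_eq_sum_range_succ_mk, map_sum]
  refine Finset.sum_congr rfl fun i _ => ?_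
  rw [MvPolynomial.aeval_monomial, Finsupp.prod_fintype _ _ (by simp), Fin.prod_univ_two]
  simp [mul_assoc]

lemma mob_mul {m n : ℕ} {f g : K[X]} (hf : f.natDegree ≤ m) (hg : g.natDegree ≤ n) :
    mob a b c d (m + n) (f * g) = mob a b c d m f * mob a b c d n g := by
  rw [mob_eq, mob_eq, mob_eq, homogenize_mul _ _ hf hg, map_mul]

lemma mob_sub (n : ℕ) (f g : K[X]) :
    mob a b c d n (f - g) = mob a b c d n f - mob a b c d n g := by
  rw [mob_eq, mob_eq, mob_eq, homogenize_sub, map_sub]

lemma mob_map {R : Type} [CommRing R] (φ : K →+* R) (n : ℕ) (f : K[X]) :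
    (mob a b c d n f).map φ = mob (φ a) (φ b) (φ c) (φ d) n (f.map φ) := by
  simp [mob, Polynomial.map_sum]

lemma mob_natDegree_le (n : ℕ) (f : K[X]) : (mob a b c d n f).natDegree ≤ n := by
  rw [mob]
  apply natDegree_sum_le_of_forall_le
  intro i hi
  have h1 : ∀ u v : K, (C u + C v * X).natDegree ≤ 1 := by
    intro u v
    compute_degree
  have hi := Finset.mem_range.1 hi
  calc _ ≤ (C (f.coeff i) * (C c + C d * X) ^ i).natDegree
        + ((C a + C b * X) ^ (n - i)).natDegree := natDegree_mul_le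
    _ ≤ i * 1 + (n - i) * 1 := by
        apply add_le_add
        · exact (natDegree_C_mul_le _ _).trans (natDegree_pow_le_of_le _ (h1 _ _))
        · exact natDegree_pow_le_of_le _ (h1 _ _)
    _ = n := by omega

lemma aeval_mob {R : Type} [CommRing R] [Algebra K R] (s u : R)
    (hu : (algebraMap K R a + algebraMap K R b * s) * u = 1) {n : ℕ} {f : K[X]}
    (hf : f.natDegree ≤ n) :
    aeval s (mob a b c d n f) = (algebraMap K R a + algebraMap K R b * s) ^ n *
      aeval ((algebraMap K R c + algebraMap K R d * s) * u) f := by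
  rw [mob, map_sum, aeval_eq_sum_range' (Nat.lt_succ_of_le hf), Finset.mul_sum]
  refine Finset.sum_congr rfl fun i hi => ?_
  obtain ⟨j, rfl⟩ := Nat.exists_eq_add_of_le (Nat.lt_succ_iff.1 (Finset.mem_range.1 hi))
  simp only [map_mul, map_pow, map_add, aeval_C, aeval_X, Nat.add_sub_cancel_left,
    Algebra.smul_def]
  set A := algebraMap K R a + algebraMap K R b * s
  have : (A * u) ^ i = 1 := by rw [hu, one_pow]
  rw [mul_pow] at this
  rw [pow_add, mul_pow]
  linear_combination (-(algebraMap K R (f.coeff i) *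
    (algebraMap K R c + algebraMap K R d * s) ^ i * A ^ j)) * this

end mob

lemma mob_eq_zero {K : Type} [CommRing K] {a b c d : K} (h : IsUnit (a * d - b * c)) {n : ℕ}
    {f : K[X]} (hf : f.natDegree ≤ n) (h0 : mob a b c d n f = 0) : f = 0 := by
  let L : Fin 2 → MvPolynomial (Fin 2) K :=
    ![MvPolynomial.C c * MvPolynomial.X 1 + MvPolynomial.C d * MvPolynomial.X 0,
      MvPolynomial.C a * MvPolynomial.X 1 + MvPolynomial.C b * MvPolynomial.X 0]
  have hL : ∀ i, (L i).IsHomogeneous 1 := by
    intro i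
    fin_cases i <;>
      exact ((MvPolynomial.isHomogeneous_X _ _).C_mul _).add
        ((MvPolynomial.isHomogeneous_X _ _).C_mul _)
  have h1 : (mob a b c d n f).homogenize n = MvPolynomial.aeval L (f.homogenize n) := by
    apply homogenize_eq_of_isHomogeneous
    · simpa using (isHomogeneous_homogenize f).aeval L hL
    · rw [mob_eq, ← AlgHom.comp_apply, MvPolynomial.comp_aeval]
      congr 2
      ext1 i
      fin_cases i <;> simp [L]
  obtain ⟨u, hu⟩ := h.exists_left_inv
  have h2 := congrArg (MvPolynomial.aeval ![C u * (C a * X - C c), C u * (C d - C b * X)]) h1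
  rw [h0, homogenize_zero, map_zero, ← AlgHom.comp_apply, MvPolynomial.comp_aeval] at h2
  rw [← aeval_homogenize_X_one f hf, h2]
  have hu' := congrArg C hu
  simp only [map_mul, map_sub, map_one] at hu'
  congr 2
  ext1 i
  fin_cases i
  · simp [L]
    linear_combination (-X) * hu'
  · simp [L]
    linear_combination -hu'

section Exp
variable {K : Type} [CommRing K] [Nontrivial K]

/-- polynomial part of `X ^ k * ∑ j, c j * X ^ (-j-1)` -/
noncomputable def DD (c : ℕ → K) : ℕ → K[X]
  | 0 => 0
  | k + 1 => X * DD c k + C (c k)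

/-- `b / a = ∑ j, c j * X ^ (-j-1)` -/
def Expands (a b : K[X]) (c : ℕ → K) : Prop :=
  ∀ k, (X ^ k * b - a * DD c k).degree < a.degree

lemma Expands.ne_zero {a b : K[X]} {c : ℕ → K} (h : Expands a b c) : a ≠ 0 := by
  rintro rfl
  simpa using h 0

lemma Expands.num_unique {a b b' : K[X]} {c : ℕ → K} (h : Expands a b c) (h' : Expands a b' c) :
    b = b' := by
  by_contra hne
  have h1 := (degree_sub_le _ _).trans_lt (max_lt (h a.natDegree) (h' a.natDegree))
  rw [sub_sub_sub_cancel_right, ← mul_sub, mul_comm, (monic_X_pow _).degree_mul, degree_X_pow,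
    degree_eq_natDegree h.ne_zero, degree_eq_natDegree (sub_ne_zero.2 hne)] at h1
  norm_cast at h1
  omega

lemma Expands.seq_unique {a b a' b' : K[X]} {c c' : ℕ → K} (ha : a.Monic) (ha' : a'.Monic)
    (h : Expands a b c) (h' : Expands a' b' c') (hab : a * b' = a' * b) : c = c' := by
  have key : ∀ k, DD c k = DD c' k := by
    intro k
    by_contra hne
    have h1 : a * a' * (DD c k - DD c' k) =
        a * (X ^ k * b' - a' * DD c' k) - a' * (X ^ k * b - a * DD c k) := by
      linear_combination (-X ^ k) * hab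
    have h2 : (a * (X ^ k * b' - a' * DD c' k)).degree < (a * a').degree := by
      rw [mul_comm a, mul_comm a, ha.degree_mul, ha.degree_mul]
      exact WithBot.add_lt_add_right (degree_ne_bot.2 h.ne_zero) (h' k)
    have h3 : (a' * (X ^ k * b - a * DD c k)).degree < (a * a').degree := by
      rw [mul_comm a', ha'.degree_mul, ha'.degree_mul]
      exact WithBot.add_lt_add_right (degree_ne_bot.2 h'.ne_zero) (h k)
    have h4 := (degree_sub_le _ _).trans_lt (max_lt h2 h3)
    rw [← h1, mul_comm, (ha.mul ha').degree_mul, degree_eq_natDegree (sub_ne_zero.2 hne),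
      degree_eq_natDegree (ha.mul ha').ne_zero] at h4
    norm_cast at h4
    omega
  ext k
  have := key (k + 1)
  rw [DD, DD, key k, add_right_inj] at this
  exact C_injective this

lemma expands_coef {f g : K[X]} (hf : f.Monic) (h0 : 0 < f.natDegree)
    (hg : g.degree < f.degree) : Expands f g (coef f g) := by
  intro k
  induction k with
  | zero => simpa [DD] using hg
  | succ k ih =>
    have h1 : (g * X ^ k) %ₘ f = X ^ k * g - f * DD (coef f g) k :=
      (div_modByMonic_unique (DD (coef f g) k) _ hf ⟨by ring, ih⟩).2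
    have h2 : X ^ (k + 1) * g - f * DD (coef f g) (k + 1) =
        X * (X ^ k * g - f * DD (coef f g) k) - f * C (coef f g k) := by
      rw [DD]; ring
    have h3 : coef f g k = (X ^ k * g - f * DD (coef f g) k).coeff (f.natDegree - 1) := by
      rw [coef, h1]
    rw [h2]
    generalize X ^ k * g - f * DD (coef f g) k = r at *
    rw [degree_eq_natDegree hf.ne_zero, degree_lt_iff_coeff_zero] at ih ⊢
    intro m hm
    obtain ⟨m, rfl⟩ : ∃ m', m = m' + 1 := ⟨m - 1, by omega⟩
    rw [coeff_sub, coeff_X_mul, coeff_mul_C]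
    rcases hm.eq_or_lt with h | h
    · rw [h3, ← h, hf.coeff_natDegree, h]; simp
    · rw [ih m (by omega), coeff_eq_zero_of_natDegree_lt h]; simp

variable {R : Type} [CommRing R] [Algebra K R]

/-- apply a linear functional to the coefficients -/
noncomputable def cmap (c : R →ₗ[K] K) (H : R[X]) : K[X] :=
  ∑ i ∈ H.support, monomial i (c (H.coeff i))

lemma coeff_cmap (c : R →ₗ[K] K) (H : R[X]) (i : ℕ) : (cmap c H).coeff i = c (H.coeff i) := by
  simp only [cmap, finsetSum_coeff, coeff_monomial, Finset.sum_ite_eq']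
  split_ifs with h
  · rfl
  · rw [notMem_support_iff.1 h, map_zero]

lemma cmap_map_mul (c : R →ₗ[K] K) (a : K[X]) (H : R[X]) :
    cmap c (a.map (algebraMap K R) * H) = a * cmap c H := by
  ext i
  simp [coeff_cmap, coeff_mul, ← Algebra.smul_def]

lemma cmap_sub (c : R →ₗ[K] K) (H H' : R[X]) : cmap c (H - H') = cmap c H - cmap c H' := by
  ext i
  simp [coeff_cmap]

lemma cmap_C (c : R →ₗ[K] K) (r : R) : cmap c (C r) = C (c r) := by
  ext i
  simp only [coeff_cmap, coeff_C]
  split_ifs <;> simp

lemma cmap_C_mul (c : R →ₗ[K] K) (r : R) (H : R[X]) :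
    cmap c (C r * H) = cmap (c ∘ₗ LinearMap.mulLeft K r) H := by
  ext i
  simp [coeff_cmap]

lemma cmap_sum (c : R →ₗ[K] K) {ι : Type} (s : Finset ι) (H : ι → R[X]) :
    cmap c (∑ i ∈ s, H i) = ∑ i ∈ s, cmap c (H i) := by
  ext i
  simp [coeff_cmap]

lemma degree_cmap_le (c : R →ₗ[K] K) (H : R[X]) : (cmap c H).degree ≤ H.degree := by
  apply degree_mono
  intro i hi
  rw [mem_support_iff] at *
  intro h
  rw [coeff_cmap, h, map_zero] at hi
  exact hi rfl

lemma cmap_mob (φ : R →ₗ[K] K) (a b c d : K) (n : ℕ) (H : R[X]) :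
    cmap φ (mob (algebraMap K R a) (algebraMap K R b) (algebraMap K R c) (algebraMap K R d) n H)
      = mob a b c d n (cmap φ H) := by
  rw [mob, mob, cmap_sum]
  refine Finset.sum_congr rfl fun i _ => ?_
  have : C (H.coeff i) * (C (algebraMap K R c) + C (algebraMap K R d) * X) ^ i *
      (C (algebraMap K R a) + C (algebraMap K R b) * X) ^ (n - i) =
      ((C c + C d * X) ^ i * (C a + C b * X) ^ (n - i)).map (algebraMap K R) * C (H.coeff i) := by
    simp; ring
  rw [this, cmap_map_mul, cmap_C, coeff_cmap]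
  ring

/-- `b / a = c (1 / (X - t))` -/
def Rep (t : R) (c : R →ₗ[K] K) (a b : K[X]) : Prop :=
  ∃ H : R[X], a.map (algebraMap K R) = (X - C t) * H ∧ b = cmap c H

lemma exists_rep {t : R} (c : R →ₗ[K] K) {a : K[X]} (h : aeval t a = 0) : ∃ b, Rep t c a b := by
  obtain ⟨H, hH⟩ : X - C t ∣ a.map (algebraMap K R) := by
    rw [dvd_iff_isRoot, IsRoot.def, eval_map_algebraMap, h]
  exact ⟨_, H, hH, rfl⟩

lemma Rep.cross {t : R} {c : R →ₗ[K] K} {a b a' b' : K[X]} (h : Rep t c a b)
    (h' : Rep t c a' b') : a * b' = a' * b := by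
  obtain ⟨H, h1, rfl⟩ := h
  obtain ⟨H', h2, rfl⟩ := h'
  rw [← cmap_map_mul, ← cmap_map_mul, h1, h2]
  congr 1
  ring

lemma degree_lt_of_factor [Nontrivial R] {t : R} {a : K[X]} {H : R[X]} (ha : a ≠ 0)
    (h : a.map (algebraMap K R) = (X - C t) * H) : H.degree < a.degree := by
  rcases eq_or_ne H 0 with rfl | hH
  · rw [degree_zero]; exact bot_lt_iff_ne_bot.2 (degree_ne_bot.2 ha)
  refine lt_of_lt_of_le ?_ (degree_map_le (f := algebraMap K R))
  rw [h, mul_comm, (monic_X_sub_C t).degree_mul, degree_X_sub_C, degree_eq_natDegree hH]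
  norm_cast
  omega

lemma Rep.expands [Nontrivial R] {t : R} {c : R →ₗ[K] K} {a b : K[X]} (ha : a ≠ 0)
    (h : Rep t c a b) : Expands a b (fun k => c (t ^ k)) := by
  obtain ⟨H, h1, rfl⟩ := h
  have key : ∀ k, X ^ k * cmap c H - a * DD (fun k => c (t ^ k)) k = cmap c (C (t ^ k) * H) := by
    intro k
    induction k with
    | zero => simp [DD]
    | succ k ih =>
      have : C (t ^ (k + 1)) * H = (X : K[X]).map (algebraMap K R) * (C (t ^ k) * H) -
          a.map (algebraMap K R) * C (t ^ k) := by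
        rw [h1]; simp; ring
      rw [this, cmap_sub, cmap_map_mul, cmap_map_mul, ← ih, cmap_C, DD]
      ring
  intro k
  rw [key]
  refine (degree_cmap_le _ _).trans_lt (lt_of_le_of_lt ?_ (degree_lt_of_factor ha h1))
  rw [← smul_eq_C_mul]
  exact degree_smul_le _ _

lemma Rep.mob [Nontrivial R] {t u : R} {φ : R →ₗ[K] K} {a b c d : K} {f g : K[X]}
    (hu : (algebraMap K R a + algebraMap K R b * t) * u = 1) (hf : 0 < f.natDegree)
    (h : Rep ((algebraMap K R c + algebraMap K R d * t) * u)
      (φ ∘ₗ LinearMap.mulLeft K (algebraMap K R (a * d - b * c) * u)) f g) :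
    Rep t φ (mob a b c d f.natDegree f) (mob a b c d (f.natDegree - 1) g) := by
  obtain ⟨H, h1, rfl⟩ := h
  have hH : H.natDegree ≤ f.natDegree - 1 := by
    have := degree_lt_of_factor (ne_zero_of_natDegree_gt hf) h1
    rcases eq_or_ne H 0 with rfl | hH
    · simp
    · have := natDegree_lt_natDegree hH this
      omega
  refine ⟨C (algebraMap K R (a * d - b * c) * u) * Pool.Agent.P.MP_0b48ca_al.G.mob
    (algebraMap K R a) (algebraMap K R b) (algebraMap K R c) (algebraMap K R d)
    (f.natDegree - 1) H, ?_, ?_⟩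
  · rw [mob_map, h1]
    conv_lhs => rw [show f.natDegree = 1 + (f.natDegree - 1) by omega]
    rw [mob_mul _ _ _ _ (natDegree_X_sub_C_le _) hH, ← mul_assoc]
    congr 1
    have hu' := congrArg C hu
    simp only [map_mul, map_add, map_one] at hu'
    simp [Pool.Agent.P.MP_0b48ca_al.G.mob, Finset.sum_range_succ, coeff_X, coeff_C]
    linear_combination (-(C (algebraMap K R c) + C (algebraMap K R d) * X)) * hu'
  · rw [cmap_C_mul, cmap_mob]

end Exp

end Pool.Agent.P.MP_0b48ca_al.G
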